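import Mathlib

set_option autoImplicit false

open Polynomial Finset

namespace H758R3.Dir

variable {p : ℕ} [Fact p.Prime]

/-- each factor `X - C t` divides `X^p - X` with explicit quotient -/
lemma geom_quot (t : ZMod p) :
    (∑ i ∈ range p, (X : (ZMod p)[X]) ^ i * (C t) ^ (p - 1 - i) - 1) * (X - C t) = X ^ p - X := by
  have h := (Commute.all (X : (ZMod p)[X]) (C t)).geom_sum₂_mul p
  rw [sub_mul, h, ← C_pow, ZMod.pow_card]
  ring

lemma deriv_prod_mul {ι : Type*} [DecidableEq ι] (A : Finset ι) (hA : A.card = p) (t : ι → ZMod p) :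
    derivative (∏ a ∈ A, (X - C (t a))) * (X ^ p - X) =
      (∏ a ∈ A, (X - C (t a))) *
        ∑ a ∈ A, ∑ i ∈ range p, (X : (ZMod p)[X]) ^ i * (C (t a)) ^ (p - 1 - i) := by
  rw [Polynomial.derivative_prod_finset, Finset.sum_mul]
  have h1 : ∀ a ∈ A, (∏ j ∈ A.erase a, (X - C (t j))) * derivative (X - C (t a)) * (X ^ p - X)
      = (∏ a ∈ A, (X - C (t a))) *
        (∑ i ∈ range p, (X : (ZMod p)[X]) ^ i * (C (t a)) ^ (p - 1 - i) - 1) := by
    intro a ha
    rw [← geom_quot (t a), derivative_sub, derivative_X, derivative_C, sub_zero, mul_one,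
      ← Finset.mul_prod_erase A _ ha]
    ring
  rw [Finset.sum_congr rfl h1, ← Finset.mul_sum, Finset.sum_sub_distrib]
  simp [hA]

theorem gap {ι : Type*} [DecidableEq ι] (h : ℕ) (hh : 1 ≤ h) (hp : p = 2 * h + 1)
    (A : Finset ι) (hA : A.card = p) (t : ι → ZMod p)
    (hk : ∀ k, 1 ≤ k → k ≤ h → ∑ a ∈ A, t a ^ k = 0) :
    (∀ a ∈ A, ∀ b ∈ A, t a = t b) ∨ Set.InjOn t A := by
  classical
  set R : (ZMod p)[X] := ∏ a ∈ A, (X - C (t a)) with hR
  set S : (ZMod p)[X] := ∑ a ∈ A, ∑ i ∈ range p, (X : (ZMod p)[X]) ^ i * (C (t a)) ^ (p - 1 - i) with hS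
  have hmon : R.Monic := monic_prod_of_monic _ _ (fun a _ => monic_X_sub_C _)
  have hdegR : R.natDegree = p := by
    rw [hR, natDegree_prod_of_monic _ _ (fun a _ => monic_X_sub_C _)]
    simp [hA]
  have hE : derivative R * (X ^ p - X) = R * S := deriv_prod_mul A hA t
  -- degree of S
  have hScoef : ∀ i, h ≤ i → S.coeff i = 0 := by
    intro i hi
    rw [hS]
    simp only [finsetSum_coeff]
    by_cases hip : i < p
    · have : ∀ a ∈ A, ∑ j ∈ range p, ((X : (ZMod p)[X]) ^ j * (C (t a)) ^ (p - 1 - j)).coeff i
          = t a ^ (p - 1 - i) := by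
        intro a _
        rw [Finset.sum_eq_single i]
        · rw [← C_pow, coeff_mul_C, coeff_X_pow]; simp
        · intro j _ hj
          rw [← C_pow, coeff_mul_C, coeff_X_pow, if_neg (Ne.symm hj), zero_mul]
        · intro hn; exact absurd (Finset.mem_range.mpr hip) hn
      rw [Finset.sum_congr rfl this]
      by_cases h0 : p - 1 - i = 0
      · rw [h0]; simp [hA]
      · exact hk _ (by omega) (by omega)
    · apply Finset.sum_eq_zero
      intro a _
      apply Finset.sum_eq_zero
      intro j hj
      rw [← C_pow, coeff_mul_C, coeff_X_pow, if_neg, zero_mul]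
      have := Finset.mem_range.mp hj
      omega
  have hSdeg : S.natDegree ≤ h - 1 := by
    rw [natDegree_le_iff_coeff_eq_zero]
    intro i hi
    exact hScoef i (by omega)
  set g : (ZMod p)[X] := R - X ^ p with hg
  have hRg : R = X ^ p + g := by rw [hg]; ring
  have hdX : derivative ((X : (ZMod p)[X]) ^ p) = 0 := by
    rw [derivative_X_pow]; simp
  have hg' : derivative g = derivative R := by
    rw [hg, derivative_sub, hdX, sub_zero]
  have hgdeg : g.natDegree < p := by
    have h1 : g.degree < p := by
      have : (R - X ^ p).degree < R.degree := by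
        apply degree_sub_lt_left
        · rw [degree_X_pow, degree_eq_natDegree hmon.ne_zero, hdegR]
        · exact hmon.ne_zero
        · rw [hmon.leadingCoeff, (monic_X_pow p).leadingCoeff]
      rw [degree_eq_natDegree hmon.ne_zero, hdegR] at this
      exact this
    by_cases h0 : g = 0
    · rw [h0, natDegree_zero]; omega
    · exact (natDegree_lt_iff_degree_lt h0).mpr h1
  have hXmon : ((X : (ZMod p)[X]) ^ p - X).Monic := by
    apply monic_X_pow_sub
    rw [degree_X]
    have : 1 < p := by omega
    exact_mod_cast this
  have hXdeg : ((X : (ZMod p)[X]) ^ p - X).natDegree = p := by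
    have : (X : (ZMod p)[X]).natDegree < ((X : (ZMod p)[X]) ^ p).natDegree := by
      rw [natDegree_X_pow, natDegree_X]; omega
    rw [natDegree_sub_eq_left_of_natDegree_lt this, natDegree_X_pow]
  by_cases hS0 : S = 0
  · left
    rw [hS0, mul_zero] at hE
    have hR' : derivative R = 0 := by
      rcases mul_eq_zero.mp hE with h1 | h1
      · exact h1
      · exact absurd h1 hXmon.ne_zero
    have hgc : ∀ i, 1 ≤ i → g.coeff i = 0 := by
      intro i hi
      by_cases hip : i < p
      · have h2 : (derivative g).coeff (i - 1) = 0 := by rw [hg', hR', coeff_zero]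
        rw [coeff_derivative] at h2
        have h3 : i - 1 + 1 = i := by omega
        rw [h3] at h2
        rcases mul_eq_zero.mp h2 with h4 | h4
        · exact h4
        · exfalso
          have h5 : ((i : ℕ) : ZMod p) = 0 := by
            have : ((i - 1 : ℕ) : ZMod p) + 1 = ((i : ℕ) : ZMod p) := by
              rw [← Nat.cast_succ]; congr 1
            rw [← this]; exact h4
          rw [ZMod.natCast_eq_zero_iff] at h5
          exact absurd (Nat.le_of_dvd (by omega) h5) (by omega)
      · exact coeff_eq_zero_of_natDegree_lt (by omega)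
    have hgC : g = C (g.coeff 0) := by
      ext i
      rcases Nat.eq_zero_or_pos i with h0 | h0
      · subst h0; simp
      · rw [hgc i h0, coeff_C, if_neg (by omega)]
    have hroot : ∀ a ∈ A, t a = - g.coeff 0 := by
      intro a ha
      have h1 : R.eval (t a) = 0 := by
        rw [hR, eval_prod]
        exact Finset.prod_eq_zero ha (by simp)
      rw [hRg, hgC] at h1
      simp only [eval_add, eval_pow, eval_X, eval_C, ZMod.pow_card] at h1
      exact eq_neg_of_add_eq_zero_left h1
    intro a ha b hb
    rw [hroot a ha, hroot b hb]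
  · right
    have hg'0 : derivative g ≠ 0 := by
      intro h0
      rw [← hg', h0, zero_mul] at hE
      exact mul_ne_zero hmon.ne_zero hS0 hE.symm
    have hg'deg : (derivative g).natDegree ≤ h - 1 := by
      have h1 : (derivative g * (X ^ p - X)).natDegree = (R * S).natDegree := by rw [hg', hE]
      rw [natDegree_mul hg'0 hXmon.ne_zero, natDegree_mul hmon.ne_zero hS0, hXdeg, hdegR] at h1
      omega
    have hgd : g.natDegree ≤ h := by
      rw [natDegree_le_iff_coeff_eq_zero]
      intro i hi
      by_cases hip : i < p
      · have h2 : (derivative g).coeff (i - 1) = 0 :=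
          coeff_eq_zero_of_natDegree_lt (by omega)
        rw [coeff_derivative] at h2
        have h3 : i - 1 + 1 = i := by omega
        rw [h3] at h2
        rcases mul_eq_zero.mp h2 with h4 | h4
        · exact h4
        · exfalso
          have h5 : ((i : ℕ) : ZMod p) = 0 := by
            have : ((i - 1 : ℕ) : ZMod p) + 1 = ((i : ℕ) : ZMod p) := by
              rw [← Nat.cast_succ]; congr 1
            rw [← this]; exact h4
          rw [ZMod.natCast_eq_zero_iff] at h5
          exact absurd (Nat.le_of_dvd (by omega) h5) (by omega)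
      · exact coeff_eq_zero_of_natDegree_lt (by omega)
    have hkey : X ^ p * (derivative g - S) = g * S + X * derivative g := by
      have : derivative g * (X ^ p - X) = (X ^ p + g) * S := by rw [hg', hE, ← hRg]
      linear_combination this
    have hdiff : derivative g - S = 0 := by
      by_contra hne
      have h1 : (X ^ p * (derivative g - S)).natDegree = p + (derivative g - S).natDegree := by
        rw [natDegree_mul (monic_X_pow p).ne_zero hne, natDegree_X_pow]
      have h2 : (g * S + X * derivative g).natDegree ≤ 2 * h - 1 := by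
        apply (natDegree_add_le _ _).trans
        apply max_le
        · exact natDegree_mul_le.trans (by omega)
        · apply natDegree_mul_le.trans
          rw [natDegree_X]; omega
      rw [hkey] at h1
      omega
    have hzero : derivative g * (g + X) = 0 := by
      rw [hdiff, mul_zero] at hkey
      have h3 : S = derivative g := (sub_eq_zero.mp hdiff).symm
      rw [h3] at hkey
      linear_combination -hkey
    have hgX : g + X = 0 := by
      rcases mul_eq_zero.mp hzero with h1 | h1
      · exact absurd h1 hg'0
      · exact h1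
    have hR'val : derivative R = -1 := by
      rw [← hg']
      have : g = -X := eq_neg_of_add_eq_zero_left hgX
      rw [this]; simp
    intro a ha b hb hab
    by_contra hne
    have hdvd : (X - C (t a)) * (X - C (t a)) ∣ R := by
      have h1 : (∏ x ∈ ({a, b} : Finset ι), (X - C (t x))) ∣ R := by
        apply Finset.prod_dvd_prod_of_subset
        intro x hx
        rcases Finset.mem_insert.mp hx with h2 | h2
        · rw [h2]; exact ha
        · rw [Finset.mem_singleton.mp h2]; exact hb
      rw [Finset.prod_pair hne, ← hab] at h1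
      exact h1
    obtain ⟨Q, hQ⟩ := hdvd
    have h2 : (derivative R).eval (t a) = 0 := by
      rw [hQ]
      simp [derivative_mul]
    rw [hR'val] at h2
    simp at h2

end H758R3.Dir
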