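import Mathlib
import Pool.Agent.H758R3.DirMain1

set_option autoImplicit false

open Polynomial Finset

namespace H758R3.Dir

variable {p : ℕ} [Fact p.Prime]

lemma sum_kill {D : Finset (Vec p)} {u1 u2 : Vec p} (hf : Free D u1 u2) :
    ∑ x : Option (ZMod p), (kill D (mem u1 u2 x)).card ≤ D.card := by
  classical
  rw [← Finset.card_biUnion]
  · apply Finset.card_le_card
    intro d hd
    rw [Finset.mem_biUnion] at hd
    obtain ⟨x, _, hx⟩ := hd
    exact (mem_kill.mp hx).1
  · intro x _ y _ hxy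
    rw [Function.onFun, Finset.disjoint_left]
    intro d hd1 hd2
    apply hxy
    exact kill_unique (hf.2 d (mem_kill.mp hd1).1) (mem_kill.mp hd1).2 (mem_kill.mp hd2).2

lemma exists_u2 (u1 d0 : Vec p) (hd0 : d0 ≠ 0) : ∃ u2 : Vec p, u2 ⬝ᵥ d0 = 0 ∧ ∀ x : ZMod p, x • u1 + u2 ≠ 0 := by
  obtain ⟨i, hi⟩ : ∃ i, d0 i ≠ 0 := by
    by_contra hcon
    push Not at hcon
    exact hd0 (funext hcon)
  set w1 : Vec p := d0 i • (Pi.single (i + 1) 1) - d0 (i + 1) • (Pi.single i 1) with hw1
  set w2 : Vec p := d0 i • (Pi.single (i + 2) 1) - d0 (i + 2) • (Pi.single i 1) with hw2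
  have h1 : w1 ⬝ᵥ d0 = 0 := by
    rw [hw1, sub_dotProduct, smul_dotProduct, smul_dotProduct, single_dotProduct, single_dotProduct]
    simp only [smul_eq_mul]; ring
  have h2 : w2 ⬝ᵥ d0 = 0 := by
    rw [hw2, sub_dotProduct, smul_dotProduct, smul_dotProduct, single_dotProduct, single_dotProduct]
    simp only [smul_eq_mul]; ring
  have e11 : w1 (i + 1) = d0 i := by
    rw [hw1]; fin_cases i <;> simp
  have e12 : w1 (i + 2) = 0 := by
    rw [hw1]; fin_cases i <;> simp
  have e22 : w2 (i + 2) = d0 i := by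
    rw [hw2]; fin_cases i <;> simp
  by_contra hcon
  push Not at hcon
  obtain ⟨x, hx⟩ := hcon w1 h1
  obtain ⟨y, hy⟩ := hcon w2 h2
  have g1 : x * u1 (i + 1) + w1 (i + 1) = 0 := by
    have := congrFun hx (i + 1); simpa using this
  have g2 : x * u1 (i + 2) + w1 (i + 2) = 0 := by
    have := congrFun hx (i + 2); simpa using this
  have g3 : y * u1 (i + 2) + w2 (i + 2) = 0 := by
    have := congrFun hy (i + 2); simpa using this
  rw [e11] at g1
  rw [e12, add_zero] at g2
  rw [e22] at g3
  rcases mul_eq_zero.mp g2 with h3 | h3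
  · rw [h3, zero_mul, zero_add] at g1; exact hi g1
  · rw [h3, mul_zero, zero_add] at g3; exact hi g3

lemma exists_nonzero_orth (d : Vec p) : ∃ u : Vec p, u ≠ 0 ∧ u ⬝ᵥ d = 0 := by
  by_cases hd : d = 0
  · refine ⟨Pi.single 0 1, ?_, ?_⟩
    · intro h
      have := congrFun h 0
      simp at this
    · rw [hd, dotProduct_zero]
  · obtain ⟨u2, h1, h2⟩ := exists_u2 0 d hd
    refine ⟨u2, ?_, h1⟩
    intro h
    apply h2 0
    rw [h]; simp

theorem low_moments {A D : Finset (Vec p)} (hD : Dirs A D) (hA : A.card = p) (hnp : NonPlanar A)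
    (hDp : D.card ≤ p) (hD0 : ∀ d ∈ D, d ≠ 0) (h : ℕ) (hh : 1 ≤ h) (hp : p = 2 * h + 1) :
    ∃ K, K < h ∧ p - 1 ≤ 3 * K ∧ ∀ k, 1 ≤ k → k ≤ K → ∀ u, M A k u = 0 := by
  classical
  have hex : ∃ k, 1 ≤ k ∧ ∃ u, M A k u ≠ 0 := by
    obtain ⟨d, hd⟩ := D_nonempty hD hA
    obtain ⟨u, hu, hud⟩ := exists_nonzero_orth d
    obtain ⟨k, hk1, _, hk3⟩ := gap_functional hD hA hnp h hh hp hu hd hud
    exact ⟨k, hk1, u, hk3⟩
  set j := Nat.find hex with hj
  obtain ⟨hj1, u0, hu0⟩ := Nat.find_spec hex
  rw [← hj] at hj1 hu0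
  have hjmin : ∀ k, 1 ≤ k → k < j → ∀ u, M A k u = 0 := by
    intro k hk1 hk2 u
    by_contra hne
    exact Nat.find_min hex hk2 ⟨hk1, u, hne⟩
  have hjh : j ≤ h := by
    obtain ⟨d, hd⟩ := D_nonempty hD hA
    obtain ⟨u, hu, hud⟩ := exists_nonzero_orth d
    obtain ⟨k, hk1, hk2, hk3⟩ := gap_functional hD hA hnp h hh hp hu hd hud
    exact (Nat.find_min' hex ⟨hk1, u, hk3⟩).trans hk2
  have hu0ne : u0 ≠ 0 := by
    intro h0
    apply hu0
    rw [h0, M]
    apply Finset.sum_eq_zero
    intro a _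
    rw [zero_dotProduct, zero_pow (by omega)]
  obtain ⟨u', hfree⟩ := exists_free hDp hD0 hu0ne
  -- nonzero members
  set Z := Finset.univ.filter (fun x : Option (ZMod p) => M A j (mem u0 u' x) = 0) with hZ
  have hZc : Z.card ≤ j := pencil_zero A u0 u' j hj1 none hu0
  set Y := Finset.univ.filter (fun x : Option (ZMod p) => ¬ M A j (mem u0 u' x) = 0) with hY
  have hYc : Z.card + Y.card = p + 1 := by
    have h4 := Finset.card_filter_add_card_filter_not (s := (Finset.univ : Finset (Option (ZMod p))))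
      (fun x => M A j (mem u0 u' x) = 0)
    rw [Finset.card_univ, Fintype.card_option, ZMod.card] at h4
    exact h4
  have hkne : ∀ x ∈ Y, (kill D (mem u0 u' x)).Nonempty := by
    intro x hx
    by_contra hne
    rw [hY, Finset.mem_filter] at hx
    exact hx.2 (M_of_inj hA (injOn_of_kill hD (Finset.not_nonempty_iff_eq_empty.mp hne)) (by omega))
  obtain ⟨x, hxY, hxc⟩ : ∃ x ∈ Y, (kill D (mem u0 u' x)).card = 1 := by
    by_contra hcon
    push Not at hcon
    have h1 : ∀ x ∈ Y, 2 ≤ (kill D (mem u0 u' x)).card := by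
      intro x hx
      have h2 := hcon x hx
      have h3 := Finset.card_pos.mpr (hkne x hx)
      omega
    have h2 : Y.card • 2 ≤ ∑ x ∈ Y, (kill D (mem u0 u' x)).card := Finset.card_nsmul_le_sum _ _ _ h1
    have h3 : ∑ x ∈ Y, (kill D (mem u0 u' x)).card ≤ ∑ x : Option (ZMod p), (kill D (mem u0 u' x)).card :=
      Finset.sum_le_sum_of_subset (Finset.subset_univ _)
    have h4 := sum_kill hfree
    rw [smul_eq_mul] at h2
    omega
  obtain ⟨d0, hd0⟩ := Finset.card_eq_one.mp hxc
  set u1 := mem u0 u' x with hu1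
  have hd0D : d0 ∈ D := by
    have : d0 ∈ kill D u1 := by rw [hd0]; exact Finset.mem_singleton_self _
    exact (mem_kill.mp this).1
  have hd0u1 : u1 ⬝ᵥ d0 = 0 := by
    have : d0 ∈ kill D u1 := by rw [hd0]; exact Finset.mem_singleton_self _
    exact (mem_kill.mp this).2
  have hM1 : M A j u1 ≠ 0 := by
    rw [hY, Finset.mem_filter] at hxY
    exact hxY.2
  obtain ⟨u2, hu2d, hu2⟩ := exists_u2 u1 d0 (hD0 d0 hd0D)
  obtain ⟨i, hi⟩ : ∃ i, d0 i ≠ 0 := by
    by_contra hcon
    push Not at hcon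
    exact hD0 d0 hd0D (funext hcon)
  set u3 : Vec p := Pi.single i 1 with hu3
  have hu3d : ∀ d : Vec p, u3 ⬝ᵥ d = d i := by
    intro d; rw [hu3, single_dotProduct, one_mul]
  have herase : (D.erase d0).card + 1 = D.card := Finset.card_erase_add_one hd0D
  have hcomb : ∀ (u v w : ZMod p) (d : Vec p), (u • u1 + v • u2 + w • u3) ⬝ᵥ d =
      u * (u1 ⬝ᵥ d) + v * (u2 ⬝ᵥ d) + w * (u3 ⬝ᵥ d) := by
    intro u v w d
    simp [add_dotProduct, smul_dotProduct]
  have hcore := core (p := p) (D.erase d0) A (fun d => u1 ⬝ᵥ d) (fun d => u2 ⬝ᵥ d) (fun d => u3 ⬝ᵥ d)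
    (fun a => u1 ⬝ᵥ a) (fun a => u2 ⬝ᵥ a) (fun a => u3 ⬝ᵥ a) j h hp hh hj1 hjh (by omega)
    (by
      intro d hd h0
      rw [Finset.mem_erase] at hd
      have : d ∈ kill D u1 := mem_kill.mpr ⟨hd.2, h0⟩
      rw [hd0, Finset.mem_singleton] at this
      exact hd.1 this)
    (by
      intro u v w hw
      by_cases hprod : ∏ d ∈ D.erase d0, (u * (u1 ⬝ᵥ d) + v * (u2 ⬝ᵥ d) + w * (u3 ⬝ᵥ d)) = 0
      · rw [hprod, zero_mul]
      · have hk : kill D (u • u1 + v • u2 + w • u3) = ∅ := by
          rw [Finset.eq_empty_iff_forall_notMem]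
          intro d hd
          rw [mem_kill, hcomb] at hd
          by_cases hdd : d = d0
          · rw [hdd, hd0u1, hu2d, hu3d, mul_zero, mul_zero, zero_add, zero_add] at hd
            rcases mul_eq_zero.mp hd.2 with h3 | h3
            · exact hw h3
            · exact hi h3
          · exact hprod (Finset.prod_eq_zero (Finset.mem_erase.mpr ⟨hdd, hd.1⟩) hd.2)
        have hM := M_of_inj hA (injOn_of_kill hD hk) (k := j) (by omega)
        rw [M] at hM
        have : ∑ a ∈ A, (u * (u1 ⬝ᵥ a) + v * (u2 ⬝ᵥ a) + w * (u3 ⬝ᵥ a)) ^ j = 0 := by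
          rw [← hM]
          apply Finset.sum_congr rfl
          intro a _
          rw [hcomb]
        rw [this, mul_zero])
    hM1
  rcases hcore with hc | ⟨x0, hx0⟩
  · refine ⟨j - 1, by omega, by omega, ?_⟩
    intro k hk1 hk2 u
    exact hjmin k hk1 (by omega) u
  · exfalso
    set us : Vec p := x0 • u1 + u2 with hus
    have husne : us ≠ 0 := hu2 x0
    have husd : ∀ d, us ⬝ᵥ d = x0 * (u1 ⬝ᵥ d) + u2 ⬝ᵥ d := by
      intro d; rw [hus, add_dotProduct, smul_dotProduct, smul_eq_mul]
    have hkc : p - j + 1 ≤ (kill D us).card := by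
      have hsub : insert d0 ((D.erase d0).filter (fun d => x0 * (u1 ⬝ᵥ d) + u2 ⬝ᵥ d = 0)) ⊆ kill D us := by
        intro d hd
        rw [Finset.mem_insert] at hd
        rw [mem_kill, husd]
        rcases hd with rfl | hd
        · refine ⟨hd0D, ?_⟩
          rw [hd0u1, hu2d, mul_zero, add_zero]
        · rw [Finset.mem_filter] at hd
          exact ⟨Finset.mem_of_mem_erase hd.1, hd.2⟩
      have h1 := Finset.card_le_card hsub
      rw [Finset.card_insert_of_notMem] at h1
      · have hx0' : p - j ≤ ((D.erase d0).filter (fun d => x0 * (u1 ⬝ᵥ d) + u2 ⬝ᵥ d = 0)).card := by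
          convert hx0
        omega
      · intro h2
        rw [Finset.mem_filter] at h2
        exact Finset.notMem_erase _ _ h2.1
    obtain ⟨u'', hfree2⟩ := exists_free hDp hD0 husne
    have h1 := pencil_noninj hD hA hnp h hh hp hfree2
    have h2 := sum_kill hfree2
    rw [Fintype.sum_option] at h2
    have h3 : (Finset.univ.filter (fun x : Option (ZMod p) => (kill D (mem us u'' x)).Nonempty)).card
        ≤ 1 + (Finset.univ.filter (fun x : ZMod p => (kill D (mem us u'' (some x))).Nonempty)).card := by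
      have hsub : Finset.univ.filter (fun x : Option (ZMod p) => (kill D (mem us u'' x)).Nonempty) ⊆
          insert none ((Finset.univ.filter
            (fun x : ZMod p => (kill D (mem us u'' (some x))).Nonempty)).image some) := by
        intro y hy
        rw [Finset.mem_filter] at hy
        rcases y with _ | y
        · exact Finset.mem_insert_self _ _
        · apply Finset.mem_insert_of_mem
          apply Finset.mem_image_of_mem
          rw [Finset.mem_filter]
          exact ⟨Finset.mem_univ _, hy.2⟩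
      have h4 := Finset.card_le_card hsub
      have h5 := Finset.card_insert_le none ((Finset.univ.filter
            (fun x : ZMod p => (kill D (mem us u'' (some x))).Nonempty)).image some)
      have h6 := Finset.card_image_le (s := (Finset.univ.filter
            (fun x : ZMod p => (kill D (mem us u'' (some x))).Nonempty))) (f := (some : ZMod p → Option (ZMod p)))
      omega
    have h4 : (Finset.univ.filter (fun x : ZMod p => (kill D (mem us u'' (some x))).Nonempty)).card ≤
        ∑ x : ZMod p, (kill D (mem us u'' (some x))).card := by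
      rw [Finset.card_filter]
      apply Finset.sum_le_sum
      intro y _
      split_ifs with hy
      · exact Finset.card_pos.mpr hy
      · exact Nat.zero_le _
    have h5 : (kill D (mem us u'' none)).card = (kill D us).card := rfl
    rw [h5] at h2
    omega

end H758R3.Dir
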