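import Mathlib

set_option autoImplicit false

open Finset

namespace H758R3.Dir

/-- Rado / Edmonds covering theorem for a monotone submodular function with `r ∅ = 0`. -/
theorem rado {E : Type*} [DecidableEq E] (r : Finset E → ℕ) (hr0 : r ∅ = 0)
    (hmono : ∀ I J : Finset E, I ⊆ J → r I ≤ r J)
    (hsub : ∀ I J : Finset E, r (I ∪ J) + r (I ∩ J) ≤ r I + r J)
    (K : ℕ) (S : Finset E) :
    ∀ (m : ℕ) (L : E → Finset (Fin K)), ∑ e ∈ S, (L e).card = m →
      (∀ J ⊆ S, J.card ≤ ∑ κ : Fin K, r (J.filter (fun e => κ ∈ L e))) →
      ∃ c : E → Finset (Fin K), (∀ e ∈ S, (c e).card = 1) ∧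
        ∀ κ : Fin K, (S.filter (fun e => κ ∈ c e)).card ≤ r (S.filter (fun e => κ ∈ c e)) := by
  intro m
  induction m with
  | zero =>
    intro L hL hcond
    have hS : S = ∅ := by
      by_contra hne
      obtain ⟨e, he⟩ := Finset.nonempty_iff_ne_empty.mpr hne
      have h1 := hcond {e} (by simpa using he)
      have h2 : (L e).card = 0 := (Finset.sum_eq_zero_iff.mp hL) e he
      rw [Finset.card_eq_zero] at h2
      have h3 : ∑ κ : Fin K, r (({e} : Finset E).filter (fun x => κ ∈ L x)) = 0 := by
        apply Finset.sum_eq_zero
        intro κ _
        have : ({e} : Finset E).filter (fun x => κ ∈ L x) = ∅ := by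
          apply Finset.filter_eq_empty_iff.mpr
          intro x hx
          rw [Finset.mem_singleton.mp hx, h2]; simp
        rw [this, hr0]
      rw [h3] at h1
      simp at h1
    subst hS
    exact ⟨L, by simp, by simp⟩
  | succ m ih =>
    intro L hL hcond
    by_cases hall : ∀ e ∈ S, (L e).card = 1
    · refine ⟨L, hall, ?_⟩
      intro κ
      have h1 := hcond (S.filter (fun e => κ ∈ L e)) (Finset.filter_subset _ _)
      refine h1.trans ?_
      rw [Finset.sum_eq_single κ]
      · rw [Finset.filter_filter]
        apply hmono
        intro x hx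
        rw [Finset.mem_filter] at hx ⊢
        exact ⟨hx.1, hx.2.1⟩
      · intro κ' _ hne
        have : (S.filter (fun e => κ ∈ L e)).filter (fun e => κ' ∈ L e) = ∅ := by
          apply Finset.filter_eq_empty_iff.mpr
          intro x hx hx'
          rw [Finset.mem_filter] at hx
          have hc := hall x hx.1
          rw [Finset.card_eq_one] at hc
          obtain ⟨y, hy⟩ := hc
          rw [hy, Finset.mem_singleton] at hx'
          have := hx.2
          rw [hy, Finset.mem_singleton] at this
          exact hne (hx'.trans this.symm)
        rw [this, hr0]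
      · intro hn; exact absurd (Finset.mem_univ κ) hn
    · push Not at hall
      obtain ⟨e0, he0, hc0⟩ := hall
      -- the list of e0 is nonempty
      have hne : (L e0).Nonempty := by
        by_contra hemp
        rw [Finset.not_nonempty_iff_eq_empty] at hemp
        have h1 := hcond {e0} (by simpa using he0)
        have h3 : ∑ κ : Fin K, r (({e0} : Finset E).filter (fun x => κ ∈ L x)) = 0 := by
          apply Finset.sum_eq_zero
          intro κ _
          have : ({e0} : Finset E).filter (fun x => κ ∈ L x) = ∅ := by
            apply Finset.filter_eq_empty_iff.mpr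
            intro x hx
            rw [Finset.mem_singleton.mp hx, hemp]; simp
          rw [this, hr0]
        rw [h3] at h1
        simp at h1
      have h2 : 1 < (L e0).card := by
        have := hne.card_pos
        omega
      obtain ⟨x, hx, y, hy, hxy⟩ := Finset.one_lt_card.mp h2
      -- two modified lists
      set L1 : E → Finset (Fin K) := Function.update L e0 ((L e0).erase x) with hL1
      set L2 : E → Finset (Fin K) := Function.update L e0 ((L e0).erase y) with hL2
      have hsum : ∀ (z : Fin K), z ∈ L e0 →
          ∑ e ∈ S, (Function.update L e0 ((L e0).erase z) e).card = m := by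
        intro z hz
        rw [← Finset.add_sum_erase S _ he0]
        rw [← Finset.add_sum_erase S _ he0] at hL
        rw [Function.update_self, Finset.card_erase_of_mem hz]
        have h3 : ∑ e ∈ S.erase e0, (Function.update L e0 ((L e0).erase z) e).card
            = ∑ e ∈ S.erase e0, (L e).card := by
          apply Finset.sum_congr rfl
          intro e he
          rw [Function.update_of_ne (Finset.ne_of_mem_erase he)]
        rw [h3]
        have := hne.card_pos
        omega
      by_cases hc1 : ∀ J ⊆ S, J.card ≤ ∑ κ : Fin K, r (J.filter (fun e => κ ∈ L1 e))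
      · exact ih L1 (hsum x hx) hc1
      by_cases hc2 : ∀ J ⊆ S, J.card ≤ ∑ κ : Fin K, r (J.filter (fun e => κ ∈ L2 e))
      · exact ih L2 (hsum y hy) hc2
      exfalso
      push Not at hc1 hc2
      obtain ⟨J1, hJ1, hJ1c⟩ := hc1
      obtain ⟨J2, hJ2, hJ2c⟩ := hc2
      have he1 : e0 ∈ J1 := by
        by_contra hn
        have : ∀ κ : Fin K, J1.filter (fun e => κ ∈ L1 e) = J1.filter (fun e => κ ∈ L e) := by
          intro κ
          apply Finset.filter_congr
          intro e he
          have : e ≠ e0 := fun h => hn (h ▸ he)
          rw [hL1, Function.update_of_ne this]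
        simp only [this] at hJ1c
        exact absurd (hcond J1 hJ1) (not_le.mpr hJ1c)
      have he2 : e0 ∈ J2 := by
        by_contra hn
        have : ∀ κ : Fin K, J2.filter (fun e => κ ∈ L2 e) = J2.filter (fun e => κ ∈ L e) := by
          intro κ
          apply Finset.filter_congr
          intro e he
          have : e ≠ e0 := fun h => hn (h ▸ he)
          rw [hL2, Function.update_of_ne this]
        simp only [this] at hJ2c
        exact absurd (hcond J2 hJ2) (not_le.mpr hJ2c)
      have hA := hcond (J1 ∪ J2) (Finset.union_subset hJ1 hJ2)
      have hB := hcond ((J1 ∩ J2).erase e0)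
        ((Finset.erase_subset _ _).trans (Finset.inter_subset_left.trans hJ1))
      have hkey : ∀ κ : Fin K, r ((J1 ∪ J2).filter (fun e => κ ∈ L e)) +
          r (((J1 ∩ J2).erase e0).filter (fun e => κ ∈ L e)) ≤
          r (J1.filter (fun e => κ ∈ L1 e)) + r (J2.filter (fun e => κ ∈ L2 e)) := by
        intro κ
        refine le_trans ?_ (hsub _ _)
        apply Nat.add_le_add
        · apply hmono
          intro e he
          rw [Finset.mem_filter, Finset.mem_union] at he
          rw [Finset.mem_union, Finset.mem_filter, Finset.mem_filter]
          by_cases hee : e = e0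
          · subst hee
            by_cases hκ : κ = x
            · right
              refine ⟨he2, ?_⟩
              rw [hL2, Function.update_self, Finset.mem_erase]
              exact ⟨by rw [hκ]; exact hxy, he.2⟩
            · left
              refine ⟨he1, ?_⟩
              rw [hL1, Function.update_self, Finset.mem_erase]
              exact ⟨hκ, he.2⟩
          · rw [hL1, hL2, Function.update_of_ne hee, Function.update_of_ne hee]
            rcases he.1 with h | h
            · exact Or.inl ⟨h, he.2⟩
            · exact Or.inr ⟨h, he.2⟩
        · apply hmono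
          intro e he
          rw [Finset.mem_filter, Finset.mem_erase, Finset.mem_inter] at he
          rw [Finset.mem_inter, Finset.mem_filter, Finset.mem_filter, hL1, hL2,
            Function.update_of_ne he.1.1, Function.update_of_ne he.1.1]
          exact ⟨⟨he.1.2.1, he.2⟩, ⟨he.1.2.2, he.2⟩⟩
      have hsumkey := Finset.sum_le_sum (fun κ (_ : κ ∈ (Finset.univ : Finset (Fin K))) => hkey κ)
      rw [Finset.sum_add_distrib, Finset.sum_add_distrib] at hsumkey
      have hcard : (J1 ∪ J2).card + ((J1 ∩ J2).erase e0).card + 1 = J1.card + J2.card := by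
        rw [Finset.card_erase_of_mem (Finset.mem_inter.mpr ⟨he1, he2⟩)]
        have h5 := Finset.card_union_add_card_inter J1 J2
        have h6 : 0 < (J1 ∩ J2).card := Finset.card_pos.mpr ⟨e0, Finset.mem_inter.mpr ⟨he1, he2⟩⟩
        omega
      omega

/-- Vector version: a family of vectors can be split into `K` independent classes. -/
theorem cover {F V E : Type*} [Field F] [AddCommGroup V] [Module F V] [FiniteDimensional F V]
    [DecidableEq E] (v : E → V) (K : ℕ) (S : Finset E)
    (h : ∀ J ⊆ S, J.card ≤ K * Module.finrank F (Submodule.span F (v '' (J : Set E)))) :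
    ∃ c : E → Finset (Fin K), (∀ e ∈ S, (c e).card = 1) ∧
      ∀ κ : Fin K, LinearIndependent F
        (fun e : (S.filter (fun e => κ ∈ c e)) => v e) := by
  classical
  set r : Finset E → ℕ := fun J => Module.finrank F (Submodule.span F (v '' (J : Set E))) with hr
  have hr0 : r ∅ = 0 := by simp [hr]
  have hmono : ∀ I J : Finset E, I ⊆ J → r I ≤ r J := by
    intro I J hIJ
    apply Submodule.finrank_mono
    apply Submodule.span_mono
    exact Set.image_mono (by exact_mod_cast hIJ)
  have hsub : ∀ I J : Finset E, r (I ∪ J) + r (I ∩ J) ≤ r I + r J := by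
    intro I J
    have h1 : Submodule.span F (v '' ((I ∪ J : Finset E) : Set E)) =
        Submodule.span F (v '' (I : Set E)) ⊔ Submodule.span F (v '' (J : Set E)) := by
      rw [Finset.coe_union, Set.image_union, Submodule.span_union]
    have h2 : Submodule.span F (v '' ((I ∩ J : Finset E) : Set E)) ≤
        Submodule.span F (v '' (I : Set E)) ⊓ Submodule.span F (v '' (J : Set E)) := by
      apply le_inf
      · apply Submodule.span_mono
        apply Set.image_mono
        exact_mod_cast Finset.inter_subset_left
      · apply Submodule.span_mono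
        apply Set.image_mono
        exact_mod_cast Finset.inter_subset_right
    have h3 := Submodule.finrank_sup_add_finrank_inf_eq (Submodule.span F (v '' (I : Set E)))
      (Submodule.span F (v '' (J : Set E)))
    have h4 := Submodule.finrank_mono h2
    simp only [hr]
    rw [h1]
    omega
  obtain ⟨c, hc1, hc2⟩ := rado r hr0 hmono hsub K S _ (fun _ => Finset.univ) rfl (by
    intro J hJ
    have := h J hJ
    simpa using this)
  refine ⟨c, hc1, fun κ => ?_⟩
  rw [linearIndependent_iff_card_le_finrank_span]
  have h1 := hc2 κ
  rw [Fintype.card_coe]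
  refine h1.trans (le_of_eq ?_)
  have h2 : v '' ((S.filter (fun e => κ ∈ c e) : Finset E) : Set E) =
      Set.range (fun e : (S.filter (fun e => κ ∈ c e)) => v e) := by
    ext x
    constructor
    · rintro ⟨e, he, rfl⟩
      exact ⟨⟨e, by exact_mod_cast he⟩, rfl⟩
    · rintro ⟨⟨e, he⟩, rfl⟩
      exact ⟨e, by exact_mod_cast he, rfl⟩
  show Module.finrank F (Submodule.span F (v '' _)) = Set.finrank F _
  rw [h2]
  rfl

end H758R3.Dir
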