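import Mathlib

set_option autoImplicit false

namespace Pool.Agent.H758R3.Levi

/-- The field with three elements. -/
abbrev F := ZMod 3

lemma unit_sq (e : Fˣ) : (e : F) * (e : F) = 1 := by
  revert e; decide

section
variable {U W : Type} [AddCommGroup U] [Module F U] [AddCommGroup W] [Module F W]

/-- The group `{±1} ⋉ (U × W)` where `U × W` is the class-2 group attached to the alternating
form `β` and `±1` acts by `(u, w) ↦ (± u, w)`. -/
@[ext] structure Hs (β : U →ₗ[F] U →ₗ[F] W) (h : ∀ u, β u u = 0) : Type where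
  e : Fˣ
  u : U
  w : W

variable {β : U →ₗ[F] U →ₗ[F] W} {h : ∀ u, β u u = 0}

namespace Hs

instance : Mul (Hs β h) :=
  ⟨fun x y => ⟨x.e * y.e, (y.e : F) • x.u + y.u, x.w + y.w + (y.e : F) • β x.u y.u⟩⟩
instance : One (Hs β h) := ⟨⟨1, 0, 0⟩⟩
instance : Inv (Hs β h) := ⟨fun x => ⟨x.e⁻¹, -((x.e⁻¹ : Fˣ) : F) • x.u, -x.w⟩⟩

@[simp] lemma mul_e (x y : Hs β h) : (x * y).e = x.e * y.e := rfl
@[simp] lemma mul_u (x y : Hs β h) : (x * y).u = (y.e : F) • x.u + y.u := rfl
@[simp] lemma mul_w (x y : Hs β h) : (x * y).w = x.w + y.w + (y.e : F) • β x.u y.u := rfl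
@[simp] lemma one_e : (1 : Hs β h).e = 1 := rfl
@[simp] lemma one_u : (1 : Hs β h).u = 0 := rfl
@[simp] lemma one_w : (1 : Hs β h).w = 0 := rfl
@[simp] lemma inv_e (x : Hs β h) : (x⁻¹).e = x.e⁻¹ := rfl
@[simp] lemma inv_u (x : Hs β h) : (x⁻¹).u = -((x.e⁻¹ : Fˣ) : F) • x.u := rfl
@[simp] lemma inv_w (x : Hs β h) : (x⁻¹).w = -x.w := rfl

instance : Group (Hs β h) := Group.ofLeftAxioms
  (by
    intro x y z
    ext
    · simp [mul_assoc]
    · simp only [mul_u, mul_e, Units.val_mul, smul_add, smul_smul]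
      rw [add_assoc, mul_comm (z.e : F) (y.e : F)]
    · simp only [mul_w, mul_u, mul_e, Units.val_mul, map_add, map_smul, LinearMap.add_apply,
        LinearMap.smul_apply, smul_add, smul_smul]
      have : (z.e : F) * (y.e : F) * (z.e : F) = (y.e : F) := by
        rw [mul_comm (z.e : F) (y.e : F), mul_assoc, unit_sq, mul_one]
      rw [mul_comm (y.e : F) (z.e : F)]
      rw [this]
      abel)
  (by
    intro x
    ext
    · simp
    · simp
    · simp)
  (by
    intro x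
    ext
    · simp
    · simp only [mul_u, inv_u, smul_smul, one_u]
      rw [mul_neg, Units.mul_inv, neg_smul, one_smul, neg_add_cancel]
    · simp only [mul_w, inv_w, inv_u, map_smul, LinearMap.smul_apply, h, smul_zero, one_w]
      simp)

/-- The subgroup of the elements whose `u`-component lies in `U₁`. -/
def T (U₁ : Submodule F U) : Subgroup (Hs β h) where
  carrier := {x | x.u ∈ U₁}
  mul_mem' := by
    intro x y hx hy
    exact U₁.add_mem (U₁.smul_mem _ hx) hy
  one_mem' := U₁.zero_mem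
  inv_mem' := by
    intro x hx
    exact U₁.smul_mem _ hx

lemma mem_T {U₁ : Submodule F U} {x : Hs β h} : x ∈ T U₁ ↔ x.u ∈ U₁ := Iff.rfl

variable {U' W' : Type} [AddCommGroup U'] [Module F U'] [AddCommGroup W'] [Module F W']
variable {β' : U' →ₗ[F] U' →ₗ[F] W'} {h' : ∀ u, β' u u = 0}

/-- The homomorphism induced by compatible linear maps. -/
def hom (U₁ : Submodule F U) (φ : U →ₗ[F] U') (μ : W →ₗ[F] W')
    (hc : ∀ a ∈ U₁, ∀ b ∈ U₁, μ (β a b) = β' (φ a) (φ b)) :
    (T U₁ : Subgroup (Hs β h)) →* Hs β' h' where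
  toFun x := ⟨x.1.e, φ x.1.u, μ x.1.w⟩
  map_one' := by
    ext <;> simp
  map_mul' x y := by
    ext
    · simp
    · simp
    · simp [hc x.1.u x.2 y.1.u y.2]

@[simp] lemma hom_e (U₁ : Submodule F U) (φ : U →ₗ[F] U') (μ : W →ₗ[F] W')
    (hc : ∀ a ∈ U₁, ∀ b ∈ U₁, μ (β a b) = β' (φ a) (φ b)) (x : (T U₁ : Subgroup (Hs β h))) :
    (hom (h' := h') U₁ φ μ hc x).e = x.1.e := rfl
@[simp] lemma hom_u (U₁ : Submodule F U) (φ : U →ₗ[F] U') (μ : W →ₗ[F] W')
    (hc : ∀ a ∈ U₁, ∀ b ∈ U₁, μ (β a b) = β' (φ a) (φ b)) (x : (T U₁ : Subgroup (Hs β h))) :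
    (hom (h' := h') U₁ φ μ hc x).u = φ x.1.u := rfl
@[simp] lemma hom_w (U₁ : Submodule F U) (φ : U →ₗ[F] U') (μ : W →ₗ[F] W')
    (hc : ∀ a ∈ U₁, ∀ b ∈ U₁, μ (β a b) = β' (φ a) (φ b)) (x : (T U₁ : Subgroup (Hs β h))) :
    (hom (h' := h') U₁ φ μ hc x).w = μ x.1.w := rfl

end Hs
end

/-- The determinant form on `F × F`. -/
def det : (F × F) →ₗ[F] (F × F) →ₗ[F] F :=
  LinearMap.mk₂ F (fun a b => a.1 * b.2 - a.2 * b.1)
    (by intro a a' b; simp; ring) (by intro c a b; simp; ring)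
    (by intro a b b'; simp; ring) (by intro c a b; simp; ring)

@[simp] lemma det_apply (a b : F × F) : det a b = a.1 * b.2 - a.2 * b.1 := rfl

lemma det_self (a : F × F) : det a a = 0 := by simp; ring

/-- The finite group of order 54. -/
abbrev H0 : Type := Hs det det_self

instance : Finite H0 := by
  apply Finite.of_injective (fun x : H0 => ((x.e, x.u, x.w) : Fˣ × (F × F) × F))
  intro x y hxy
  simp only [Prod.mk.injEq] at hxy
  ext
  · exact congrArg _ hxy.1
  · exact congrArg _ hxy.2.1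
  · exact congrArg _ hxy.2.1
  · exact hxy.2.2

end Pool.Agent.H758R3.Levi
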