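import Pool.Agent.H758R3.Levi1

set_option autoImplicit false

namespace Pool.Agent.H758R3.Levi

open Finset

abbrev U0 : Type := (ℕ → F) × F
abbrev W0 : Type := (ℕ → ℕ → F) × F

/-- The pairs of indices whose commutator survives. -/
def far (n i k : ℕ) : Prop := i + 1 < k ∧ ¬ (i = 0 ∧ k = n)

instance (n i k : ℕ) : Decidable (far n i k) := by unfold far; infer_instance

/-- The full form. -/
def bh (n : ℕ) : U0 →ₗ[F] U0 →ₗ[F] W0 :=
  LinearMap.mk₂ F (fun a b => (fun i k => a.1 i * b.1 k - a.1 k * b.1 i,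
      (a.1 0 * b.1 n - a.1 n * b.1 0) + ∑ i ∈ range (n + 1), (a.1 i * b.2 - a.2 * b.1 i)))
    (by
      intro a a' b
      ext i k
      · simp; ring
      · simp only [Prod.fst_add, Prod.snd_add, Pi.add_apply, Prod.mk_add_mk]
        rw [show (∑ i ∈ range (n + 1), ((a.1 i + a'.1 i) * b.2 - (a.2 + a'.2) * b.1 i)) =
          (∑ i ∈ range (n + 1), (a.1 i * b.2 - a.2 * b.1 i)) +
          ∑ i ∈ range (n + 1), (a'.1 i * b.2 - a'.2 * b.1 i) by
            rw [← Finset.sum_add_distrib]; exact Finset.sum_congr rfl (fun i _ => by ring)]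
        ring)
    (by
      intro c a b
      ext i k
      · simp; ring
      · simp only [Prod.smul_fst, Prod.smul_snd, Pi.smul_apply, smul_eq_mul, mul_add,
          Finset.mul_sum]
        congr 1
        · ring
        · exact Finset.sum_congr rfl (fun i _ => by ring))
    (by
      intro a b b'
      ext i k
      · simp; ring
      · simp only [Prod.fst_add, Prod.snd_add, Pi.add_apply, Prod.mk_add_mk]
        rw [show (∑ i ∈ range (n + 1), (a.1 i * (b.2 + b'.2) - a.2 * (b.1 i + b'.1 i))) =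
          (∑ i ∈ range (n + 1), (a.1 i * b.2 - a.2 * b.1 i)) +
          ∑ i ∈ range (n + 1), (a.1 i * b'.2 - a.2 * b'.1 i) by
            rw [← Finset.sum_add_distrib]; exact Finset.sum_congr rfl (fun i _ => by ring)]
        ring)
    (by
      intro c a b
      ext i k
      · simp; ring
      · simp only [Prod.smul_fst, Prod.smul_snd, Pi.smul_apply, smul_eq_mul, mul_add,
          Finset.mul_sum]
        congr 1
        · ring
        · exact Finset.sum_congr rfl (fun i _ => by ring))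

lemma bh_fst (n : ℕ) (a b : U0) (i k : ℕ) :
    (bh n a b).1 i k = a.1 i * b.1 k - a.1 k * b.1 i := rfl

lemma bh_snd (n : ℕ) (a b : U0) : (bh n a b).2 =
    (a.1 0 * b.1 n - a.1 n * b.1 0) + ∑ i ∈ range (n + 1), (a.1 i * b.2 - a.2 * b.1 i) := rfl

/-- Forget the commutators which are killed. -/
def pr (n : ℕ) : W0 →ₗ[F] W0 where
  toFun r := (fun i k => if far n i k then r.1 i k else 0, r.2)
  map_add' r s := by
    ext i k
    · by_cases hf : far n i k <;> simp [hf]
    · simp
  map_smul' c r := by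
    ext i k
    · by_cases hf : far n i k <;> simp [hf]
    · simp

lemma pr_fst (n : ℕ) (r : W0) (i k : ℕ) : (pr n r).1 i k = if far n i k then r.1 i k else 0 := rfl
lemma pr_snd (n : ℕ) (r : W0) : (pr n r).2 = r.2 := rfl

/-- The form defining the group. -/
def be (n : ℕ) : U0 →ₗ[F] U0 →ₗ[F] W0 := (bh n).compr₂ (pr n)

lemma be_apply (n : ℕ) (a b : U0) : be n a b = pr n (bh n a b) := rfl

lemma be_self (n : ℕ) (a : U0) : be n a a = 0 := by
  rw [be_apply]
  ext i k
  · rw [pr_fst, bh_fst]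
    have : a.1 i * a.1 k - a.1 k * a.1 i = 0 := by ring
    simp [this]
  · rw [pr_snd, bh_snd]
    have h1 : a.1 0 * a.1 n - a.1 n * a.1 0 = 0 := by ring
    rw [h1, zero_add, Prod.snd_zero]
    exact Finset.sum_eq_zero (fun i _ => by ring)

/-- The group of the counterexample. -/
abbrev Gn (n : ℕ) : Type := Hs (be n) (be_self n)

/-- The span of the values of the full form on `U₁`. -/
def S (n : ℕ) (U₁ : Submodule F U0) : Submodule F W0 :=
  Submodule.span F {r | ∃ a ∈ U₁, ∃ b ∈ U₁, r = bh n a b}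

lemma S_row {n : ℕ} {U₁ : Submodule F U0} {r : W0} (hr : r ∈ S n U₁) (i : ℕ) :
    ∃ q ∈ U₁, ∀ k, q.1 k = r.1 i k := by
  induction hr using Submodule.span_induction with
  | mem r hr =>
    obtain ⟨a, ha, b, hb, rfl⟩ := hr
    refine ⟨a.1 i • b - b.1 i • a, U₁.sub_mem (U₁.smul_mem _ hb) (U₁.smul_mem _ ha), fun k => ?_⟩
    rw [bh_fst]
    simp
    ring
  | zero => exact ⟨0, U₁.zero_mem, fun k => rfl⟩
  | add r s _ _ h1 h2 =>
    obtain ⟨p, hp, hp'⟩ := h1
    obtain ⟨q, hq, hq'⟩ := h2
    exact ⟨p + q, U₁.add_mem hp hq, fun k => by simp [hp', hq']⟩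
  | smul c r _ h1 =>
    obtain ⟨p, hp, hp'⟩ := h1
    exact ⟨c • p, U₁.smul_mem _ hp, fun k => by simp [hp']⟩

lemma S_anti {n : ℕ} {U₁ : Submodule F U0} {r : W0} (hr : r ∈ S n U₁) (i k : ℕ) :
    r.1 i k = - r.1 k i := by
  induction hr using Submodule.span_induction with
  | mem r hr =>
    obtain ⟨a, ha, b, hb, rfl⟩ := hr
    rw [bh_fst, bh_fst]
    ring
  | zero => simp
  | add r s _ _ h1 h2 =>
    simp only [Prod.fst_add, Pi.add_apply, h1, h2]
    ring
  | smul c r _ h1 =>
    simp only [Prod.smul_fst, Pi.smul_apply, h1, smul_eq_mul]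
    ring

/-- The combinatorial key lemma: for a subspace of small dimension some near pair does not
interact. -/
lemma key {n N : ℕ} (hn : 3 * N + 3 ≤ n) (U₁ : Submodule F U0) [Module.Finite F U₁]
    (hU : Module.finrank F U₁ ≤ N) :
    ∃ j, 1 ≤ j ∧ j + 1 < n ∧ ∀ r ∈ S n U₁, (∀ i k, far n i k → r.1 i k = 0) →
      r.1 j (j + 1) = 0 := by
  by_contra hcon
  push Not at hcon
  have h1 : ∀ m : Fin (N + 1), ∃ q ∈ U₁, q.1 (3 * m + 2) ≠ 0 ∧
      ∀ m' : Fin (N + 1), m' ≠ m → q.1 (3 * m' + 2) = 0 := by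
    intro m
    have hm := m.2
    obtain ⟨r, hr, hfar, hne⟩ := hcon (3 * m + 1) (by omega) (by omega)
    obtain ⟨q, hq, hq'⟩ := S_row hr (3 * m + 1)
    refine ⟨q, hq, ?_, ?_⟩
    · rw [hq']; exact hne
    · intro m' hm'
      have hm2 := m'.2
      rw [hq']
      have hne' : (m' : ℕ) ≠ m := fun h => hm' (Fin.ext h)
      rcases lt_or_gt_of_ne hne' with h | h
      · rw [S_anti hr, hfar _ _ ⟨by omega, by omega⟩, neg_zero]
      · exact hfar _ _ ⟨by omega, by omega⟩
  choose q hq hq1 hq2 using h1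
  have hli : LinearIndependent F (fun m => (⟨q m, hq m⟩ : U₁)) := by
    rw [Fintype.linearIndependent_iff]
    intro g hg m
    have h2 := congrArg (fun v : U₁ => v.1.1 (3 * m + 2)) hg
    simp only [Submodule.coe_sum, Submodule.coe_smul, ZeroMemClass.coe_zero, Prod.fst_zero,
      Pi.zero_apply, Prod.fst_sum, Finset.sum_apply, Prod.smul_fst, Pi.smul_apply,
      smul_eq_mul] at h2
    rw [Finset.sum_eq_single m] at h2
    · exact (mul_eq_zero.mp h2).resolve_right (hq1 m)
    · intro b _ hb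
      rw [hq2 b m (Ne.symm hb), mul_zero]
    · intro h; exact absurd (Finset.mem_univ m) h
  have := hli.fintype_card_le_finrank
  rw [Fintype.card_fin] at this
  omega

end Pool.Agent.H758R3.Levi
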