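import Pool.Agent.H758R3.Levi2

set_option autoImplicit false

namespace Pool.Agent.H758R3.Levi

open Finset

/-- The linear map `u_i ↦ (1,0)` for `i ≤ j`, `u_i ↦ (0,1)` for `j < i ≤ n`, `v ↦ (-1,1)`. -/
def ph (n j : ℕ) : U0 →ₗ[F] F × F where
  toFun a := (∑ i ∈ Icc 0 j, a.1 i - a.2, ∑ i ∈ Ioc j n, a.1 i + a.2)
  map_add' a b := by
    ext
    · simp only [Prod.fst_add, Prod.snd_add, Pi.add_apply, Finset.sum_add_distrib]; ring
    · simp only [Prod.fst_add, Prod.snd_add, Pi.add_apply, Finset.sum_add_distrib]; ring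
  map_smul' c a := by
    ext
    · simp only [Prod.smul_fst, Prod.smul_snd, Pi.smul_apply, smul_eq_mul, ← Finset.mul_sum,
        RingHom.id_apply, mul_sub]
    · simp only [Prod.smul_fst, Prod.smul_snd, Pi.smul_apply, smul_eq_mul, ← Finset.mul_sum,
        RingHom.id_apply, mul_add]

/-- The functional with `om (bh a b) = det (ph a) (ph b)`. -/
def om (n j : ℕ) : W0 →ₗ[F] F where
  toFun r := r.2 + ∑ i ∈ Icc 0 j, ∑ k ∈ Ioc j n, if i = 0 ∧ k = n then 0 else r.1 i k
  map_add' r s := by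
    have : ∀ i k, (if i = 0 ∧ k = n then (0 : F) else (r + s).1 i k) =
        (if i = 0 ∧ k = n then (0 : F) else r.1 i k) +
        (if i = 0 ∧ k = n then (0 : F) else s.1 i k) := by
      intro i k
      split_ifs <;> simp
    simp only [this, Finset.sum_add_distrib, Prod.snd_add]
    ring
  map_smul' c r := by
    have : ∀ i k, (if i = 0 ∧ k = n then (0 : F) else (c • r).1 i k) =
        c * (if i = 0 ∧ k = n then (0 : F) else r.1 i k) := by
      intro i k
      split_ifs <;> simp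
    simp only [this, ← Finset.mul_sum, Prod.smul_snd, smul_eq_mul, RingHom.id_apply, mul_add]

lemma om_bh {n j : ℕ} (hj : j < n) (a b : U0) : om n j (bh n a b) = det (ph n j a) (ph n j b) := by
  change (bh n a b).2 + ∑ i ∈ Icc 0 j, ∑ k ∈ Ioc j n,
    (if i = 0 ∧ k = n then 0 else (bh n a b).1 i k) =
    (∑ i ∈ Icc 0 j, a.1 i - a.2) * (∑ i ∈ Ioc j n, b.1 i + b.2) -
    (∑ i ∈ Ioc j n, a.1 i + a.2) * (∑ i ∈ Icc 0 j, b.1 i - b.2)
  have h1 : ∑ i ∈ Icc 0 j, ∑ k ∈ Ioc j n, (if i = 0 ∧ k = n then 0 else (bh n a b).1 i k) =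
      (∑ i ∈ Icc 0 j, ∑ k ∈ Ioc j n, (bh n a b).1 i k) - (bh n a b).1 0 n := by
    have h2 : ∀ i k, (if i = 0 ∧ k = n then 0 else (bh n a b).1 i k) =
        (bh n a b).1 i k - (if i = 0 then (if k = n then (bh n a b).1 0 n else 0) else 0) := by
      intro i k
      by_cases hi : i = 0 <;> by_cases hk : k = n <;> simp [hi, hk]
    simp only [h2, Finset.sum_sub_distrib]
    congr 1
    rw [Finset.sum_eq_single 0]
    · simp only [if_true]
      rw [Finset.sum_ite_eq' (Ioc j n) n]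
      rw [if_pos (Finset.mem_Ioc.mpr ⟨hj, le_rfl⟩)]
    · intro i _ hi
      simp [hi]
    · intro h0
      exact absurd (Finset.mem_Icc.mpr ⟨le_rfl, Nat.zero_le _⟩) h0
  have h3 : (∑ i ∈ Icc 0 j, ∑ k ∈ Ioc j n, (bh n a b).1 i k) =
      (∑ i ∈ Icc 0 j, a.1 i) * (∑ k ∈ Ioc j n, b.1 k) -
      (∑ k ∈ Ioc j n, a.1 k) * (∑ i ∈ Icc 0 j, b.1 i) := by
    simp only [bh_fst, Finset.sum_sub_distrib]
    rw [Finset.sum_mul_sum, mul_comm (∑ k ∈ Ioc j n, a.1 k), Finset.sum_mul_sum]
    congr 1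
    exact Finset.sum_congr rfl (fun i _ => Finset.sum_congr rfl (fun k _ => mul_comm _ _))
  have h4 : ∑ i ∈ range (n + 1), (a.1 i * b.2 - a.2 * b.1 i) =
      (∑ i ∈ Icc 0 j, a.1 i + ∑ i ∈ Ioc j n, a.1 i) * b.2 -
      a.2 * (∑ i ∈ Icc 0 j, b.1 i + ∑ i ∈ Ioc j n, b.1 i) := by
    have hs : ∀ g : ℕ → F, ∑ i ∈ range (n + 1), g i = ∑ i ∈ Icc 0 j, g i + ∑ i ∈ Ioc j n, g i := by
      intro g
      rw [← Finset.sum_union]
      · apply Finset.sum_congr _ (fun _ _ => rfl)
        ext i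
        simp only [mem_range, mem_union, mem_Icc, mem_Ioc]
        omega
      · rw [Finset.disjoint_left]
        intro i hi hi'
        simp only [mem_Icc, mem_Ioc] at hi hi'
        omega
    rw [Finset.sum_sub_distrib, ← Finset.sum_mul, ← Finset.mul_sum, hs, hs]
  rw [h1, h3, bh_snd, h4, bh_fst]
  ring

/-- The homomorphisms which separate the points of a subgroup of small rank. -/
theorem separate {n N : ℕ} (hn : 3 * N + 3 ≤ n) (U₁ : Submodule F U0) [Module.Finite F U₁]
    (hU : Module.finrank F U₁ ≤ N) (y : (Hs.T U₁ : Subgroup (Gn n))) (hy : y ≠ 1) :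
    ∃ ψ : (Hs.T U₁ : Subgroup (Gn n)) →* H0, ψ y ≠ 1 := by
  by_cases he : y.1.e = 1
  swap
  · refine ⟨Hs.hom (β' := det) (h' := det_self) U₁ 0 0 (fun a _ b _ => by simp), fun hc => he ?_⟩
    have := congrArg Hs.e hc
    simpa using this
  by_cases hu : y.1.u = 0
  swap
  · have h1 : ∃ lam : Module.Dual F U0, lam y.1.u ≠ 0 := by
      by_contra hcon
      push Not at hcon
      exact hu ((Module.forall_dual_apply_eq_zero_iff F _).mp hcon)
    obtain ⟨lam, hl⟩ := h1
    refine ⟨Hs.hom (β' := det) (h' := det_self) U₁ (lam.prod 0) 0 (fun a _ b _ => by simp),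
      fun hc => hl ?_⟩
    have := congrArg (fun x : H0 => x.u.1) hc
    simpa using this
  have hw : y.1.w ≠ 0 := by
    intro hw
    apply hy
    apply Subtype.ext
    exact Hs.ext he hu hw
  by_cases hS : y.1.w ∈ (S n U₁).map (pr n)
  swap
  · obtain ⟨f, hf, hf'⟩ := Submodule.exists_le_ker_of_notMem hS
    refine ⟨Hs.hom (β' := det) (h' := det_self) U₁ 0 f (fun a ha b hb => ?_), fun hc => hf ?_⟩
    · have : be n a b ∈ (S n U₁).map (pr n) :=
        Submodule.mem_map_of_mem (Submodule.subset_span ⟨a, ha, b, hb, rfl⟩)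
      have h2 := hf' this
      rw [LinearMap.mem_ker] at h2
      rw [h2]; simp
    · have := congrArg Hs.w hc
      simpa using this
  obtain ⟨r, hr, hrw⟩ := hS
  by_cases hfar : ∀ i k, far n i k → r.1 i k = 0
  swap
  · push Not at hfar
    obtain ⟨i, k, hik, hne⟩ := hfar
    refine ⟨Hs.hom (β' := det) (h' := det_self) U₁
      ((LinearMap.proj i ∘ₗ LinearMap.fst F _ _).prod (LinearMap.proj k ∘ₗ LinearMap.fst F _ _))
      (LinearMap.proj k ∘ₗ LinearMap.proj i ∘ₗ LinearMap.fst F _ _)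
      (fun a _ b _ => ?_), fun hc => hne ?_⟩
    · simp only [LinearMap.comp_apply, LinearMap.fst_apply, LinearMap.proj_apply,
        LinearMap.prod_apply, Function.prod_apply, det_apply]
      rw [be_apply, pr_fst, if_pos hik, bh_fst]
    · have := congrArg Hs.w hc
      simp only [Hs.hom_w, LinearMap.comp_apply, LinearMap.fst_apply, LinearMap.proj_apply,
        Hs.one_w] at this
      rw [← hrw, pr_fst, if_pos hik] at this
      exact this
  obtain ⟨j, hj1, hj2, hj⟩ := key hn U₁ hU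
  have hom0 : ∀ s ∈ S n U₁, (∀ i k, far n i k → s.1 i k = 0) → om n j s = s.2 := by
    intro s hs hsfar
    change s.2 + ∑ i ∈ Icc 0 j, ∑ k ∈ Ioc j n, (if i = 0 ∧ k = n then 0 else s.1 i k) = s.2
    rw [add_eq_left]
    apply Finset.sum_eq_zero
    intro i hi
    apply Finset.sum_eq_zero
    intro k hk
    rw [mem_Icc] at hi
    rw [mem_Ioc] at hk
    by_cases h0 : i = 0 ∧ k = n
    · rw [if_pos h0]
    · rw [if_neg h0]
      by_cases h1 : i + 1 < k
      · exact hsfar _ _ ⟨h1, h0⟩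
      · have hi' : i = j := by omega
        have hk' : k = j + 1 := by omega
        rw [hi', hk']
        exact hj s hs hsfar
  -- the functional on `W0`
  obtain ⟨μ, hμ⟩ : ∃ μ : W0 →ₗ[F] F, ∀ s ∈ S n U₁, μ (pr n s) = om n j s := by
    let g : S n U₁ →ₗ[F] W0 := (pr n) ∘ₗ (S n U₁).subtype
    let l : Module.Dual F (S n U₁) := (om n j) ∘ₗ (S n U₁).subtype
    have h1 : l ∈ (LinearMap.ker g).dualAnnihilator := by
      rw [Submodule.mem_dualAnnihilator]
      intro s hs
      rw [LinearMap.mem_ker] at hs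
      have hs1 : ∀ i k, far n i k → s.1.1 i k = 0 := by
        intro i k hik
        have := congrArg (fun x : W0 => x.1 i k) hs
        simp only [g, LinearMap.comp_apply, Submodule.subtype_apply, Prod.fst_zero,
          Pi.zero_apply] at this
        rw [pr_fst, if_pos hik] at this
        exact this
      have hs2 : s.1.2 = 0 := by
        have := congrArg (fun x : W0 => x.2) hs
        simpa only [g, LinearMap.comp_apply, Submodule.subtype_apply, pr_snd,
          Prod.snd_zero] using this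
      change om n j s.1 = 0
      rw [hom0 s.1 s.2 hs1, hs2]
    rw [← LinearMap.range_dualMap_eq_dualAnnihilator_ker] at h1
    obtain ⟨μ, hμ⟩ := h1
    refine ⟨μ, fun s hs => ?_⟩
    exact congrArg (fun x : Module.Dual F (S n U₁) => x ⟨s, hs⟩) hμ
  refine ⟨Hs.hom (β' := det) (h' := det_self) U₁ (ph n j) μ (fun a ha b hb => ?_),
    fun hc => hw ?_⟩
  · rw [be_apply, hμ _ (Submodule.subset_span ⟨a, ha, b, hb, rfl⟩), om_bh (by omega)]
  · have := congrArg Hs.w hc
    simp only [Hs.hom_w, Hs.one_w] at this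
    rw [← hrw, hμ r hr, hom0 r hr hfar] at this
    rw [← hrw]
    ext i k
    · rw [pr_fst]
      by_cases hf : far n i k
      · rw [if_pos hf, hfar i k hf]; rfl
      · rw [if_neg hf]; rfl
    · rw [pr_snd, this]; rfl

end Pool.Agent.H758R3.Levi
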