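import Pool.Agent.H758R3.Levi3

set_option autoImplicit false

namespace Pool.Agent.H758R3.Levi

open Finset

lemma unit_cube (e : Fˣ) (h : e * e * e = 1) : e = 1 := by
  revert e; decide

lemma three_zero {U : Type} [AddCommGroup U] [Module F U] (u : U) : u + u + u = 0 := by
  have : ((1 + 1 + 1 : F)) • u = 0 := by
    rw [show (1 + 1 + 1 : F) = 0 by decide, zero_smul]
  simpa [add_smul] using this

section
variable {U W : Type} [AddCommGroup U] [Module F U] [AddCommGroup W] [Module F W]
variable {β : U →ₗ[F] U →ₗ[F] W} {h : ∀ u, β u u = 0}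

lemma beta_anti (h : ∀ u, β u u = 0) (u v : U) : β u v = - β v u := by
  have h1 := h (u + v)
  simp only [map_add, LinearMap.add_apply, h, zero_add, add_zero] at h1
  exact eq_neg_of_add_eq_zero_right h1

/-- commutators of elements with trivial sign -/
lemma comm_eq {x y : Hs β h} (hx : x.e = 1) (hy : y.e = 1) :
    x * y * x⁻¹ * y⁻¹ = ⟨1, 0, - β x.u y.u⟩ := by
  ext
  · simp
  · simp [hx, hy]
  · simp only [Hs.mul_w, Hs.mul_u, Hs.inv_w, Hs.inv_u, Hs.inv_e, hx, hy, inv_one, Units.val_one,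
      one_smul, neg_smul, map_neg, map_add, LinearMap.add_apply, LinearMap.neg_apply, h]
    rw [beta_anti h y.u x.u]
    have := three_zero (β x.u y.u)
    have h3 : β x.u y.u + β x.u y.u = - β x.u y.u := eq_neg_of_add_eq_zero_left this
    calc _ = β x.u y.u + β x.u y.u := by simp; abel
      _ = _ := h3

lemma cube_eq (u : U) : (⟨1, u, 0⟩ * ⟨1, u, 0⟩ * ⟨1, u, 0⟩ : Hs β h) = 1 := by
  ext
  · simp
  · simp [three_zero]
  · simp [h]

lemma mem_closure (u : U) :
    (⟨1, u, 0⟩ : Hs β h) ∈ Subgroup.normalClosure ({⟨-1, 0, 0⟩} : Set (Hs β h)) := by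
  have ha : (⟨-1, 0, 0⟩ : Hs β h) ∈ Subgroup.normalClosure ({⟨-1, 0, 0⟩} : Set (Hs β h)) :=
    Subgroup.subset_normalClosure rfl
  have h1 := Subgroup.normalClosure_normal.conj_mem _ ha (⟨1, u, 0⟩ : Hs β h)
  have h2 := Subgroup.mul_mem _ (Subgroup.inv_mem _ ha) h1
  convert h2 using 1
  ext
  · simp
  · simp only [Hs.mul_u, Hs.inv_u, Hs.inv_e, Hs.mul_e, inv_one, Units.val_one, one_smul,
      neg_smul, mul_one, one_mul, Units.val_neg, smul_zero, zero_add, add_zero]
    have := three_zero u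
    have h3 : u = - u + - u := by
      have : u + (u + u) = 0 := by rw [← add_assoc]; exact this
      rw [← neg_add]
      exact eq_neg_of_add_eq_zero_left this
    exact h3
  · simp [h]

end

lemma det_cancel (p q v : F × F) (c : F) (hc : c ≠ 0) (h1 : det p v = c) (h2 : det q v = c)
    (h3 : det p q = 0) : p = q := by
  simp only [det_apply] at h1 h2 h3
  ext
  · have : c * (p.1 - q.1) = 0 := by
      have : c * p.1 - c * q.1 = 0 := by
        calc c * p.1 - c * q.1 = (q.1 * v.2 - q.2 * v.1) * p.1 - (p.1 * v.2 - p.2 * v.1) * q.1 := by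
              rw [h1, h2]
          _ = - (p.1 * q.2 - p.2 * q.1) * v.1 := by ring
          _ = 0 := by rw [h3]; ring
      rw [mul_sub]; exact this
    exact sub_eq_zero.mp ((mul_eq_zero.mp this).resolve_left hc)
  · have : c * (p.2 - q.2) = 0 := by
      have : c * p.2 - c * q.2 = 0 := by
        calc c * p.2 - c * q.2 = (q.1 * v.2 - q.2 * v.1) * p.2 - (p.1 * v.2 - p.2 * v.1) * q.2 := by
              rw [h1, h2]
          _ = - (p.1 * q.2 - p.2 * q.1) * v.2 := by ring
          _ = 0 := by rw [h3]; ring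
      rw [mul_sub]; exact this
    exact sub_eq_zero.mp ((mul_eq_zero.mp this).resolve_left hc)

/-- the basis vectors -/
def ev (i : ℕ) : U0 := (Pi.single i 1, 0)
def vv : U0 := (0, 1)
def c0 : W0 := (0, 1)

lemma be_adj {n i : ℕ} (hn : 2 ≤ n) : be n (ev i) (ev (i + 1)) = 0 := by
  rw [be_apply]
  ext p q
  · rw [pr_fst]
    by_cases hf : far n p q
    · rw [if_pos hf, bh_fst]
      have hpq := hf.1
      simp only [ev, Pi.single_apply]
      split_ifs <;> first | (exfalso; omega) | simp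
    · rw [if_neg hf]; rfl
  · rw [pr_snd, bh_snd]
    simp only [ev, Pi.single_apply, mul_zero, zero_mul, sub_zero, Finset.sum_const_zero, add_zero,
      Prod.snd_zero]
    split_ifs <;> first | (exfalso; omega) | simp

lemma be_v {n i : ℕ} (hi : i ≤ n) : be n (ev i) vv = c0 := by
  rw [be_apply]
  ext p q
  · rw [pr_fst]
    by_cases hf : far n p q
    · rw [if_pos hf, bh_fst]; simp [vv, c0]
    · rw [if_neg hf]; rfl
  · rw [pr_snd, bh_snd]
    simp only [ev, vv, c0, Pi.zero_apply, mul_zero, mul_one, sub_zero, zero_add, zero_mul]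
    rw [Finset.sum_pi_single']
    simp [hi]

lemma be_ends {n : ℕ} (hn : 1 ≤ n) : be n (ev 0) (ev n) = c0 := by
  rw [be_apply]
  ext p q
  · rw [pr_fst]
    by_cases hf : far n p q
    · rw [if_pos hf, bh_fst]
      have hpq := hf.1
      have hpq2 := hf.2
      simp only [ev, c0, Pi.single_apply, Pi.zero_apply]
      split_ifs <;> first | (exfalso; omega) | simp
    · rw [if_neg hf]; rfl
  · rw [pr_snd, bh_snd]
    simp only [ev, c0, Pi.single_apply, mul_zero, zero_mul, sub_zero, Finset.sum_const_zero,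
      add_zero]
    split_ifs <;> first | (exfalso; omega) | simp

section
variable {U W : Type} [AddCommGroup U] [Module F U] [AddCommGroup W] [Module F W]
variable {β : U →ₗ[F] U →ₗ[F] W} {h : ∀ u, β u u = 0}

variable (β h) in
/-- The normal closure of the sign. -/
def NC : Subgroup (Hs β h) := Subgroup.normalClosure ({⟨-1, 0, 0⟩} : Set (Hs β h))

/-- There is no homomorphism from the normal closure to `H0` which is nontrivial on the
distinguished commutator. -/
theorem no_sep {n : ℕ} (e : ℕ → U) (v : U) (c : W)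
    (h1 : ∀ i, i < n → β (e i) (e (i + 1)) = 0) (h2 : ∀ i, i ≤ n → β (e i) v = c)
    (h3 : β (e 0) (e n) = c)
    (ψ : NC β h →* H0) (z : NC β h) (hz : (z : Hs β h) = ⟨1, 0, -c⟩) : ψ z = 1 := by
  obtain ⟨X, hX⟩ : ∃ X : U → NC β h, ∀ u, (X u : Hs β h) = ⟨1, u, 0⟩ :=
    ⟨fun u => ⟨⟨1, u, 0⟩, mem_closure u⟩, fun u => rfl⟩
  have hXe : ∀ u, (ψ (X u)).e = 1 := by
    intro u
    apply unit_cube
    have h1 : X u * X u * X u = 1 := by
      apply Subtype.ext
      rw [Subgroup.coe_mul, Subgroup.coe_mul, hX]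
      exact cube_eq u
    have h2 := congrArg ψ h1
    rw [map_mul, map_mul, map_one] at h2
    have h3 := congrArg Hs.e h2
    simpa using h3
  have hcomm : ∀ u v, ψ (X u * X v * (X u)⁻¹ * (X v)⁻¹) = ⟨1, 0, - det (ψ (X u)).u (ψ (X v)).u⟩ := by
    intro u v
    rw [map_mul, map_mul, map_mul, map_inv, map_inv]
    exact comm_eq (hXe u) (hXe v)
  have hcomm' : ∀ u v, ((X u * X v * (X u)⁻¹ * (X v)⁻¹ : NC β h) : Hs β h) =
      ⟨1, 0, - β u v⟩ := by
    intro u v
    rw [Subgroup.coe_mul, Subgroup.coe_mul, Subgroup.coe_mul, Subgroup.coe_inv, Subgroup.coe_inv,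
      hX, hX]
    exact comm_eq (x := (⟨1, u, 0⟩ : Hs β h)) (y := ⟨1, v, 0⟩) rfl rfl
  have hzc : ∀ u v, β u v = c → - det (ψ (X u)).u (ψ (X v)).u = (ψ z).w := by
    intro u v huv
    have h1 : X u * X v * (X u)⁻¹ * (X v)⁻¹ = z := by
      apply Subtype.ext
      rw [hcomm', huv, hz]
    have h2 := hcomm u v
    rw [h1] at h2
    rw [h2]
  have hz0 : ∀ u v, β u v = 0 → det (ψ (X u)).u (ψ (X v)).u = 0 := by
    intro u v huv
    have h1 : X u * X v * (X u)⁻¹ * (X v)⁻¹ = 1 := by
      apply Subtype.ext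
      rw [hcomm', huv, neg_zero]
      rfl
    have h2 := hcomm u v
    rw [h1, map_one] at h2
    have h3 := congrArg Hs.w h2
    simp only [Hs.one_w] at h3
    exact neg_eq_zero.mp h3.symm
  have hzu : ψ z = ⟨1, 0, (ψ z).w⟩ := by
    have h1 : X (e 0) * X v * (X (e 0))⁻¹ * (X v)⁻¹ = z := by
      apply Subtype.ext
      rw [hcomm', h2 0 (Nat.zero_le n), hz]
    have h2 := hcomm (e 0) v
    rw [h1] at h2
    rw [h2]
  by_contra hne
  have hc : (ψ z).w ≠ 0 := by
    intro hw
    apply hne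
    rw [hzu, hw]
    rfl
  have hc' : - (ψ z).w ≠ 0 := neg_ne_zero.mpr hc
  have hall : ∀ i, i ≤ n → (ψ (X (e i))).u = (ψ (X (e 0))).u := by
    intro i
    induction i with
    | zero => intro _; rfl
    | succ i ih =>
      intro hi
      rw [← ih (by omega)]
      symm
      apply det_cancel _ _ (ψ (X v)).u (- (ψ z).w) hc'
      · rw [← hzc _ _ (h2 i (by omega)), neg_neg]
      · rw [← hzc _ _ (h2 (i + 1) hi), neg_neg]
      · exact hz0 _ _ (h1 i (by omega))
  have h4 := hzc (e 0) (e n) h3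
  rw [hall n le_rfl, det_self, neg_zero] at h4
  exact hc h4.symm

/-- The normal closure does not embed into a power of `H0`. -/
theorem no_embed {n : ℕ} (e : ℕ → U) (v : U) (c : W) (hc : c ≠ 0)
    (h1 : ∀ i, i < n → β (e i) (e (i + 1)) = 0) (h2 : ∀ i, i ≤ n → β (e i) v = c)
    (h3 : β (e 0) (e n) = c) :
    ¬ ∃ (a : Hs β h) (I : Type) (φ : (Subgroup.normalClosure ({a} : Set (Hs β h))) →* (I → H0)),
      a = ⟨-1, 0, 0⟩ ∧ Function.Injective φ := by
  rintro ⟨_, I, φ, rfl, hφ⟩
  have hzmem : (⟨1, 0, -c⟩ : Hs β h) ∈ NC β h := by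
    have h4 := comm_eq (x := (⟨1, e 0, 0⟩ : Hs β h)) (y := ⟨1, v, 0⟩) rfl rfl
    rw [h2 0 (Nat.zero_le n)] at h4
    rw [← h4]
    exact Subgroup.mul_mem _ (Subgroup.mul_mem _ (Subgroup.mul_mem _ (mem_closure _)
      (mem_closure _)) (Subgroup.inv_mem _ (mem_closure _))) (Subgroup.inv_mem _ (mem_closure _))
  have hz1 : φ (⟨_, hzmem⟩ : NC β h) = 1 := by
    funext i
    exact no_sep e v c h1 h2 h3 ((Pi.evalMonoidHom (fun _ : I => H0) i).comp φ) ⟨_, hzmem⟩ rfl
  have hz2 : (⟨_, hzmem⟩ : NC β h) = 1 := by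
    apply hφ
    rw [hz1]
    exact (map_one φ).symm
  have hz3 := congrArg (fun x : NC β h => (x : Hs β h).w) hz2
  simp only [OneMemClass.coe_one, Hs.one_w] at hz3
  exact hc (neg_eq_zero.mp hz3)

end

/-- The main theorem. -/
theorem main :
    ¬ (∀ (H : Type) [Group H] [Finite H],
      ∃ (k : ℕ) (n : Fin k → ℕ) (prem : (i : Fin k) → List (FreeGroup (Fin (n i))))
        (concl : (i : Fin k) → FreeGroup (Fin (n i))),
        ∀ (G : Type) [Group G],
          (∀ a : G, ∃ (I : Type) (φ : (Subgroup.normalClosure ({a} : Set G)) →* (I → H)),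
              Function.Injective φ) ↔
          (∀ i : Fin k, ∀ f : Fin (n i) → G,
              (∀ p ∈ prem i, FreeGroup.lift f p = 1) → FreeGroup.lift f (concl i) = 1)) := by
  intro hall
  obtain ⟨k, m, prem, concl, hG⟩ := hall H0
  have hH0 := (hG H0).mp (fun a => ⟨Unit, MonoidHom.pi (fun _ => Subgroup.subtype _), by
    intro x y hxy
    exact Subtype.ext (congrFun hxy ())⟩)
  set N := Finset.univ.sup m with hN
  set n := 3 * N + 3 with hn
  have hGn : ∀ i : Fin k, ∀ f : Fin (m i) → Gn n,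
      (∀ p ∈ prem i, FreeGroup.lift f p = 1) → FreeGroup.lift f (concl i) = 1 := by
    intro i f hf
    by_contra hne
    let U₁ : Submodule F U0 := Submodule.span F (Set.range (fun t => (f t).u))
    have hfin : Module.Finite F U₁ := Module.Finite.span_of_finite F (Set.finite_range _)
    have hU : Module.finrank F U₁ ≤ N := by
      have h1 := finrank_range_le_card (R := F) (fun t => (f t).u)
      rw [Fintype.card_fin] at h1
      exact h1.trans (Finset.le_sup (f := m) (Finset.mem_univ i))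
    have hmem : ∀ t, f t ∈ (Hs.T U₁ : Subgroup (Gn n)) := by
      intro t
      exact Submodule.subset_span ⟨t, rfl⟩
    let f' : Fin (m i) → (Hs.T U₁ : Subgroup (Gn n)) := fun t => ⟨f t, hmem t⟩
    have hlift : ∀ w, FreeGroup.lift f w = ((FreeGroup.lift f' w : (Hs.T U₁ : Subgroup (Gn n))) : Gn n) := by
      intro w
      have : FreeGroup.lift f = (Subgroup.subtype _).comp (FreeGroup.lift f') := by
        apply FreeGroup.ext_hom
        intro t
        simp [f']
      rw [this]
      rfl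
    have hy : FreeGroup.lift f' (concl i) ≠ 1 := by
      intro h1
      apply hne
      rw [hlift, h1]
      rfl
    obtain ⟨ψ, hψ⟩ := separate (n := n) (N := N) (by omega) U₁ hU _ hy
    apply hψ
    have hcomp : ∀ w, FreeGroup.lift (fun t => ψ (f' t)) w = ψ (FreeGroup.lift f' w) := by
      intro w
      have : FreeGroup.lift (fun t => ψ (f' t)) = ψ.comp (FreeGroup.lift f') := by
        apply FreeGroup.ext_hom
        intro t
        simp
      rw [this]
      rfl
    rw [← hcomp]
    apply hH0 i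
    intro p hp
    rw [hcomp]
    have h2 := hf p hp
    rw [hlift] at h2
    have h3 : FreeGroup.lift f' p = 1 := Subtype.ext h2
    rw [h3, map_one]
  obtain ⟨I, φ, hφ⟩ := (hG (Gn n)).mpr hGn ⟨-1, 0, 0⟩
  refine no_embed (h := be_self n) (n := n) ev vv c0 ?_ (fun i _ => be_adj (by omega))
    (fun i hi => be_v hi) (be_ends (by omega)) ⟨_, I, φ, rfl, hφ⟩
  intro hc
  have := congrArg Prod.snd hc
  simp only [c0, Prod.snd_zero] at this
  exact absurd this (by decide)

end Pool.Agent.H758R3.Levi
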