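import Mathlib
import Pool.Agent.H758R3.DirMain4

set_option autoImplicit false

open Finset

namespace H758R3.Dir

/-- dilation by a prime different from the characteristic keeps a factor a factor -/
lemma dilate_prime {G : Type*} [AddCommGroup G] [Fintype G] [DecidableEq G] (r : ℕ) [Fact r.Prime]
    (A B : Finset G) (hcop : Nat.Coprime A.card r)
    (hinj : ∀ a ∈ A, ∀ b ∈ B, ∀ a' ∈ A, ∀ b' ∈ B, a + b = a' + b' → a = a' ∧ b = b')
    (hcard : A.card * B.card = Fintype.card G) :
    ∀ g : G, ∃ a ∈ A, ∃ b ∈ B, r • a + b = g := by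
  classical
  intro g
  have hch : CharP (AddMonoidAlgebra (ZMod r) G) r :=
    charP_of_injective_algebraMap (algebraMap (ZMod r) (AddMonoidAlgebra (ZMod r) G)).injective r
  obtain ⟨α, hα⟩ : ∃ α : AddMonoidAlgebra (ZMod r) G, α = ∑ a ∈ A, AddMonoidAlgebra.single a 1 := ⟨_, rfl⟩
  obtain ⟨β, hβ⟩ : ∃ β : AddMonoidAlgebra (ZMod r) G, β = ∑ a ∈ B, AddMonoidAlgebra.single a 1 := ⟨_, rfl⟩
  obtain ⟨γ, hγ⟩ : ∃ γ : AddMonoidAlgebra (ZMod r) G, γ = ∑ a : G, AddMonoidAlgebra.single a 1 := ⟨_, rfl⟩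
  have hprod : ∀ f : G → G, (∑ a ∈ A, AddMonoidAlgebra.single (f a) (1 : ZMod r)) * β =
      ∑ q ∈ A ×ˢ B, AddMonoidAlgebra.single (f q.1 + q.2) 1 := by
    intro f
    rw [hβ, Finset.sum_mul_sum, Finset.sum_product]
    apply Finset.sum_congr rfl
    intro a _
    apply Finset.sum_congr rfl
    intro b _
    rw [AddMonoidAlgebra.single_mul_single, mul_one]
  have h1 : α * β = γ := by
    have e1 := hprod id
    simp only [id] at e1
    rw [hα, e1]
    have himg : (A ×ˢ B).image (fun q => q.1 + q.2) = Finset.univ := by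
      apply Finset.eq_univ_of_card
      rw [Finset.card_image_of_injOn, Finset.card_product, hcard]
      rintro ⟨a, b⟩ h ⟨a', b'⟩ h' heq
      simp only [Finset.coe_product, Set.mem_prod, Finset.mem_coe] at h h'
      obtain ⟨e1, e2⟩ := hinj a h.1 b h.2 a' h'.1 b' h'.2 heq
      rw [e1, e2]
    rw [hγ, ← himg, Finset.sum_image]
    rintro ⟨a, b⟩ h ⟨a', b'⟩ h' heq
    simp only [Finset.coe_product, Set.mem_prod, Finset.mem_coe] at h h'
    obtain ⟨e1, e2⟩ := hinj a h.1 b h.2 a' h'.1 b' h'.2 heq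
    rw [e1, e2]
  have h2 : ∀ a : G, AddMonoidAlgebra.single a (1 : ZMod r) * γ = γ := by
    intro a
    rw [hγ, Finset.mul_sum]
    simp only [AddMonoidAlgebra.single_mul_single, mul_one]
    exact Fintype.sum_equiv (Equiv.addLeft a) _ _ (fun x => rfl)
  have h3 : α * γ = (A.card : ZMod r) • γ := by
    rw [hα, Finset.sum_mul, Finset.sum_congr rfl (fun a _ => h2 a), Finset.sum_const,
      Nat.cast_smul_eq_nsmul]
  have h4 : ∀ n : ℕ, α ^ n * γ = (A.card : ZMod r) ^ n • γ := by
    intro n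
    induction n with
    | zero => simp
    | succ n ih =>
      rw [pow_succ, mul_assoc, h3, mul_smul_comm, ih, smul_smul, pow_succ, mul_comm]
  have h5 : α ^ r = ∑ a ∈ A, AddMonoidAlgebra.single (r • a) 1 := by
    rw [hα, sum_pow_char]
    apply Finset.sum_congr rfl
    intro a _
    rw [AddMonoidAlgebra.single_pow, one_pow]
  have hr1 : 1 ≤ r := (Fact.out : r.Prime).one_lt.le
  have h6 : α ^ r * β = (A.card : ZMod r) ^ (r - 1) • γ := by
    have : α ^ r = α ^ (r - 1) * α := by rw [← pow_succ]; congr 1; omega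
    rw [this, mul_assoc, h1, h4]
  have h7 : α ^ r * β = ∑ q ∈ A ×ˢ B, AddMonoidAlgebra.single (r • q.1 + q.2) 1 := by
    rw [h5]
    exact hprod (fun a => r • a)
  by_contra hcon
  push Not at hcon
  have h8 : (α ^ r * β).coeff g = 0 := by
    rw [h7, AddMonoidAlgebra.coeff_sum, Finsupp.finsetSum_apply]
    apply Finset.sum_eq_zero
    rintro ⟨a, b⟩ hq
    rw [Finset.mem_product] at hq
    have hne := hcon a hq.1 b hq.2
    simp [AddMonoidAlgebra.coeff_single, Finsupp.single_apply, hne]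
  have h9 : γ.coeff g = 1 := by
    rw [hγ, AddMonoidAlgebra.coeff_sum, Finsupp.finsetSum_apply]
    rw [Finset.sum_eq_single g]
    · simp [AddMonoidAlgebra.coeff_single]
    · intro b _ hb
      simp [AddMonoidAlgebra.coeff_single, Finsupp.single_apply, hb]
    · intro h; exact absurd (Finset.mem_univ g) h
  rw [h6, AddMonoidAlgebra.coeff_smul, Finsupp.smul_apply, h9, smul_eq_mul, mul_one] at h8
  have h10 : (A.card : ZMod r) = 0 := by
    rcases Nat.eq_zero_or_pos (r - 1) with h0 | h0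
    · rw [h0, pow_zero] at h8; exact absurd h8 one_ne_zero
    · exact (pow_eq_zero_iff (by omega)).mp h8
  rw [ZMod.natCast_eq_zero_iff] at h10
  have := Nat.Coprime.eq_one_of_dvd hcop.symm h10
  exact (Fact.out : r.Prime).one_lt.ne' this

end H758R3.Dir
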