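import Mathlib
import Pool.Agent.H758R3.Tile1

set_option autoImplicit false

open Finset

namespace H758R3.Dir

variable {p : ℕ} [Fact p.Prime]

lemma inj_smul (A B : Finset (Vec p)) (hcard : A.card * B.card = p ^ 3)
    (hinj : ∀ a ∈ A, ∀ b ∈ B, ∀ a' ∈ A, ∀ b' ∈ B, a + b = a' + b' → a = a' ∧ b = b') :
    ∀ n : ℕ, 0 < n → n < p →
    ∀ a ∈ A, ∀ b ∈ B, ∀ a' ∈ A, ∀ b' ∈ B, n • a + b = n • a' + b' → a = a' ∧ b = b' := by
  classical
  have hp := (Fact.out : p.Prime)
  have hG : Fintype.card (Vec p) = p ^ 3 := by
    simp [Vec, ZMod.card]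
  intro n
  induction n using Nat.strong_induction_on with
  | _ n ih =>
    intro hn0 hnp
    rcases Nat.eq_or_lt_of_le (Nat.succ_le_of_lt hn0) with h1 | h1
    · intro a ha b hb a' ha' b' hb' h
      have hn1 : n = 1 := by omega
      rw [hn1, one_smul, one_smul] at h
      exact hinj a ha b hb a' ha' b' hb' h
    · obtain ⟨r, hr, hrn⟩ := Nat.exists_prime_and_dvd (show n ≠ 1 by omega)
      obtain ⟨m, hm⟩ := hrn
      have hm0 : 0 < m := by
        rcases Nat.eq_zero_or_pos m with h0 | h0
        · rw [h0, mul_zero] at hm; omega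
        · exact h0
      have hr2 := hr.two_le
      have hmn : m < n := by rw [hm]; nlinarith
      have hrle : r ≤ n := by rw [hm]; nlinarith
      have ihm := ih m hmn hm0 (by omega)
      have : Fact r.Prime := ⟨hr⟩
      have hminj : Function.Injective (fun a : Vec p => m • a) := by
        intro a b hab
        have h2 : (m : ZMod p) • a = (m : ZMod p) • b := by
          rw [Nat.cast_smul_eq_nsmul, Nat.cast_smul_eq_nsmul]; exact hab
        have hm' : (m : ZMod p) ≠ 0 := by
          intro h0
          rw [ZMod.natCast_eq_zero_iff] at h0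
          have := Nat.le_of_dvd hm0 h0
          omega
        exact smul_right_injective _ hm' h2
      have hAc : (A.image (fun a : Vec p => m • a)).card = A.card :=
        Finset.card_image_of_injective _ hminj
      have hcop : Nat.Coprime A.card r := by
        have h3 : A.card ∣ p ^ 3 := ⟨B.card, hcard.symm⟩
        have h4 : Nat.Coprime (p ^ 3) r := by
          apply Nat.Coprime.pow_left
          rw [Nat.coprime_primes hp hr]
          omega
        exact Nat.Coprime.coprime_dvd_left h3 h4
      have key := dilate_prime r (A.image (fun a : Vec p => m • a)) B (by rw [hAc]; exact hcop)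
        (by
          intro x hx b hb x' hx' b' hb' h
          obtain ⟨a, ha, rfl⟩ := Finset.mem_image.mp hx
          obtain ⟨a', ha', rfl⟩ := Finset.mem_image.mp hx'
          obtain ⟨e1, e2⟩ := ihm a ha b hb a' ha' b' hb' h
          exact ⟨by rw [e1], e2⟩)
        (by rw [hAc, hG]; exact hcard)
      have himg : (A ×ˢ B).image (fun q => n • q.1 + q.2) = Finset.univ := by
        rw [Finset.eq_univ_iff_forall]
        intro g
        obtain ⟨x, hx, b, hb, hg⟩ := key g
        obtain ⟨a, ha, rfl⟩ := Finset.mem_image.mp hx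
        rw [Finset.mem_image]
        refine ⟨(a, b), Finset.mem_product.mpr ⟨ha, hb⟩, ?_⟩
        show n • a + b = g
        rw [← hg, hm, mul_smul]
      have hinjOn : Set.InjOn (fun q : Vec p × Vec p => n • q.1 + q.2) (A ×ˢ B : Finset _) := by
        apply Finset.injOn_of_card_image_eq
        rw [himg, Finset.card_product, hcard, Finset.card_univ, hG]
      intro a ha b hb a' ha' b' hb' h
      have h5 := hinjOn (x₁ := (a, b)) (x₂ := (a', b'))
        (by simp only [Finset.coe_product, Set.mem_prod, Finset.mem_coe]; exact ⟨ha, hb⟩)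
        (by simp only [Finset.coe_product, Set.mem_prod, Finset.mem_coe]; exact ⟨ha', hb'⟩) h
      exact ⟨congrArg Prod.fst h5, congrArg Prod.snd h5⟩

/-- no common direction -/
def Sep (A B : Finset (Vec p)) : Prop :=
  ∀ a ∈ A, ∀ a' ∈ A, ∀ b ∈ B, ∀ b' ∈ B, ∀ s : ZMod p, b - b' = s • (a - a') → b = b'

lemma sep (A B : Finset (Vec p)) (hcard : A.card * B.card = p ^ 3)
    (hinj : ∀ a ∈ A, ∀ b ∈ B, ∀ a' ∈ A, ∀ b' ∈ B, a + b = a' + b' → a = a' ∧ b = b') :
    Sep A B := by
  intro a ha a' ha' b hb b' hb' s hs
  by_cases h0 : s = 0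
  · rw [h0, zero_smul] at hs
    exact sub_eq_zero.mp hs
  · have hval : 0 < s.val := by
      rw [Nat.pos_iff_ne_zero]
      intro h; exact h0 ((ZMod.val_eq_zero s).mp h)
    have hlt : s.val < p := ZMod.val_lt s
    have key := inj_smul A B hcard hinj s.val hval hlt a' ha' b hb a ha b' hb' (by
      have e : ∀ x : Vec p, s.val • x = s • x := by
        intro x
        rw [← Nat.cast_smul_eq_nsmul (ZMod p), ZMod.natCast_zmod_val]
      rw [e, e]
      have : b = b' + s • (a - a') := by rw [← hs]; abel
      rw [this, smul_sub]; abel)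
    exact key.2

lemma sep_swap {A B : Finset (Vec p)} (h : Sep A B) : 
    ∀ a ∈ A, ∀ a' ∈ A, ∀ b ∈ B, ∀ b' ∈ B, ∀ s : ZMod p, b ≠ b' → a - a' = s • (b - b') → a = a' := by
  intro a ha a' ha' b hb b' hb' s hne hs
  by_cases h0 : s = 0
  · rw [h0, zero_smul] at hs
    exact sub_eq_zero.mp hs
  · exfalso
    apply hne
    apply h a ha a' ha' b hb b' hb' s⁻¹
    rw [hs, smul_smul, inv_mul_cancel₀ h0, one_smul]

/-- two functionals without common multiples have a one-dimensional common kernel -/
lemma ker2 {u w d x : Vec p} (hu : u ≠ 0) (hw : ∀ s : ZMod p, s • u + w ≠ 0) (hd : d ≠ 0)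
    (hud : u ⬝ᵥ d = 0) (hwd : w ⬝ᵥ d = 0) (hux : u ⬝ᵥ x = 0) (hwx : w ⬝ᵥ x = 0) :
    ∃ s : ZMod p, x = s • d := by
  rw [dotProduct, Fin.sum_univ_three] at hud hwd hux hwx
  have hn : ¬ (u 1 * w 2 - u 2 * w 1 = 0 ∧ u 2 * w 0 - u 0 * w 2 = 0 ∧ u 0 * w 1 - u 1 * w 0 = 0) := by
    rintro ⟨h1, h2, h3⟩
    obtain ⟨i, hi⟩ : ∃ i, u i ≠ 0 := by
      by_contra hcon
      push Not at hcon
      exact hu (funext hcon)
    apply hw (-(w i) / u i)
    funext l
    simp only [Pi.add_apply, Pi.smul_apply, smul_eq_mul, Pi.zero_apply]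
    field_simp
    fin_cases i <;> fin_cases l <;> simp at * <;> first
      | ring1
      | linear_combination h1
      | linear_combination -h1
      | linear_combination h2
      | linear_combination -h2
      | linear_combination h3
      | linear_combination -h3
  -- x and d are parallel to the cross product
  have hpar : ∀ y : Vec p, (u 0 * y 0 + u 1 * y 1 + u 2 * y 2 = 0) →
      (w 0 * y 0 + w 1 * y 1 + w 2 * y 2 = 0) →
      (y 1 * (u 0 * w 1 - u 1 * w 0) = y 2 * (u 2 * w 0 - u 0 * w 2)) ∧
      (y 2 * (u 1 * w 2 - u 2 * w 1) = y 0 * (u 0 * w 1 - u 1 * w 0)) ∧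
      (y 0 * (u 2 * w 0 - u 0 * w 2) = y 1 * (u 1 * w 2 - u 2 * w 1)) := by
    intro y h1 h2
    refine ⟨?_, ?_, ?_⟩
    · linear_combination (-w 0) * h1 + (u 0) * h2
    · linear_combination (-w 1) * h1 + (u 1) * h2
    · linear_combination (-w 2) * h1 + (u 2) * h2
  obtain ⟨x1, x2, x3⟩ := hpar x hux hwx
  obtain ⟨d1, d2, d3⟩ := hpar d hud hwd
  clear hpar
  generalize u 1 * w 2 - u 2 * w 1 = n0 at *
  generalize u 2 * w 0 - u 0 * w 2 = n1 at *
  generalize u 0 * w 1 - u 1 * w 0 = n2 at *
  by_cases c0 : n0 = 0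
  · by_cases c1 : n1 = 0
    · have c2 : n2 ≠ 0 := fun h => hn ⟨c0, c1, h⟩
      have e0 : x 0 = 0 := by
        have : x 0 * n2 = 0 := by linear_combination -x2 + (x 2) * c0
        exact (mul_eq_zero.mp this).resolve_right c2
      have e1 : x 1 = 0 := by
        have : x 1 * n2 = 0 := by linear_combination x1 + (x 2) * c1
        exact (mul_eq_zero.mp this).resolve_right c2
      have f0 : d 0 = 0 := by
        have : d 0 * n2 = 0 := by linear_combination -d2 + (d 2) * c0
        exact (mul_eq_zero.mp this).resolve_right c2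
      have f1 : d 1 = 0 := by
        have : d 1 * n2 = 0 := by linear_combination d1 + (d 2) * c1
        exact (mul_eq_zero.mp this).resolve_right c2
      have f2 : d 2 ≠ 0 := by
        intro h
        apply hd
        funext l
        fin_cases l <;> simp [f0, f1, h]
      refine ⟨x 2 / d 2, ?_⟩
      funext l
      fin_cases l
      · simp [e0, f0]
      · simp [e1, f1]
      · simp; field_simp
    · have f1 : d 1 ≠ 0 := by
        intro h
        rw [h] at d1 d3
        have g0 : d 0 = 0 := by
          have : d 0 * n1 = 0 := by linear_combination d3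
          exact (mul_eq_zero.mp this).resolve_right c1
        have g2 : d 2 = 0 := by
          have : d 2 * n1 = 0 := by linear_combination -d1
          exact (mul_eq_zero.mp this).resolve_right c1
        apply hd
        funext l
        fin_cases l <;> simp [g0, g2, h]
      have g0 : x 0 * d 1 = x 1 * d 0 := mul_left_cancel₀ c1 (by
        linear_combination (d 1) * x3 - (x 1) * d3)
      have g2 : x 2 * d 1 = x 1 * d 2 := mul_left_cancel₀ c1 (by
        linear_combination -(d 1) * x1 + (x 1) * d1)
      have e : ∀ l, x l * d 1 = x 1 * d l := by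
        intro l
        fin_cases l
        · exact g0
        · rfl
        · exact g2
      refine ⟨x 1 / d 1, ?_⟩
      funext l
      simp only [Pi.smul_apply, smul_eq_mul]
      rw [div_mul_eq_mul_div, eq_div_iff f1]
      exact e l
  · have f0 : d 0 ≠ 0 := by
      intro h
      rw [h] at d2 d3
      have g1 : d 1 = 0 := by
        have : d 1 * n0 = 0 := by linear_combination -d3
        exact (mul_eq_zero.mp this).resolve_right c0
      have g2 : d 2 = 0 := by
        have : d 2 * n0 = 0 := by linear_combination d2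
        exact (mul_eq_zero.mp this).resolve_right c0
      apply hd
      funext l
      fin_cases l <;> simp [g1, g2, h]
    have g0 : x 1 * d 0 = x 0 * d 1 := mul_left_cancel₀ c0 (by
      linear_combination -(d 0) * x3 + (x 0) * d3)
    have g2 : x 2 * d 0 = x 0 * d 2 := mul_left_cancel₀ c0 (by
      linear_combination (d 0) * x2 - (x 0) * d2)
    have e : ∀ l, x l * d 0 = x 0 * d l := by
      intro l
      fin_cases l
      · rfl
      · exact g0
      · exact g2
    refine ⟨x 0 / d 0, ?_⟩
    funext l
    simp only [Pi.smul_apply, smul_eq_mul]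
    rw [div_mul_eq_mul_div, eq_div_iff f0]
    exact e l

end H758R3.Dir
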