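import Mathlib
import Pool.Agent.H758R3.Tile2

set_option autoImplicit false

open Finset

namespace H758R3.Dir

variable {p : ℕ} [Fact p.Prime]

/-- points of `B` on a level set of the functional `u` -/
def Fib (B : Finset (Vec p)) (u : Vec p) (c : ZMod p) : Finset (Vec p) := B.filter (fun b => u ⬝ᵥ b = c)

lemma mem_Fib {B : Finset (Vec p)} {u b : Vec p} {c : ZMod p} : b ∈ Fib B u c ↔ b ∈ B ∧ u ⬝ᵥ b = c := by
  simp [Fib]

lemma D_ne_zero {A D : Finset (Vec p)} (hD : Dirs A D) : ∀ d ∈ D, d ≠ 0 := by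
  intro d hd h0
  obtain ⟨a, _, b, _, hab, hd'⟩ := hD.rep d hd
  rw [h0] at hd'
  exact hab (sub_eq_zero.mp hd'.symm)

lemma fiber_inj {A B D : Finset (Vec p)} (hD : Dirs A D) (hS : Sep A B) {u w d : Vec p} (hu : u ≠ 0)
    (hw : ∀ s : ZMod p, s • u + w ≠ 0) (hd : d ∈ D) (hud : u ⬝ᵥ d = 0) (hwd : w ⬝ᵥ d = 0)
    {b b' : Vec p} (hb : b ∈ B) (hb' : b' ∈ B) (h1 : u ⬝ᵥ b = u ⬝ᵥ b') (h2 : w ⬝ᵥ b = w ⬝ᵥ b') :
    b = b' := by
  obtain ⟨s, hs⟩ := ker2 (x := b - b') hu hw (D_ne_zero hD d hd) hud hwd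
    (by rw [dotProduct_sub, h1, sub_self]) (by rw [dotProduct_sub, h2, sub_self])
  obtain ⟨a, ha, a', ha', _, rfl⟩ := hD.rep d hd
  exact hS a ha a' ha' b hb b' hb' s hs

lemma fiber_card {A B D : Finset (Vec p)} (hD : Dirs A D) (hS : Sep A B) (hB : B.card = p * p)
    {u d : Vec p} (hu : u ≠ 0) (hd : d ∈ D) (hud : u ⬝ᵥ d = 0) (c : ZMod p) : (Fib B u c).card = p := by
  classical
  obtain ⟨w, hwd, hw⟩ := exists_u2 u d (D_ne_zero hD d hd)
  have hle : ∀ c, (Fib B u c).card ≤ p := by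
    intro c
    have h1 : (Fib B u c).card ≤ (Finset.univ : Finset (ZMod p)).card := by
      apply Finset.card_le_card_of_injOn (fun b => w ⬝ᵥ b)
      · intro b _; simp
      · intro b hb b' hb' hbb
        rw [Finset.mem_coe, mem_Fib] at hb hb'
        exact fiber_inj hD hS hu hw hd hud hwd hb.1 hb'.1 (by rw [hb.2, hb'.2]) hbb
    rwa [Finset.card_univ, ZMod.card] at h1
  have hsum : ∑ c : ZMod p, (Fib B u c).card = ∑ _c : ZMod p, p := by
    rw [Finset.sum_const, Finset.card_univ, ZMod.card, smul_eq_mul, ← hB]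
    exact (Finset.card_eq_sum_card_fiberwise (f := fun b => u ⬝ᵥ b) (t := Finset.univ)
      (fun b _ => by simp)).symm
  exact (Finset.sum_eq_sum_iff_of_le (fun c _ => hle c)).mp hsum c (Finset.mem_univ c)

lemma sum_fib (B : Finset (Vec p)) (u : Vec p) (φ : Vec p → ZMod p) :
    ∑ b ∈ B, φ b = ∑ c : ZMod p, ∑ b ∈ Fib B u c, φ b := by
  classical
  exact (Finset.sum_fiberwise_of_maps_to (s := B) (t := Finset.univ) (g := fun b => u ⬝ᵥ b)
    (fun b _ => Finset.mem_univ _) φ).symm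

lemma sum_equi {A B D : Finset (Vec p)} (hD : Dirs A D) (hS : Sep A B) (hB : B.card = p * p)
    {u d : Vec p} (hu : u ≠ 0) (hd : d ∈ D) (hud : u ⬝ᵥ d = 0) (φ : ZMod p → ZMod p) :
    ∑ b ∈ B, φ (u ⬝ᵥ b) = 0 := by
  rw [sum_fib B u]
  apply Finset.sum_eq_zero
  intro c _
  have : ∑ b ∈ Fib B u c, φ (u ⬝ᵥ b) = ∑ b ∈ Fib B u c, φ c := by
    apply Finset.sum_congr rfl
    intro b hb
    rw [(mem_Fib.mp hb).2]
  rw [this, Finset.sum_const, fiber_card hD hS hB hu hd hud c, nsmul_eq_mul, CharP.cast_eq_zero, zero_mul]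

lemma exists_frame {u0 : Vec p} (hu0 : u0 ≠ 0) : ∃ m1 m2 : Vec p,
    (∀ x, u0 ⬝ᵥ x = 0 → m1 ⬝ᵥ x = 0 → m2 ⬝ᵥ x = 0 → x = 0) ∧
    ∀ (y : Option (ZMod p)) (s : ZMod p), s • u0 + mem m1 m2 y ≠ 0 := by
  obtain ⟨i, hi⟩ : ∃ i, u0 i ≠ 0 := by
    by_contra hcon
    push Not at hcon
    exact hu0 (funext hcon)
  obtain ⟨m1, hm1⟩ : ∃ m1 : Vec p, m1 = Pi.single (i + 1) 1 := ⟨_, rfl⟩
  obtain ⟨m2, hm2⟩ : ∃ m2 : Vec p, m2 = Pi.single (i + 2) 1 := ⟨_, rfl⟩
  have hm1d : ∀ d : Vec p, m1 ⬝ᵥ d = d (i + 1) := by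
    intro d; rw [hm1, single_dotProduct, one_mul]
  have hm2d : ∀ d : Vec p, m2 ⬝ᵥ d = d (i + 2) := by
    intro d; rw [hm2, single_dotProduct, one_mul]
  refine ⟨m1, m2, ?_, ?_⟩
  · intro d h0 h1 h2
    rw [hm1d] at h1
    rw [hm2d] at h2
    have h3 : u0 ⬝ᵥ d = u0 i * d i + u0 (i + 1) * d (i + 1) + u0 (i + 2) * d (i + 2) := by
      rw [dotProduct, Fin.sum_univ_three]
      fin_cases i <;> simp <;> ring
    rw [h1, h2, mul_zero, mul_zero, add_zero, add_zero, h0] at h3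
    have h4 : d i = 0 := by
      rcases mul_eq_zero.mp h3.symm with h5 | h5
      · exact absurd h5 hi
      · exact h5
    funext l
    fin_cases i <;> fin_cases l <;> simp_all
  · intro y s h0
    have hcomp : (mem m1 m2 y) i = 0 := by
      rcases y with _ | x
      · show m1 i = 0
        rw [hm1]
        fin_cases i <;> simp
      · show (x • m1 + m2) i = 0
        rw [hm1, hm2]
        fin_cases i <;> simp
    have h1 : (s • u0 + mem m1 m2 y) i = 0 := by rw [h0]; rfl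
    rw [Pi.add_apply, hcomp, add_zero, Pi.smul_apply, smul_eq_mul] at h1
    have hs : s = 0 := (mul_eq_zero.mp h1).resolve_right hi
    rw [hs, zero_smul, zero_add] at h0
    rcases y with _ | x
    · have h2 : m1 (i + 1) = 0 := by
        have h3 : m1 = 0 := h0
        rw [h3]; rfl
      rw [hm1, Pi.single_eq_same] at h2
      exact one_ne_zero h2
    · have h2 : (x • m1 + m2) (i + 2) = 0 := by
        have h3 : x • m1 + m2 = 0 := h0
        rw [h3]; rfl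
      rw [hm1, hm2] at h2
      fin_cases i <;> simp at h2

/-- if many members of a pencil are injective on a `p`-set, then every member is constant or
injective on it -/
lemma pencil_dichotomy {U : Finset (Vec p)} (hU : U.card = p) (h : ℕ) (hh : 1 ≤ h) (hp : p = 2 * h + 1)
    (u1 u2 : Vec p) (Y : Finset (Option (ZMod p))) (hY : h + 1 ≤ Y.card)
    (hinj : ∀ y ∈ Y, Set.InjOn (fun a => mem u1 u2 y ⬝ᵥ a) U) (y : Option (ZMod p)) :
    (∀ a ∈ U, ∀ b ∈ U, mem u1 u2 y ⬝ᵥ a = mem u1 u2 y ⬝ᵥ b) ∨ Set.InjOn (fun a => mem u1 u2 y ⬝ᵥ a) U := by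
  classical
  apply gap h hh hp U hU (fun a => mem u1 u2 y ⬝ᵥ a)
  intro k hk1 hk2
  by_contra hne
  have h1 := pencil_zero U u1 u2 k hk1 y hne
  have h2 : Y ⊆ Finset.univ.filter (fun x : Option (ZMod p) => M U k (mem u1 u2 x) = 0) := by
    intro x hx
    rw [Finset.mem_filter]
    exact ⟨Finset.mem_univ _, M_of_inj hU (hinj x hx) (by omega)⟩
  have h3 := Finset.card_le_card h2
  omega

lemma section_line {A B D : Finset (Vec p)} (hD : Dirs A D) (hS : Sep A B) (hB : B.card = p * p)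
    (h : ℕ) (hh : 1 ≤ h) (hp : p = 2 * h + 1)
    (hDn : ∀ d ∈ D, ∀ d' ∈ D, ∀ s : ZMod p, d' = s • d → d = d')
    {u0 : Vec p} (hu0 : u0 ≠ 0) (hK : h + 1 ≤ (kill D u0).card) (c : ZMod p) :
    ∃ v : Vec p, v ≠ 0 ∧ u0 ⬝ᵥ v = 0 ∧ ∀ b ∈ Fib B u0 c, ∀ b' ∈ Fib B u0 c, ∃ s : ZMod p, b - b' = s • v := by
  classical
  obtain ⟨m1, m2, hf1, hf2⟩ := exists_frame hu0
  obtain ⟨d0, hd0⟩ := Finset.card_pos.mp (by omega : 0 < (kill D u0).card)
  have hFc : (Fib B u0 c).card = p := fiber_card hD hS hB hu0 (mem_kill.mp hd0).1 (mem_kill.mp hd0).2 c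
  have hky : ∀ d : Vec p, ∃ y : Option (ZMod p), mem m1 m2 y ⬝ᵥ d = 0 := fun d => exists_killer m1 m2 d
  choose ky hky using hky
  have hkinj : Set.InjOn ky (kill D u0) := by
    intro d hd d' hd' hdd
    rw [Finset.mem_coe, mem_kill] at hd hd'
    have e := hky d'
    rw [← hdd] at e
    obtain ⟨s, hs⟩ := ker2 (x := d') hu0 (hf2 (ky d)) (D_ne_zero hD d hd.1) hd.2 (hky d) hd'.2 e
    exact hDn d hd.1 d' hd'.1 s hs
  have hYc : h + 1 ≤ ((kill D u0).image ky).card := by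
    rw [Finset.card_image_of_injOn hkinj]; exact hK
  have hYinj : ∀ y ∈ (kill D u0).image ky, Set.InjOn (fun a => mem m1 m2 y ⬝ᵥ a) (Fib B u0 c) := by
    intro y hy
    obtain ⟨d, hd, rfl⟩ := Finset.mem_image.mp hy
    intro b hb b' hb' hbb
    rw [Finset.mem_coe, mem_Fib] at hb hb'
    rw [mem_kill] at hd
    exact fiber_inj hD hS hu0 (hf2 (ky d)) hd.1 hd.2 (hky d) hb.1 hb'.1 (by rw [hb.2, hb'.2]) hbb
  have hdich := pencil_dichotomy hFc h hh hp m1 m2 _ hYc hYinj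
  obtain ⟨b, hb, b', hb', hbb⟩ := Finset.one_lt_card.mp (by omega : 1 < (Fib B u0 c).card)
  have hv0 : b - b' ≠ 0 := sub_ne_zero.mpr hbb
  have hvu : u0 ⬝ᵥ (b - b') = 0 := by
    rw [dotProduct_sub, (mem_Fib.mp hb).2, (mem_Fib.mp hb').2, sub_self]
  refine ⟨b - b', hv0, hvu, ?_⟩
  obtain ⟨y, hy⟩ := exists_killer m1 m2 (b - b')
  rcases hdich y with hc | hc
  · intro b1 hb1 b2 hb2
    apply ker2 (x := b1 - b2) hu0 (hf2 y) hv0 hvu hy
    · rw [dotProduct_sub, (mem_Fib.mp hb1).2, (mem_Fib.mp hb2).2, sub_self]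
    · rw [dotProduct_sub, hc b1 hb1 b2 hb2, sub_self]
  · exfalso
    apply hbb
    apply hc hb hb'
    rw [dotProduct_sub] at hy
    exact sub_eq_zero.mp hy

end H758R3.Dir
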