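import Mathlib
import Pool.Agent.H758R3.Tile3

set_option autoImplicit false

open Finset

namespace H758R3.Dir

variable {p : ℕ} [Fact p.Prime]

lemma sum_pow_inj {U : Finset (Vec p)} (hU : U.card = p) {u : Vec p}
    (h : Set.InjOn (fun a => u ⬝ᵥ a) U) : ∑ a ∈ U, (u ⬝ᵥ a) ^ (p - 1) = -1 := by
  classical
  have h1 : U.image (fun a => u ⬝ᵥ a) = Finset.univ := by
    apply Finset.eq_univ_of_card
    rw [Finset.card_image_of_injOn h, hU, ZMod.card]
  have h2 : ∑ a ∈ U, (u ⬝ᵥ a) ^ (p - 1) = ∑ z ∈ U.image (fun a => u ⬝ᵥ a), z ^ (p - 1) := by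
    rw [Finset.sum_image h]
  rw [h2, h1]
  exact sum_pow_card_sub_one

lemma all_parallel {A B D : Finset (Vec p)} (hD : Dirs A D) (hA : A.card = p) (hnp : NonPlanar A)
    (hS : Sep A B) (hB : B.card = p * p)
    (h : ℕ) (hh : 1 ≤ h) (hp : p = 2 * h + 1)
    {u0 d0 : Vec p} (hu0 : u0 ≠ 0) (hd0 : d0 ∈ D) (hud0 : u0 ⬝ᵥ d0 = 0)
    (v : ZMod p → Vec p) (hv0 : ∀ c, v c ≠ 0) (hvu : ∀ c, u0 ⬝ᵥ v c = 0)
    (hv : ∀ c, ∀ b ∈ Fib B u0 c, ∀ b' ∈ Fib B u0 c, ∃ s : ZMod p, b - b' = s • v c)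
    {w : Vec p} (hwv : w ⬝ᵥ v 0 = 0) (hw : ∀ s : ZMod p, s • u0 + w ≠ 0) :
    ∀ c, w ⬝ᵥ v c = 0 := by
  classical
  by_contra hcon
  push Not at hcon
  obtain ⟨c1, hc1⟩ := hcon
  have hp2 := (Fact.out : p.Prime).two_le
  set Rr := Finset.univ.filter (fun c : ZMod p => w ⬝ᵥ v c ≠ 0) with hRr
  have hR1 : 1 ≤ Rr.card := Finset.card_pos.mpr ⟨c1, by rw [hRr, Finset.mem_filter]; exact ⟨Finset.mem_univ _, hc1⟩⟩
  have hR2 : Rr.card < p := by
    have h1 : Rr ⊂ Finset.univ := by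
      rw [Finset.ssubset_univ_iff]
      intro h0
      have h2 : (0 : ZMod p) ∈ Rr := by rw [h0]; exact Finset.mem_univ _
      rw [hRr, Finset.mem_filter] at h2
      exact h2.2 hwv
    have := Finset.card_lt_card h1
    rwa [Finset.card_univ, ZMod.card] at this
  have hinjA : ∀ s : ZMod p, Set.InjOn (fun a => mem u0 w (some s) ⬝ᵥ a) A := by
    intro s
    by_contra hni
    have hk : (kill D (mem u0 w (some s))).Nonempty := by
      by_contra hne
      exact hni (injOn_of_kill hD (Finset.not_nonempty_iff_eq_empty.mp hne))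
    obtain ⟨d, hd⟩ := hk
    rw [mem_kill] at hd
    have hξ0 : mem u0 w (some s) ≠ 0 := hw s
    have hsum := sum_equi hD hS hB hξ0 hd.1 hd.2 (fun z => z ^ (p - 1))
    rw [sum_fib B u0] at hsum
    have hFc : ∀ c, (Fib B u0 c).card = p := fun c => fiber_card hD hS hB hu0 hd0 hud0 c
    have hξv : ∀ c, mem u0 w (some s) ⬝ᵥ v c = w ⬝ᵥ v c := by
      intro c
      rw [mem_dot, hvu, mul_zero, zero_add]
    have hin : ∀ c, ∑ b ∈ Fib B u0 c, (mem u0 w (some s) ⬝ᵥ b) ^ (p - 1) =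
        if w ⬝ᵥ v c ≠ 0 then -1 else 0 := by
      intro c
      split_ifs with hc
      · apply sum_pow_inj (hFc c)
        intro b hb b' hb' hbb
        obtain ⟨t, ht⟩ := hv c b hb b' hb'
        have h1 : mem u0 w (some s) ⬝ᵥ (b - b') = 0 := by
          rw [dotProduct_sub]
          exact sub_eq_zero.mpr hbb
        rw [ht, dotProduct_smul, hξv, smul_eq_mul] at h1
        have h2 := (mul_eq_zero.mp h1).resolve_right hc
        rw [h2, zero_smul] at ht
        exact sub_eq_zero.mp ht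
      · push Not at hc
        obtain ⟨b0, hb0⟩ := Finset.card_pos.mp (by rw [hFc c]; omega : 0 < (Fib B u0 c).card)
        have h1 : ∑ b ∈ Fib B u0 c, (mem u0 w (some s) ⬝ᵥ b) ^ (p - 1) =
            ∑ _b ∈ Fib B u0 c, (mem u0 w (some s) ⬝ᵥ b0) ^ (p - 1) := by
          apply Finset.sum_congr rfl
          intro b hb
          obtain ⟨t, ht⟩ := hv c b hb b0 hb0
          have h2 : mem u0 w (some s) ⬝ᵥ (b - b0) = 0 := by
            rw [ht, dotProduct_smul, hξv, hc, smul_zero]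
          rw [dotProduct_sub] at h2
          rw [sub_eq_zero.mp h2]
        rw [h1, Finset.sum_const, hFc c, nsmul_eq_mul, CharP.cast_eq_zero, zero_mul]
    rw [Finset.sum_congr rfl (fun c _ => hin c)] at hsum
    have h3 : ∑ c : ZMod p, (if w ⬝ᵥ v c ≠ 0 then (-1 : ZMod p) else 0) = -(Rr.card : ZMod p) := by
      rw [← Finset.sum_filter, Finset.sum_const, nsmul_eq_mul, mul_neg, mul_one]
    rw [h3, neg_eq_zero, ZMod.natCast_eq_zero_iff] at hsum
    have := Nat.le_of_dvd (by omega) hsum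
    omega
  obtain ⟨k, hk1, hk2, hk3⟩ := gap_functional hD hA hnp h hh hp hu0 hd0 hud0
  have h1 := pencil_zero A u0 w k hk1 none hk3
  have h2 : (Finset.univ.image (some : ZMod p → Option (ZMod p))) ⊆
      Finset.univ.filter (fun x : Option (ZMod p) => M A k (mem u0 w x) = 0) := by
    intro x hx
    obtain ⟨s, _, rfl⟩ := Finset.mem_image.mp hx
    rw [Finset.mem_filter]
    exact ⟨Finset.mem_univ _, M_of_inj hA (hinjA s) (by omega)⟩
  have h3 := Finset.card_le_card h2
  rw [Finset.card_image_of_injective _ (Option.some_injective _), Finset.card_univ, ZMod.card] at h3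
  omega

theorem kill_le {A B D : Finset (Vec p)} (hD : Dirs A D) (hA : A.card = p) (hnp : NonPlanar A)
    (hS : Sep A B) (hB : B.card = p * p) (hnpB : NonPlanar B)
    (h : ℕ) (hh : 1 ≤ h) (hp : p = 2 * h + 1)
    (hDn : ∀ d ∈ D, ∀ d' ∈ D, ∀ s : ZMod p, d' = s • d → d = d')
    {u0 : Vec p} (hu0 : u0 ≠ 0) : (kill D u0).card ≤ h := by
  classical
  by_contra hK
  push Not at hK
  have hp2 := (Fact.out : p.Prime).two_le
  have hsec := section_line hD hS hB h hh hp hDn hu0 hK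
  choose v hv0 hvu hv using hsec
  obtain ⟨d0, hd0⟩ := Finset.card_pos.mp (by omega : 0 < (kill D u0).card)
  rw [mem_kill] at hd0
  obtain ⟨w, hwv, hw⟩ := exists_u2 u0 (v 0) (hv0 0)
  have hpar := all_parallel hD hA hnp hS hB h hh hp hu0 hd0.1 hd0.2 v hv0 hvu hv hwv hw
  have hFc : ∀ c, (Fib B u0 c).card = p := fun c => fiber_card hD hS hB hu0 hd0.1 hd0.2 c
  obtain ⟨v0, hv00⟩ : ∃ v0, v0 = v 0 := ⟨_, rfl⟩
  have hv0ne : v0 ≠ 0 := by rw [hv00]; exact hv0 0
  have huv0 : u0 ⬝ᵥ v0 = 0 := by rw [hv00]; exact hvu 0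
  have hwv0 : w ⬝ᵥ v0 = 0 := by rw [hv00]; exact hwv
  have hvs : ∀ c, ∀ b ∈ Fib B u0 c, ∀ b' ∈ Fib B u0 c, ∃ s : ZMod p, b - b' = s • v0 := by
    intro c b hb b' hb'
    obtain ⟨s, hs⟩ := hv c b hb b' hb'
    obtain ⟨t, ht⟩ := ker2 (x := v c) hu0 hw hv0ne huv0 hwv0 (hvu c) (hpar c)
    exact ⟨s * t, by rw [hs, ht, smul_smul]⟩
  have hex : ∀ c, ∃ b, b ∈ Fib B u0 c := by
    intro c
    exact Finset.card_pos.mp (by rw [hFc c]; omega)
  choose β hβ using hex
  have hβu : ∀ c, u0 ⬝ᵥ β c = c := fun c => (mem_Fib.mp (hβ c)).2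
  -- fibres are full lines
  have hfull : ∀ c (s : ZMod p), β c + s • v0 ∈ B := by
    intro c s
    have hsub : Fib B u0 c ⊆ Finset.univ.image (fun s : ZMod p => β c + s • v0) := by
      intro b hb
      obtain ⟨t, ht⟩ := hvs c b hb (β c) (hβ c)
      rw [Finset.mem_image]
      exact ⟨t, Finset.mem_univ _, by rw [← ht]; abel⟩
    have heq := Finset.eq_of_subset_of_card_le hsub (by
      rw [hFc c]
      refine Finset.card_image_le.trans ?_
      rw [Finset.card_univ, ZMod.card])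
    have : β c + s • v0 ∈ Fib B u0 c := by
      rw [heq, Finset.mem_image]
      exact ⟨s, Finset.mem_univ _, rfl⟩
    exact (mem_Fib.mp this).1
  have hβinj : Function.Injective β := by
    intro c c' hcc
    rw [← hβu c, ← hβu c', hcc]
  set B0 := Finset.univ.image β with hB0
  have hB0c : B0.card = p := by
    rw [hB0, Finset.card_image_of_injective _ hβinj, Finset.card_univ, ZMod.card]
  have halt : ∀ y : Option (ZMod p), Set.InjOn (fun a => mem u0 w y ⬝ᵥ a) A ∨
      Set.InjOn (fun a => mem u0 w y ⬝ᵥ a) B0 := by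
    intro y
    rcases y with _ | s
    · right
      intro b hb b' hb' hbb
      rw [hB0, Finset.mem_coe, Finset.mem_image] at hb hb'
      obtain ⟨c, _, rfl⟩ := hb
      obtain ⟨c', _, rfl⟩ := hb'
      have h1 : u0 ⬝ᵥ β c = u0 ⬝ᵥ β c' := hbb
      rw [hβu, hβu] at h1
      rw [h1]
    · by_contra hcon
      rw [not_or] at hcon
      obtain ⟨h1, h2⟩ := hcon
      simp only [Set.InjOn] at h1 h2
      push Not at h1 h2
      obtain ⟨a, ha, a', ha', haa, hane⟩ := h1
      obtain ⟨b, hb, b', hb', hbb, hbne⟩ := h2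
      rw [hB0, Finset.mem_coe, Finset.mem_image] at hb hb'
      obtain ⟨c, _, rfl⟩ := hb
      obtain ⟨c', _, rfl⟩ := hb'
      have hcc : c ≠ c' := fun h0 => hbne (by rw [h0])
      have hξx : mem u0 w (some s) ⬝ᵥ (a - a') = 0 := by
        rw [dotProduct_sub]; exact sub_eq_zero.mpr haa
      have hξe : mem u0 w (some s) ⬝ᵥ (β c - β c') = 0 := by
        rw [dotProduct_sub]; exact sub_eq_zero.mpr hbb
      have hue : u0 ⬝ᵥ (β c - β c') = c - c' := by rw [dotProduct_sub, hβu, hβu]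
      have hcc' : c - c' ≠ 0 := sub_ne_zero.mpr hcc
      obtain ⟨α, hα⟩ : ∃ α : ZMod p, α = (u0 ⬝ᵥ (a - a')) / (c - c') := ⟨_, rfl⟩
      have hu1 : u0 ⬝ᵥ ((a - a') - α • (β c - β c')) = 0 := by
        rw [dotProduct_sub, dotProduct_smul, hue, hα, smul_eq_mul]
        field_simp
        ring
      have hw1 : w ⬝ᵥ ((a - a') - α • (β c - β c')) = 0 := by
        have h3 : mem u0 w (some s) ⬝ᵥ ((a - a') - α • (β c - β c')) = 0 := by
          rw [dotProduct_sub, dotProduct_smul, hξx, hξe, smul_zero, sub_zero]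
        rw [mem_dot, hu1, mul_zero, zero_add] at h3
        exact h3
      obtain ⟨t, ht⟩ := ker2 hu0 hw hv0ne huv0 hwv0 hu1 hw1
      by_cases hα0 : α = 0
      · rw [hα0, zero_smul, sub_zero] at ht
        have ht0 : t ≠ 0 := by
          intro h0
          rw [h0, zero_smul] at ht
          exact hane (sub_eq_zero.mp ht)
        have h4 := hS a ha a' ha' (β c + (1 : ZMod p) • v0) (hfull c 1) (β c + (0 : ZMod p) • v0)
          (hfull c 0) t⁻¹ (by
            rw [ht, smul_smul, inv_mul_cancel₀ ht0]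
            simp)
        apply hv0ne
        have h5 : (1 : ZMod p) • v0 = (0 : ZMod p) • v0 := add_left_cancel h4
        rw [one_smul, zero_smul] at h5
        exact h5
      · have h6 := sep_swap hS a ha a' ha' (β c + (α⁻¹ * t) • v0) (hfull c _) (β c' + (0 : ZMod p) • v0)
          (hfull c' 0) α (by
            intro h0
            apply hcc
            have h7 := congrArg (fun x => u0 ⬝ᵥ x) h0
            simp only [dotProduct_add, dotProduct_smul, huv0, smul_zero, add_zero, hβu] at h7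
            exact h7) (by
            have h8 : a - a' = α • (β c - β c') + t • v0 := by rw [← ht]; abel
            rw [h8, zero_smul, add_zero, smul_sub, smul_sub, smul_add, smul_smul, ← mul_assoc,
              mul_inv_cancel₀ hα0, one_mul]
            abel)
        exact hane h6
  obtain ⟨k, hk1, hk2, hk3⟩ := gap_functional hD hA hnp h hh hp hu0 hd0.1 hd0.2
  have hz := pencil_zero A u0 w k hk1 none hk3
  obtain ⟨Y, hY⟩ : ∃ Y : Finset (Option (ZMod p)), Y =
    Finset.univ.filter (fun x : Option (ZMod p) => ¬ M A k (mem u0 w x) = 0) := ⟨_, rfl⟩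
  have hYc : h + 1 ≤ Y.card := by
    have h4 := Finset.card_filter_add_card_filter_not (s := (Finset.univ : Finset (Option (ZMod p))))
      (fun x => M A k (mem u0 w x) = 0)
    rw [Finset.card_univ, Fintype.card_option, ZMod.card, ← hY] at h4
    omega
  have hYinj : ∀ y ∈ Y, Set.InjOn (fun a => mem u0 w y ⬝ᵥ a) B0 := by
    intro y hy
    rcases halt y with h1 | h1
    · exfalso
      rw [hY, Finset.mem_filter] at hy
      exact hy.2 (M_of_inj hA h1 (by omega))
    · exact h1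
  have hdich := pencil_dichotomy hB0c h hh hp u0 w Y hYc hYinj
  obtain ⟨y, hy⟩ := exists_killer u0 w (β 0 - β 1)
  have h01 : (0 : ZMod p) ≠ 1 := zero_ne_one
  rcases hdich y with hc | hc
  · have hyne : mem u0 w y ≠ 0 := by
      rcases y with _ | s
      · exact hu0
      · exact hw s
    apply hnpB (mem u0 w y) hyne
    refine ⟨mem u0 w y ⬝ᵥ β 0, ?_⟩
    intro b hb
    have hbF : b ∈ Fib B u0 (u0 ⬝ᵥ b) := mem_Fib.mpr ⟨hb, rfl⟩
    obtain ⟨s, hs⟩ := hvs _ b hbF (β (u0 ⬝ᵥ b)) (hβ _)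
    have hyv : mem u0 w y ⬝ᵥ v0 = 0 := by
      rcases y with _ | s
      · exact huv0
      · rw [mem_dot, huv0, hwv0, mul_zero, add_zero]
    have h1 : mem u0 w y ⬝ᵥ (b - β (u0 ⬝ᵥ b)) = 0 := by
      rw [hs, dotProduct_smul, hyv, smul_zero]
    rw [dotProduct_sub] at h1
    rw [sub_eq_zero.mp h1]
    exact hc _ (Finset.mem_image_of_mem _ (Finset.mem_univ _)) _ (Finset.mem_image_of_mem _ (Finset.mem_univ _))
  · apply h01
    apply hβinj
    apply hc (Finset.mem_coe.mpr (Finset.mem_image_of_mem _ (Finset.mem_univ _)))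
      (Finset.mem_coe.mpr (Finset.mem_image_of_mem _ (Finset.mem_univ _)))
    rw [dotProduct_sub] at hy
    exact sub_eq_zero.mp hy

/-- the number of directions is at most `1 + (p + 1)(h - 1)` -/
theorem card_le {A B D : Finset (Vec p)} (hD : Dirs A D) (hA : A.card = p) (hnp : NonPlanar A)
    (hS : Sep A B) (hB : B.card = p * p) (hnpB : NonPlanar B)
    (h : ℕ) (hh : 1 ≤ h) (hp : p = 2 * h + 1)
    (hDn : ∀ d ∈ D, ∀ d' ∈ D, ∀ s : ZMod p, d' = s • d → d = d') :
    D.card ≤ 1 + (p + 1) * (h - 1) := by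
  classical
  obtain ⟨d0, hd0⟩ := D_nonempty hD hA
  have hd00 := D_ne_zero hD d0 hd0
  obtain ⟨u1, hu1, hu1d⟩ := exists_nonzero_orth d0
  obtain ⟨u2, hu2d, hu2⟩ : ∃ u2 : Vec p, u2 ⬝ᵥ d0 = 0 ∧ ∀ x : ZMod p, x • u1 + u2 ≠ 0 := exists_u2 u1 d0 hd00
  have hmem0 : ∀ y, mem u1 u2 y ≠ 0 := by
    intro y
    rcases y with _ | s
    · exact hu1
    · exact hu2 s
  have hmemd : ∀ y, mem u1 u2 y ⬝ᵥ d0 = 0 := by
    intro y
    rcases y with _ | s
    · exact hu1d
    · rw [mem_dot, hu1d, hu2d, mul_zero, add_zero]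
  have hsub : D.erase d0 ⊆ Finset.univ.biUnion (fun y => (kill D (mem u1 u2 y)).erase d0) := by
    intro d hd
    rw [Finset.mem_erase] at hd
    obtain ⟨y, hy⟩ := exists_killer u1 u2 d
    rw [Finset.mem_biUnion]
    exact ⟨y, Finset.mem_univ _, Finset.mem_erase.mpr ⟨hd.1, mem_kill.mpr ⟨hd.2, hy⟩⟩⟩
  have h1 := Finset.card_le_card hsub
  have h2 : (Finset.univ.biUnion (fun y => (kill D (mem u1 u2 y)).erase d0)).card ≤
      (Finset.univ : Finset (Option (ZMod p))).card * (h - 1) := by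
    apply Finset.card_biUnion_le_card_mul
    intro y _
    have h3 := kill_le hD hA hnp hS hB hnpB h hh hp hDn (hmem0 y)
    have h4 := Finset.card_erase_add_one (s := kill D (mem u1 u2 y)) (a := d0)
      (mem_kill.mpr ⟨hd0, hmemd y⟩)
    omega
  rw [Finset.card_univ, Fintype.card_option, ZMod.card] at h2
  have h5 := Finset.card_erase_add_one hd0
  omega

end H758R3.Dir
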