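import Mathlib
import Pool.Agent.H758R3.Tile4

set_option autoImplicit false

open Finset

namespace H758R3.Dir

/-- the directions determined by a set: lines spanned by differences of distinct points -/
def dirs {p : ℕ} (A : Set (Fin 3 → ZMod p)) : Set (Submodule (ZMod p) (Fin 3 → ZMod p)) :=
  {W | ∃ a ∈ A, ∃ b ∈ A, a ≠ b ∧ W = Submodule.span (ZMod p) {a - b}}

variable {p : ℕ} [Fact p.Prime]

lemma nonPlanar_of_closure {A : Finset (Vec p)} (h0 : (0 : Vec p) ∈ A)
    (hc : AddSubgroup.closure (A : Set (Vec p)) = ⊤) : NonPlanar A := by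
  intro u hu hcon
  obtain ⟨c, hc'⟩ := hcon
  have hc0 : c = 0 := by
    rw [← hc' 0 h0, dotProduct_zero]
  rw [hc0] at hc'
  have h1 : ∀ x ∈ AddSubgroup.closure (A : Set (Vec p)), u ⬝ᵥ x = 0 := by
    intro x hx
    induction hx using AddSubgroup.closure_induction with
    | mem x hx => exact hc' x (by exact_mod_cast hx)
    | zero => exact dotProduct_zero _
    | add x y _ _ hx hy => rw [dotProduct_add, hx, hy, add_zero]
    | neg x _ hx => rw [dotProduct_neg, hx, neg_zero]
  apply hu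
  funext i
  have h2 := h1 (Pi.single i 1) (by rw [hc]; exact AddSubgroup.mem_top _)
  rw [dotProduct_single, mul_one] at h2
  exact h2

lemma ne_two_of_nonPlanar {A : Finset (Vec p)} (hA : A.card = p) (hnp : NonPlanar A) : p ≠ 2 := by
  classical
  intro hp2
  have hA2 : A.card = 2 := by omega
  obtain ⟨a, b, hab, hAab⟩ := Finset.card_eq_two.mp hA2
  obtain ⟨φ, hφ, hφ1, _⟩ := exists_orth2 (a - b) (a - b)
  rw [dotProduct_sub] at hφ1
  apply hnp φ hφ
  refine ⟨φ ⬝ᵥ b, ?_⟩
  intro x hx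
  rw [hAab, Finset.mem_insert, Finset.mem_singleton] at hx
  rcases hx with rfl | rfl
  · exact sub_eq_zero.mp hφ1
  · rfl

lemma card_ne_one_of_nonPlanar {A : Finset (Vec p)} (hnp : NonPlanar A) : A.card ≠ 1 := by
  intro h
  obtain ⟨a, ha⟩ := Finset.card_eq_one.mp h
  obtain ⟨φ, hφ, _, _⟩ := exists_orth2 (0 : Vec p) 0
  apply hnp φ hφ
  refine ⟨φ ⬝ᵥ a, ?_⟩
  intro x hx
  rw [ha, Finset.mem_singleton] at hx
  rw [hx]

/-- the structure theorem for a factor of size `p` -/
theorem factor (A B : Finset (Vec p)) (hA : A.card = p) (hB : B.card = p * p)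
    (hS : Sep A B) (hnp : NonPlanar A) (hnpB : NonPlanar B) :
    p + 1 ≤ (dirs (A : Set (Vec p))).ncard ∧ 2 * (dirs (A : Set (Vec p))).ncard + 2 * p + 1 ≤ p ^ 2 ∧
      ∀ U : Submodule (ZMod p) (Vec p), U ≠ ⊤ →
        2 * {W ∈ dirs (A : Set (Vec p)) | W ≤ U}.ncard + 1 ≤ p := by
  classical
  set DD : Finset (Submodule (ZMod p) (Vec p)) :=
    A.offDiag.image (fun q => Submodule.span (ZMod p) {q.1 - q.2}) with hDD
  have hset : dirs (A : Set (Vec p)) = (DD : Set _) := by
    ext W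
    simp only [dirs, Set.mem_ofPred_eq, hDD, Finset.coe_image, Set.mem_image, Finset.mem_coe,
      Finset.mem_offDiag]
    constructor
    · rintro ⟨a, ha, b, hb, hab, rfl⟩
      exact ⟨(a, b), ⟨ha, hb, hab⟩, rfl⟩
    · rintro ⟨⟨a, b⟩, ⟨ha, hb, hab⟩, rfl⟩
      exact ⟨a, ha, b, hb, hab, rfl⟩
  have hrep : ∀ W ∈ DD, ∃ d : Vec p, (∃ a ∈ A, ∃ b ∈ A, a ≠ b ∧ d = a - b) ∧
      W = Submodule.span (ZMod p) {d} := by
    intro W hW
    rw [hDD, Finset.mem_image] at hW
    obtain ⟨⟨a, b⟩, hq, rfl⟩ := hW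
    rw [Finset.mem_offDiag] at hq
    exact ⟨a - b, ⟨a, hq.1, b, hq.2.1, hq.2.2, rfl⟩, rfl⟩
  choose! r hr1 hr2 using hrep
  set D : Finset (Vec p) := DD.image r with hD
  have hrinj : Set.InjOn r DD := by
    intro W hW W' hW' h
    rw [hr2 W hW, hr2 W' hW', h]
  have hDc : D.card = DD.card := Finset.card_image_of_injOn hrinj
  have hdirs : Dirs A D := by
    constructor
    · intro d hd
      rw [hD, Finset.mem_image] at hd
      obtain ⟨W, hW, rfl⟩ := hd
      exact hr1 W hW
    · intro a ha b hb hab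
      obtain ⟨W0, hW0⟩ : ∃ W0 : Submodule (ZMod p) (Vec p),
        W0 = Submodule.span (ZMod p) {a - b} := ⟨_, rfl⟩
      have hW : W0 ∈ DD := by
        rw [hDD, Finset.mem_image]
        exact ⟨(a, b), by rw [Finset.mem_offDiag]; exact ⟨ha, hb, hab⟩, hW0.symm⟩
      refine ⟨r W0, Finset.mem_image_of_mem r hW, ?_⟩
      have h3 := hr2 _ hW
      have h4 : r W0 ∈ Submodule.span (ZMod p) {r W0} := Submodule.mem_span_singleton_self _
      rw [← h3] at h4
      have h5 : ∀ x ∈ W0, ∃ c : ZMod p, c • (a - b) = x := by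
        intro x hx
        rw [hW0] at hx
        exact Submodule.mem_span_singleton.mp hx
      obtain ⟨c, hc⟩ := h5 _ h4
      refine ⟨c, ?_, hc.symm⟩
      intro hc0
      rw [hc0, zero_smul] at hc
      obtain ⟨a', _, b', _, hab', hr'⟩ := hr1 _ hW
      rw [← hc] at hr'
      exact hab' (sub_eq_zero.mp hr'.symm)
  have hD0 := D_ne_zero hdirs
  have hDn : ∀ d ∈ D, ∀ d' ∈ D, ∀ s : ZMod p, d' = s • d → d = d' := by
    intro d hd d' hd' s hs
    have hs0 : s ≠ 0 := by
      intro h0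
      rw [h0, zero_smul] at hs
      exact hD0 d' hd' hs
    rw [hD, Finset.mem_image] at hd hd'
    obtain ⟨W, hW, rfl⟩ := hd
    obtain ⟨W', hW', rfl⟩ := hd'
    have h1 : W = W' := by
      rw [hr2 W hW, hr2 W' hW', hs]
      exact (Submodule.span_singleton_smul_eq (IsUnit.mk0 s hs0) _).symm
    rw [h1]
  have hp2 := ne_two_of_nonPlanar hA hnp
  have hpp := (Fact.out : p.Prime)
  obtain ⟨h, hp⟩ : ∃ h, p = 2 * h + 1 := by
    rcases hpp.eq_two_or_odd with h1 | h1
    · exact absurd h1 hp2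
    · exact ⟨p / 2, by omega⟩
  have hp2' := hpp.two_le
  have hh : 1 ≤ h := by omega
  have hn : (dirs (A : Set (Vec p))).ncard = D.card := by
    rw [hset, Set.ncard_coe_finset, hDc]
  refine ⟨?_, ?_, ?_⟩
  · rw [hn]
    by_contra hlt
    push Not at hlt
    exact main hdirs hA hnp (by omega) hD0
  · rw [hn]
    have h1 := card_le hdirs hA hnp hS hB hnpB h hh hp hDn
    obtain ⟨j, hj⟩ : ∃ j, h = j + 1 := ⟨h - 1, by omega⟩
    have h2 : h - 1 = j := by omega
    rw [h2] at h1
    have h3 : p = 2 * j + 3 := by omega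
    subst h3
    nlinarith
  · intro U hU
    obtain ⟨f, hf0, hf⟩ := Submodule.exists_le_ker_of_lt_top U (lt_top_iff_ne_top.mpr hU)
    obtain ⟨φ, hφ⟩ := functional_dot f
    have hφ0 : φ ≠ 0 := by
      intro h0
      apply hf0
      ext x
      simp [hφ, h0]
    have hk := kill_le hdirs hA hnp hS hB hnpB h hh hp hDn hφ0
    have hsub : {W ∈ dirs (A : Set (Vec p)) | W ≤ U} ⊆
        ((DD.filter (fun W => r W ∈ kill D φ) : Finset _) : Set (Submodule (ZMod p) (Vec p))) := by
      rintro W ⟨hW1, hW2⟩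
      rw [hset] at hW1
      rw [Finset.mem_coe, Finset.mem_filter]
      have hW1' : W ∈ DD := by exact_mod_cast hW1
      refine ⟨hW1', mem_kill.mpr ⟨Finset.mem_image_of_mem r hW1', ?_⟩⟩
      have h4 : r W ∈ W := by
        have h5 : r W ∈ Submodule.span (ZMod p) {r W} := Submodule.mem_span_singleton_self _
        rw [← hr2 W hW1'] at h5
        exact h5
      have h6 : f (r W) = 0 := hf (hW2 h4)
      rw [hφ] at h6
      exact h6
    have h7 := Set.ncard_le_ncard hsub (Finset.finite_toSet _)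
    rw [Set.ncard_coe_finset] at h7
    have h8 : (DD.filter (fun W => r W ∈ kill D φ)).card ≤ (kill D φ).card := by
      apply Finset.card_le_card_of_injOn r
      · intro W hW
        rw [Finset.mem_coe, Finset.mem_filter] at hW
        exact hW.2
      · intro W hW W' hW' h9
        rw [Finset.mem_coe, Finset.mem_filter] at hW hW'
        exact hrinj (Finset.mem_coe.mpr hW.1) (Finset.mem_coe.mpr hW'.1) h9
    omega

end H758R3.Dir
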