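import Mathlib
import Pool.Agent.H758R3.Tile5

set_option autoImplicit false

open Finset

namespace H758R3.Dir

variable {p : ℕ} [Fact p.Prime]

/-- a periodic second factor is impossible -/
theorem periodic_absurd {A B D : Finset (Vec p)} (hD : Dirs A D) (hA : A.card = p) (hnp : NonPlanar A)
    (hS : Sep A B) (hB : B.card = p * p) (hnpB : NonPlanar B)
    (h : ℕ) (hh : 1 ≤ h) (hp : p = 2 * h + 1)
    {v0 : Vec p} (hv0ne : v0 ≠ 0) (hper : ∀ b ∈ B, ∀ s : ZMod p, b + s • v0 ∈ B) : False := by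
  classical
  have hp2 := (Fact.out : p.Prime).two_le
  obtain ⟨d0, hd0D⟩ := D_nonempty hD hA
  obtain ⟨u0, hu0, hud0, huv0⟩ := exists_orth2 d0 v0
  have hd0 : d0 ∈ D ∧ u0 ⬝ᵥ d0 = 0 := ⟨hd0D, hud0⟩
  obtain ⟨w, hwv0, hw⟩ := exists_u2 u0 v0 hv0ne
  have hFc : ∀ c, (Fib B u0 c).card = p := fun c => fiber_card hD hS hB hu0 hd0.1 hd0.2 c
  have hsm : Function.Injective (fun s : ZMod p => s • v0) := smul_left_injective _ hv0ne
  have hvs : ∀ c, ∀ b ∈ Fib B u0 c, ∀ b' ∈ Fib B u0 c, ∃ s : ZMod p, b - b' = s • v0 := by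
    intro c b hb b' hb'
    have hsub : Finset.univ.image (fun s : ZMod p => b' + s • v0) ⊆ Fib B u0 c := by
      intro x hx
      obtain ⟨s, _, rfl⟩ := Finset.mem_image.mp hx
      rw [mem_Fib] at hb' ⊢
      refine ⟨hper b' hb'.1 s, ?_⟩
      rw [dotProduct_add, dotProduct_smul, huv0, smul_zero, add_zero]
      exact hb'.2
    have heq := Finset.eq_of_subset_of_card_le hsub (by
      rw [hFc c, Finset.card_image_of_injective, Finset.card_univ, ZMod.card]
      intro s t hst
      exact hsm (add_left_cancel hst))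
    rw [← heq, Finset.mem_image] at hb
    obtain ⟨s, _, hs⟩ := hb
    exact ⟨s, by rw [← hs]; abel⟩
  have hex : ∀ c, ∃ b, b ∈ Fib B u0 c := by
    intro c
    exact Finset.card_pos.mp (by rw [hFc c]; omega)
  choose β hβ using hex
  have hβu : ∀ c, u0 ⬝ᵥ β c = c := fun c => (mem_Fib.mp (hβ c)).2
  -- fibres are full lines
  have hfull : ∀ c (s : ZMod p), β c + s • v0 ∈ B := by
    intro c s
    exact hper _ (mem_Fib.mp (hβ c)).1 s
  have hβinj : Function.Injective β := by
    intro c c' hcc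
    rw [← hβu c, ← hβu c', hcc]
  set B0 := Finset.univ.image β with hB0
  have hB0c : B0.card = p := by
    rw [hB0, Finset.card_image_of_injective _ hβinj, Finset.card_univ, ZMod.card]
  have halt : ∀ y : Option (ZMod p), Set.InjOn (fun a => mem u0 w y ⬝ᵥ a) A ∨
      Set.InjOn (fun a => mem u0 w y ⬝ᵥ a) B0 := by
    intro y
    rcases y with _ | s
    · right
      intro b hb b' hb' hbb
      rw [hB0, Finset.mem_coe, Finset.mem_image] at hb hb'
      obtain ⟨c, _, rfl⟩ := hb
      obtain ⟨c', _, rfl⟩ := hb'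
      have h1 : u0 ⬝ᵥ β c = u0 ⬝ᵥ β c' := hbb
      rw [hβu, hβu] at h1
      rw [h1]
    · by_contra hcon
      rw [not_or] at hcon
      obtain ⟨h1, h2⟩ := hcon
      simp only [Set.InjOn] at h1 h2
      push Not at h1 h2
      obtain ⟨a, ha, a', ha', haa, hane⟩ := h1
      obtain ⟨b, hb, b', hb', hbb, hbne⟩ := h2
      rw [hB0, Finset.mem_coe, Finset.mem_image] at hb hb'
      obtain ⟨c, _, rfl⟩ := hb
      obtain ⟨c', _, rfl⟩ := hb'
      have hcc : c ≠ c' := fun h0 => hbne (by rw [h0])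
      have hξx : mem u0 w (some s) ⬝ᵥ (a - a') = 0 := by
        rw [dotProduct_sub]; exact sub_eq_zero.mpr haa
      have hξe : mem u0 w (some s) ⬝ᵥ (β c - β c') = 0 := by
        rw [dotProduct_sub]; exact sub_eq_zero.mpr hbb
      have hue : u0 ⬝ᵥ (β c - β c') = c - c' := by rw [dotProduct_sub, hβu, hβu]
      have hcc' : c - c' ≠ 0 := sub_ne_zero.mpr hcc
      obtain ⟨α, hα⟩ : ∃ α : ZMod p, α = (u0 ⬝ᵥ (a - a')) / (c - c') := ⟨_, rfl⟩
      have hu1 : u0 ⬝ᵥ ((a - a') - α • (β c - β c')) = 0 := by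
        rw [dotProduct_sub, dotProduct_smul, hue, hα, smul_eq_mul]
        field_simp
        ring
      have hw1 : w ⬝ᵥ ((a - a') - α • (β c - β c')) = 0 := by
        have h3 : mem u0 w (some s) ⬝ᵥ ((a - a') - α • (β c - β c')) = 0 := by
          rw [dotProduct_sub, dotProduct_smul, hξx, hξe, smul_zero, sub_zero]
        rw [mem_dot, hu1, mul_zero, zero_add] at h3
        exact h3
      obtain ⟨t, ht⟩ := ker2 hu0 hw hv0ne huv0 hwv0 hu1 hw1
      by_cases hα0 : α = 0
      · rw [hα0, zero_smul, sub_zero] at ht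
        have ht0 : t ≠ 0 := by
          intro h0
          rw [h0, zero_smul] at ht
          exact hane (sub_eq_zero.mp ht)
        have h4 := hS a ha a' ha' (β c + (1 : ZMod p) • v0) (hfull c 1) (β c + (0 : ZMod p) • v0)
          (hfull c 0) t⁻¹ (by
            rw [ht, smul_smul, inv_mul_cancel₀ ht0]
            simp)
        apply hv0ne
        have h5 : (1 : ZMod p) • v0 = (0 : ZMod p) • v0 := add_left_cancel h4
        rw [one_smul, zero_smul] at h5
        exact h5
      · have h6 := sep_swap hS a ha a' ha' (β c + (α⁻¹ * t) • v0) (hfull c _) (β c' + (0 : ZMod p) • v0)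
          (hfull c' 0) α (by
            intro h0
            apply hcc
            have h7 := congrArg (fun x => u0 ⬝ᵥ x) h0
            simp only [dotProduct_add, dotProduct_smul, huv0, smul_zero, add_zero, hβu] at h7
            exact h7) (by
            have h8 : a - a' = α • (β c - β c') + t • v0 := by rw [← ht]; abel
            rw [h8, zero_smul, add_zero, smul_sub, smul_sub, smul_add, smul_smul, ← mul_assoc,
              mul_inv_cancel₀ hα0, one_mul]
            abel)
        exact hane h6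
  obtain ⟨k, hk1, hk2, hk3⟩ := gap_functional hD hA hnp h hh hp hu0 hd0.1 hd0.2
  have hz := pencil_zero A u0 w k hk1 none hk3
  obtain ⟨Y, hY⟩ : ∃ Y : Finset (Option (ZMod p)), Y =
    Finset.univ.filter (fun x : Option (ZMod p) => ¬ M A k (mem u0 w x) = 0) := ⟨_, rfl⟩
  have hYc : h + 1 ≤ Y.card := by
    have h4 := Finset.card_filter_add_card_filter_not (s := (Finset.univ : Finset (Option (ZMod p))))
      (fun x => M A k (mem u0 w x) = 0)
    rw [Finset.card_univ, Fintype.card_option, ZMod.card, ← hY] at h4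
    omega
  have hYinj : ∀ y ∈ Y, Set.InjOn (fun a => mem u0 w y ⬝ᵥ a) B0 := by
    intro y hy
    rcases halt y with h1 | h1
    · exfalso
      rw [hY, Finset.mem_filter] at hy
      exact hy.2 (M_of_inj hA h1 (by omega))
    · exact h1
  have hdich := pencil_dichotomy hB0c h hh hp u0 w Y hYc hYinj
  obtain ⟨y, hy⟩ := exists_killer u0 w (β 0 - β 1)
  have h01 : (0 : ZMod p) ≠ 1 := zero_ne_one
  rcases hdich y with hc | hc
  · have hyne : mem u0 w y ≠ 0 := by
      rcases y with _ | s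
      · exact hu0
      · exact hw s
    apply hnpB (mem u0 w y) hyne
    refine ⟨mem u0 w y ⬝ᵥ β 0, ?_⟩
    intro b hb
    have hbF : b ∈ Fib B u0 (u0 ⬝ᵥ b) := mem_Fib.mpr ⟨hb, rfl⟩
    obtain ⟨s, hs⟩ := hvs _ b hbF (β (u0 ⬝ᵥ b)) (hβ _)
    have hyv : mem u0 w y ⬝ᵥ v0 = 0 := by
      rcases y with _ | s
      · exact huv0
      · rw [mem_dot, huv0, hwv0, mul_zero, add_zero]
    have h1 : mem u0 w y ⬝ᵥ (b - β (u0 ⬝ᵥ b)) = 0 := by
      rw [hs, dotProduct_smul, hyv, smul_zero]
    rw [dotProduct_sub] at h1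
    rw [sub_eq_zero.mp h1]
    exact hc _ (Finset.mem_image_of_mem _ (Finset.mem_univ _)) _ (Finset.mem_image_of_mem _ (Finset.mem_univ _))
  · apply h01
    apply hβinj
    apply hc (Finset.mem_coe.mpr (Finset.mem_image_of_mem _ (Finset.mem_univ _)))
      (Finset.mem_coe.mpr (Finset.mem_image_of_mem _ (Finset.mem_univ _)))
    rw [dotProduct_sub] at hy
    exact sub_eq_zero.mp hy


lemma card_orth {y : Vec p} (hy : y ≠ 0) :
    (Finset.univ.filter (fun ξ : Vec p => ξ ⬝ᵥ y = 0)).card = p * p := by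
  classical
  obtain ⟨i, hi⟩ : ∃ i, y i ≠ 0 := by
    by_contra hcon
    push Not at hcon
    exact hy (funext hcon)
  obtain ⟨e, he⟩ : ∃ e : Vec p, e ⬝ᵥ y = 1 :=
    ⟨Pi.single i (y i)⁻¹, by rw [single_dotProduct, inv_mul_cancel₀ hi]⟩
  have hc : ∀ c : ZMod p, (Finset.univ.filter (fun ξ : Vec p => ξ ⬝ᵥ y = c)).card =
      (Finset.univ.filter (fun ξ : Vec p => ξ ⬝ᵥ y = 0)).card := by
    intro c
    symm
    apply Finset.card_bij (fun ξ _ => ξ + c • e)
    · intro ξ hξ
      rw [Finset.mem_filter] at hξ ⊢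
      refine ⟨Finset.mem_univ _, ?_⟩
      rw [add_dotProduct, smul_dotProduct, hξ.2, he, zero_add, smul_eq_mul, mul_one]
    · intro ξ _ ξ' _ h
      exact add_right_cancel h
    · intro ξ hξ
      rw [Finset.mem_filter] at hξ
      refine ⟨ξ - c • e, ?_, by abel⟩
      rw [Finset.mem_filter]
      refine ⟨Finset.mem_univ _, ?_⟩
      rw [sub_dotProduct, smul_dotProduct, hξ.2, he, smul_eq_mul, mul_one, sub_self]
  have hsum : (Finset.univ : Finset (Vec p)).card =
      ∑ c : ZMod p, (Finset.univ.filter (fun ξ : Vec p => ξ ⬝ᵥ y = c)).card :=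
    Finset.card_eq_sum_card_fiberwise (f := fun ξ : Vec p => ξ ⬝ᵥ y) (t := Finset.univ)
      (fun ξ _ => by simp)
  rw [Finset.sum_congr rfl (fun c _ => hc c), Finset.sum_const, Finset.card_univ, Finset.card_univ,
    ZMod.card, smul_eq_mul] at hsum
  have hG : Fintype.card (Vec p) = p ^ 3 := by simp [Vec, ZMod.card]
  rw [hG] at hsum
  have hp0 := (Fact.out : p.Prime).pos
  apply Nat.eq_of_mul_eq_mul_left hp0
  rw [← hsum]; ring

lemma count_all (B : Finset (Vec p)) (x : Vec p) :
    ∑ ξ : Vec p, (Fib B ξ (ξ ⬝ᵥ x)).card =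
      B.card * (p * p) + (if x ∈ B then p ^ 3 - p * p else 0) := by
  classical
  have h1 : ∀ ξ : Vec p, (Fib B ξ (ξ ⬝ᵥ x)).card = ∑ b ∈ B, (if ξ ⬝ᵥ (b - x) = 0 then 1 else 0) := by
    intro ξ
    rw [Fib, Finset.card_filter]
    apply Finset.sum_congr rfl
    intro b _
    simp only [dotProduct_sub, sub_eq_zero]
  have hG : Fintype.card (Vec p) = p ^ 3 := by simp [Vec, ZMod.card]
  have hle : p * p ≤ p ^ 3 := by
    have hp0 := (Fact.out : p.Prime).pos
    nlinarith [Nat.mul_le_mul_left (p * p) hp0]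
  rw [Finset.sum_congr rfl (fun ξ _ => h1 ξ), Finset.sum_comm]
  have h2 : ∀ b ∈ B, ∑ ξ : Vec p, (if ξ ⬝ᵥ (b - x) = 0 then 1 else 0) =
      p * p + (if b = x then p ^ 3 - p * p else 0) := by
    intro b _
    rw [← Finset.card_filter]
    by_cases hbx : b = x
    · rw [if_pos hbx, hbx, sub_self]
      simp only [dotProduct_zero, Finset.filter_true, Finset.card_univ]
      rw [hG]; omega
    · rw [if_neg hbx, add_zero, card_orth (sub_ne_zero.mpr hbx)]
  rw [Finset.sum_congr rfl h2, Finset.sum_add_distrib, Finset.sum_const, smul_eq_mul]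
  congr 1
  rw [Finset.sum_ite_eq' B x]

/-- the functionals which are not equidistributed on the second factor span the dual space -/
theorem spans {A B D : Finset (Vec p)} (hD : Dirs A D) (hA : A.card = p) (hnp : NonPlanar A)
    (hS : Sep A B) (hB : B.card = p * p) (hnpB : NonPlanar B)
    (h : ℕ) (hh : 1 ≤ h) (hp : p = 2 * h + 1)
    {v0 : Vec p} (hv0ne : v0 ≠ 0) : ∃ ξ : Vec p, ξ ⬝ᵥ v0 ≠ 0 ∧ ∃ c, (Fib B ξ c).card ≠ p := by
  classical
  by_contra hcon
  push Not at hcon
  have hp2 := (Fact.out : p.Prime).two_le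
  have hstep : ∀ b ∈ B, b + v0 ∈ B := by
    intro b hb
    have h1 := count_all B b
    have h2 := count_all B (b + v0)
    have h3 : ∑ ξ : Vec p, (Fib B ξ (ξ ⬝ᵥ (b + v0))).card = ∑ ξ : Vec p, (Fib B ξ (ξ ⬝ᵥ b)).card := by
      apply Finset.sum_congr rfl
      intro ξ _
      by_cases hξ : ξ ⬝ᵥ v0 = 0
      · rw [dotProduct_add, hξ, add_zero]
      · rw [hcon ξ hξ, hcon ξ hξ]
    rw [h1, h2, if_pos hb] at h3
    by_contra hnb
    rw [if_neg hnb] at h3
    have : p * p < p ^ 3 := by nlinarith [Nat.mul_le_mul_left (p * p) hp2]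
    omega
  apply periodic_absurd hD hA hnp hS hB hnpB h hh hp hv0ne
  have hn : ∀ n : ℕ, ∀ b ∈ B, b + n • v0 ∈ B := by
    intro n
    induction n with
    | zero => intro b hb; simpa using hb
    | succ n ih =>
      intro b hb
      have := hstep _ (ih b hb)
      rw [succ_nsmul, ← add_assoc]
      exact this
  intro b hb s
  have := hn s.val b hb
  rw [← Nat.cast_smul_eq_nsmul (ZMod p), ZMod.natCast_zmod_val] at this
  exact this

end H758R3.Dir
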