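import Mathlib
import Pool.Agent.H758R3.Tile5

set_option autoImplicit false

open Finset

namespace H758R3.Dir

variable {p : ℕ} [Fact p.Prime]

/-- sums of powers of a linear form over the plane vanish -/
lemma plane_sum {K : Type*} [Field K] [Algebra (ZMod p) K] (l m : K) (j : ℕ) (hj : j ≤ p - 1) :
    ∑ s : ZMod p, ∑ t : ZMod p, (l * algebraMap (ZMod p) K s + m * algebraMap (ZMod p) K t) ^ j = 0 := by
  classical
  have hp2 := (Fact.out : p.Prime).two_le
  have hpow : ∀ i : ℕ, i < p - 1 → ∑ s : ZMod p, (algebraMap (ZMod p) K s) ^ i = 0 := by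
    intro i hi
    have h1 : ∑ s : ZMod p, s ^ i = 0 := FiniteField.sum_pow_lt_card_sub_one (ZMod p) i (by rwa [ZMod.card])
    have h2 := congrArg (algebraMap (ZMod p) K) h1
    rw [map_sum, map_zero] at h2
    rw [← h2]
    apply Finset.sum_congr rfl
    intro s _
    rw [map_pow]
  have h3 : ∑ s : ZMod p, ∑ t : ZMod p, (l * algebraMap (ZMod p) K s + m * algebraMap (ZMod p) K t) ^ j =
      ∑ i ∈ Finset.range (j + 1), (l ^ i * m ^ (j - i) * (j.choose i : K)) *
        ((∑ s : ZMod p, (algebraMap (ZMod p) K s) ^ i) * ∑ t : ZMod p, (algebraMap (ZMod p) K t) ^ (j - i)) := by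
    have h4 : ∀ i ∈ Finset.range (j + 1), (l ^ i * m ^ (j - i) * (j.choose i : K)) *
        ((∑ s : ZMod p, (algebraMap (ZMod p) K s) ^ i) * ∑ t : ZMod p, (algebraMap (ZMod p) K t) ^ (j - i)) =
        ∑ s : ZMod p, ∑ t : ZMod p, (l * algebraMap (ZMod p) K s) ^ i *
          (m * algebraMap (ZMod p) K t) ^ (j - i) * (j.choose i : K) := by
      intro i _
      rw [Finset.sum_mul_sum, Finset.mul_sum]
      apply Finset.sum_congr rfl
      intro s _
      rw [Finset.mul_sum]
      apply Finset.sum_congr rfl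
      intro t _
      rw [mul_pow, mul_pow]; ring
    rw [Finset.sum_congr rfl h4]
    symm
    rw [Finset.sum_comm]
    apply Finset.sum_congr rfl
    intro s _
    rw [Finset.sum_comm]
    apply Finset.sum_congr rfl
    intro t _
    rw [add_pow]
  rw [h3]
  apply Finset.sum_eq_zero
  intro i hi
  rw [Finset.mem_range] at hi
  by_cases h5 : i < p - 1
  · rw [hpow i h5, zero_mul, mul_zero]
  · rw [hpow (j - i) (by omega), mul_zero, mul_zero]

/-- the base claim: power sums of a form (over an extension) killing an undetermined direction -/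
lemma base_claim {K : Type*} [Field K] [Algebra (ZMod p) K] {A B D : Finset (Vec p)}
    (hD : Dirs A D) (hS : Sep A B) (hB : B.card = p * p) {d : Vec p} (hd : d ∈ D)
    (L : Vec p →ₗ[ZMod p] K) (hL : L d = 0) (j : ℕ) (hj : j ≤ p - 1) :
    ∑ b ∈ B, (L b) ^ j = 0 := by
  classical
  have hd0 := D_ne_zero hD d hd
  obtain ⟨i, hi⟩ : ∃ i, d i ≠ 0 := by
    by_contra hcon
    push Not at hcon
    exact hd0 (funext hcon)
  -- coordinates
  obtain ⟨y, hy⟩ : ∃ y : Vec p → Fin 3 → ZMod p, y = fun x k => x k - x i * (d k / d i) := ⟨_, rfl⟩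
  have hyi : ∀ x, y x i = 0 := by
    intro x; rw [hy]; field_simp; ring
  have hLy : ∀ x, L x = L (Pi.single (i + 1) 1) * algebraMap (ZMod p) K (y x (i + 1)) +
      L (Pi.single (i + 2) 1) * algebraMap (ZMod p) K (y x (i + 2)) := by
    intro x
    have h1 : x = (x i / d i) • d + ((y x (i + 1)) • (Pi.single (i + 1) 1 : Vec p) +
        (y x (i + 2)) • (Pi.single (i + 2) 1 : Vec p)) := by
      rw [hy]
      funext k
      fin_cases i <;> fin_cases k <;> simp at hi ⊢ <;> field_simp <;> ring
    have h2 : L x = L ((x i / d i) • d + ((y x (i + 1)) • (Pi.single (i + 1) 1 : Vec p) +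
        (y x (i + 2)) • (Pi.single (i + 2) 1 : Vec p))) := congrArg L h1
    rw [h2, map_add, map_add, map_smul, map_smul, map_smul, hL, smul_zero, zero_add,
      Algebra.smul_def, Algebra.smul_def]
    ring
  have hinj : Set.InjOn (fun b => (y b (i + 1), y b (i + 2))) (B : Set (Vec p)) := by
    intro b hb b' hb' hbb
    have h1 : y b (i + 1) = y b' (i + 1) := congrArg Prod.fst hbb
    have h2 : y b (i + 2) = y b' (i + 2) := congrArg Prod.snd hbb
    obtain ⟨a, ha, a', ha', _, rfl⟩ := hD.rep d hd
    apply hS a ha a' ha' b (by exact_mod_cast hb) b' (by exact_mod_cast hb') ((b i - b' i) / (a - a') i)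
    rw [hy] at h1 h2
    simp only at h1 h2
    generalize a - a' = d at *
    funext k
    simp only [Pi.sub_apply, Pi.smul_apply, smul_eq_mul]
    have h3 : b i - b' i = (b i - b' i) / d i * d i := by field_simp
    have h4 : b (i + 1) - b' (i + 1) = (b i - b' i) / d i * d (i + 1) := by
      have : b (i + 1) - b' (i + 1) = b i * (d (i + 1) / d i) - b' i * (d (i + 1) / d i) := by
        linear_combination h1
      rw [this]; ring
    have h5 : b (i + 2) - b' (i + 2) = (b i - b' i) / d i * d (i + 2) := by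
      have : b (i + 2) - b' (i + 2) = b i * (d (i + 2) / d i) - b' i * (d (i + 2) / d i) := by
        linear_combination h2
      rw [this]; ring
    fin_cases i <;> fin_cases k <;> first | exact h3 | exact h4 | exact h5
  have himg : B.image (fun b => (y b (i + 1), y b (i + 2))) = Finset.univ := by
    apply Finset.eq_univ_of_card
    rw [Finset.card_image_of_injOn hinj, hB, Fintype.card_prod, ZMod.card]
  have h6 : ∑ b ∈ B, (L b) ^ j = ∑ q ∈ B.image (fun b => (y b (i + 1), y b (i + 2))),
      (L (Pi.single (i + 1) 1) * algebraMap (ZMod p) K q.1 +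
      L (Pi.single (i + 2) 1) * algebraMap (ZMod p) K q.2) ^ j := by
    rw [Finset.sum_image hinj]
    apply Finset.sum_congr rfl
    intro b _
    rw [hLy b]
  rw [h6, himg, ← plane_sum (p := p) (L (Pi.single (i + 1) 1)) (L (Pi.single (i + 2) 1)) j hj,
    Fintype.sum_prod_type]

end H758R3.Dir
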