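import Mathlib
import Pool.Agent.H758R3.Mom2

set_option autoImplicit false

open Finset

namespace H758R3.Dir

variable {p : ℕ} [Fact p.Prime]

/-- the generic functional with values in polynomials -/
noncomputable def gen (p : ℕ) [Fact p.Prime] : Vec p →ₗ[ZMod p] Polynomial (ZMod p) :=
  { toFun := fun d => Polynomial.C (d 0) + Polynomial.C (d 1) * Polynomial.X +
      Polynomial.C (d 2) * Polynomial.X ^ 2
    map_add' := by
      intro x y
      simp only [Pi.add_apply, map_add]; ring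
    map_smul' := by
      intro c x
      simp only [Pi.smul_apply, smul_eq_mul, map_mul, RingHom.id_apply, Polynomial.smul_eq_C_mul]
      ring }

lemma gen_inj {d : Vec p} (h : gen p d = 0) : d = 0 := by
  have h' : Polynomial.C (d 0) + Polynomial.C (d 1) * Polynomial.X +
      Polynomial.C (d 2) * Polynomial.X ^ 2 = 0 := h
  have h0 := congrArg (fun q => Polynomial.coeff q 0) h'
  have h1 := congrArg (fun q => Polynomial.coeff q 1) h'
  have h2 := congrArg (fun q => Polynomial.coeff q 2) h'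
  simp [Polynomial.coeff_X, Polynomial.coeff_C, Polynomial.coeff_X_pow] at h0 h1 h2
  funext k
  fin_cases k
  · simpa using h0
  · simpa using h1
  · simpa using h2

lemma powers_aux {K : Type*} [Field K] [Algebra (ZMod p) K] {A B D : Finset (Vec p)}
    (hD : Dirs A D) (hS : Sep A B) (hB : B.card = p * p)
    (hDn : ∀ d ∈ D, ∀ d' ∈ D, ∀ s : ZMod p, d' = s • d → d = d') (hDc : p ≤ D.card)
    (ξ : Vec p) (j : ℕ) (hj : j ≤ p - 1) (hex : ∀ d ∈ D, ξ ⬝ᵥ d ≠ 0)
    (L0 L1 : Vec p →ₗ[ZMod p] K) (hL0 : ∀ x, L0 x = algebraMap (ZMod p) K (ξ ⬝ᵥ x))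
    (hL1 : ∀ x, L1 x = 0 → x = 0) : ∑ b ∈ B, (ξ ⬝ᵥ b) ^ j = 0 := by
  classical
  have hp2 := (Fact.out : p.Prime).two_le
  have hD0 := D_ne_zero hD
  have hinj0 : Function.Injective (algebraMap (ZMod p) K) := (algebraMap (ZMod p) K).injective
  obtain ⟨Q, hQ⟩ : ∃ Q : Polynomial K, Q = ∑ b ∈ B, (Polynomial.C (L0 b) + Polynomial.C (L1 b) * Polynomial.X) ^ j :=
    ⟨_, rfl⟩
  have hdeg : Q.natDegree ≤ j := by
    rw [hQ]
    apply Polynomial.natDegree_sum_le_of_forall_le
    intro b _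
    refine Polynomial.natDegree_pow_le.trans ?_
    have h1 : (Polynomial.C (L0 b) + Polynomial.C (L1 b) * Polynomial.X).natDegree ≤ 1 := by
      rw [add_comm]
      exact Polynomial.natDegree_linear_le
    calc j * (Polynomial.C (L0 b) + Polynomial.C (L1 b) * Polynomial.X).natDegree ≤ j * 1 :=
          Nat.mul_le_mul_left j h1
      _ = j := mul_one j
  have heval : ∀ t : K, Q.eval t = ∑ b ∈ B, (L0 b + L1 b * t) ^ j := by
    intro t
    rw [hQ, Polynomial.eval_finsetSum]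
    apply Finset.sum_congr rfl
    intro b _
    simp
  obtain ⟨t, ht⟩ : ∃ t : Vec p → K, ∀ d, t d = - (L0 d / L1 d) := ⟨fun d => - (L0 d / L1 d), fun d => rfl⟩
  have hroot : ∀ x ∈ D.image t, Q.eval x = 0 := by
    intro x hx
    obtain ⟨d, hd, rfl⟩ := Finset.mem_image.mp hx
    have hd1 : L1 d ≠ 0 := fun h => hD0 d hd (hL1 d h)
    have h2 := base_claim (K := K) hD hS hB hd (L0 + (LinearMap.mulRight (ZMod p) (t d)) ∘ₗ L1) (by
      rw [LinearMap.add_apply, LinearMap.comp_apply, LinearMap.mulRight_apply, ht]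
      field_simp
      ring) j hj
    rw [heval, ← h2]
    apply Finset.sum_congr rfl
    intro b _
    rw [LinearMap.add_apply, LinearMap.comp_apply, LinearMap.mulRight_apply]
  have htinj : Set.InjOn t D := by
    intro d hd d' hd' hdd
    have hd1 : L1 d ≠ 0 := fun h => hD0 d (by exact_mod_cast hd) (hL1 d h)
    have hd1' : L1 d' ≠ 0 := fun h => hD0 d' (by exact_mod_cast hd') (hL1 d' h)
    rw [ht, ht, neg_inj, div_eq_div_iff hd1 hd1', hL0, hL0] at hdd
    have h3 : L1 ((ξ ⬝ᵥ d) • d' - (ξ ⬝ᵥ d') • d) = 0 := by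
      rw [map_sub, map_smul, map_smul, Algebra.smul_def, Algebra.smul_def, hdd, sub_self]
    have h4 := hL1 _ h3
    have h5 := hex d (by exact_mod_cast hd)
    apply hDn d (by exact_mod_cast hd) d' (by exact_mod_cast hd') ((ξ ⬝ᵥ d)⁻¹ * (ξ ⬝ᵥ d'))
    rw [sub_eq_zero] at h4
    rw [mul_smul, ← h4, smul_smul, inv_mul_cancel₀ h5, one_smul]
  have hQ0 : Q = 0 := by
    apply Polynomial.eq_zero_of_natDegree_lt_card_of_eval_eq_zero' Q (D.image t) hroot
    rw [Finset.card_image_of_injOn htinj]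
    omega
  have h6 := heval 0
  rw [hQ0, Polynomial.eval_zero] at h6
  apply hinj0
  rw [map_zero, map_sum, h6]
  apply Finset.sum_congr rfl
  intro b _
  rw [map_pow, hL0, mul_zero, add_zero]

/-- the power sums of the second factor vanish -/
theorem powers {A B D : Finset (Vec p)} (hD : Dirs A D) (hS : Sep A B) (hB : B.card = p * p)
    (hDn : ∀ d ∈ D, ∀ d' ∈ D, ∀ s : ZMod p, d' = s • d → d = d') (hDc : p ≤ D.card)
    (ξ : Vec p) (j : ℕ) (hj : j ≤ p - 1) : ∑ b ∈ B, (ξ ⬝ᵥ b) ^ j = 0 := by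
  classical
  obtain ⟨F, hF⟩ : ∃ F : Vec p →ₗ[ZMod p] ZMod p, ∀ x, F x = ξ ⬝ᵥ x :=
    ⟨{ toFun := fun x => ξ ⬝ᵥ x
       map_add' := fun x y => dotProduct_add _ _ _
       map_smul' := fun c x => dotProduct_smul _ _ _ }, fun x => rfl⟩
  by_cases hex : ∃ d ∈ D, ξ ⬝ᵥ d = 0
  · obtain ⟨d, hd, hξd⟩ := hex
    have h1 := base_claim (K := ZMod p) hD hS hB hd F (by rw [hF]; exact hξd) j hj
    simp only [hF] at h1
    exact h1
  push Not at hex
  have hinj : Function.Injective (algebraMap (Polynomial (ZMod p)) (FractionRing (Polynomial (ZMod p)))) :=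
    IsFractionRing.injective _ _
  refine powers_aux (K := FractionRing (Polynomial (ZMod p))) hD hS hB hDn hDc ξ j hj hex
    ((Algebra.linearMap (ZMod p) (FractionRing (Polynomial (ZMod p)))) ∘ₗ F)
    ((IsScalarTower.toAlgHom (ZMod p) (Polynomial (ZMod p))
      (FractionRing (Polynomial (ZMod p)))).toLinearMap ∘ₗ gen p) ?_ ?_
  · intro x
    rw [LinearMap.comp_apply, hF]; rfl
  · intro x hx
    have hx' : algebraMap (Polynomial (ZMod p)) (FractionRing (Polynomial (ZMod p))) (gen p x) = 0 := hx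
    exact gen_inj (hinj (by rw [hx', map_zero]))

/-- all level sets of all functionals on the second factor have size divisible by `p` -/
theorem fib_dvd {A B D : Finset (Vec p)} (hD : Dirs A D) (hS : Sep A B) (hB : B.card = p * p)
    (hDn : ∀ d ∈ D, ∀ d' ∈ D, ∀ s : ZMod p, d' = s • d → d = d') (hDc : p ≤ D.card)
    (ξ : Vec p) (c : ZMod p) : p ∣ (Fib B ξ c).card := by
  classical
  have hp2 := (Fact.out : p.Prime).two_le
  rw [← CharP.cast_eq_zero_iff (ZMod p) p]
  have h1 : (((Fib B ξ c).card : ℕ) : ZMod p) = ∑ b ∈ B, (1 - (ξ ⬝ᵥ b + (-c)) ^ (p - 1)) := by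
    rw [Fib, Finset.card_filter, Nat.cast_sum]
    apply Finset.sum_congr rfl
    intro b _
    by_cases h2 : ξ ⬝ᵥ b = c
    · rw [if_pos h2, h2, add_neg_cancel, zero_pow (by omega), sub_zero, Nat.cast_one]
    · rw [if_neg h2, Nat.cast_zero, ZMod.pow_card_sub_one_eq_one (by
        intro h3; exact h2 (by linear_combination h3)), sub_self]
  rw [h1, Finset.sum_sub_distrib, Finset.sum_const, hB, nsmul_eq_mul, Nat.cast_mul,
    CharP.cast_eq_zero, zero_mul, zero_mul, zero_sub, neg_eq_zero]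
  have h4 : ∀ b ∈ B, (ξ ⬝ᵥ b + (-c)) ^ (p - 1) = ∑ m ∈ Finset.range (p - 1 + 1),
      (ξ ⬝ᵥ b) ^ m * (-c) ^ (p - 1 - m) * ((p - 1).choose m : ZMod p) := by
    intro b _
    rw [add_pow]
  rw [Finset.sum_congr rfl h4, Finset.sum_comm]
  apply Finset.sum_eq_zero
  intro m hm
  rw [Finset.mem_range] at hm
  have h5 : ∀ b ∈ B, (ξ ⬝ᵥ b) ^ m * (-c) ^ (p - 1 - m) * ((p - 1).choose m : ZMod p) =
      (ξ ⬝ᵥ b) ^ m * ((-c) ^ (p - 1 - m) * ((p - 1).choose m : ZMod p)) := by
    intro b _; ring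
  rw [Finset.sum_congr rfl h5, ← Finset.sum_mul, powers hD hS hB hDn hDc ξ m (by omega), zero_mul]

/-- a functional which is not equidistributed has an empty level set -/
theorem exists_empty {A B D : Finset (Vec p)} (hD : Dirs A D) (hS : Sep A B) (hB : B.card = p * p)
    (hDn : ∀ d ∈ D, ∀ d' ∈ D, ∀ s : ZMod p, d' = s • d → d = d') (hDc : p ≤ D.card)
    (ξ : Vec p) (hξ : ∃ c, (Fib B ξ c).card ≠ p) : ∃ c, (Fib B ξ c).card = 0 := by
  classical
  have hp0 := (Fact.out : p.Prime).pos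
  by_contra hcon
  push Not at hcon
  obtain ⟨c0, hc0⟩ := hξ
  have hge : ∀ c, p ≤ (Fib B ξ c).card := fun c =>
    Nat.le_of_dvd (Nat.pos_of_ne_zero (hcon c)) (fib_dvd hD hS hB hDn hDc ξ c)
  have hsum : ∑ _c : ZMod p, p = ∑ c : ZMod p, (Fib B ξ c).card := by
    rw [Finset.sum_const, Finset.card_univ, ZMod.card, smul_eq_mul, ← hB]
    exact Finset.card_eq_sum_card_fiberwise (f := fun b => ξ ⬝ᵥ b) (t := Finset.univ)
      (fun b _ => by simp)
  exact hc0 ((Finset.sum_eq_sum_iff_of_le (fun c _ => hge c)).mp hsum c0 (Finset.mem_univ c0)).symm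

end H758R3.Dir
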