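import Mathlib
import Pool.Agent.H758R3.Mom1
import Pool.Agent.H758R3.Mom3

set_option autoImplicit false

open Finset

namespace H758R3.Dir

variable {p : ℕ} [Fact p.Prime]

lemma exists_minor {u w : Vec p} (hu : u ≠ 0) (hw : ∀ s : ZMod p, s • u + w ≠ 0) :
    ∃ i j, u i * w j - u j * w i ≠ 0 := by
  by_contra hcon
  push Not at hcon
  obtain ⟨i, hi⟩ : ∃ i, u i ≠ 0 := by
    by_contra hcon
    push Not at hcon
    exact hu (funext hcon)
  apply hw (-(w i) / u i)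
  funext l
  have h1 := hcon i l
  simp only [Pi.add_apply, Pi.smul_apply, smul_eq_mul, Pi.zero_apply]
  field_simp
  linear_combination h1

lemma exists_point {u w : Vec p} (hu : u ≠ 0) (hw : ∀ s : ZMod p, s • u + w ≠ 0) (z1 z2 : ZMod p) :
    ∃ x : Vec p, u ⬝ᵥ x = z1 ∧ w ⬝ᵥ x = z2 := by
  obtain ⟨i, j, hm⟩ := exists_minor hu hw
  obtain ⟨m, hmd⟩ : ∃ m, m = u i * w j - u j * w i := ⟨_, rfl⟩
  rw [← hmd] at hm
  refine ⟨Pi.single i ((z1 * w j - z2 * u j) / m) + Pi.single j ((z2 * u i - z1 * w i) / m), ?_, ?_⟩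
  · rw [dotProduct_add, dotProduct_single, dotProduct_single, mul_div_assoc', mul_div_assoc',
      ← add_div, div_eq_iff hm, hmd]
    ring
  · rw [dotProduct_add, dotProduct_single, dotProduct_single, mul_div_assoc', mul_div_assoc',
      ← add_div, div_eq_iff hm, hmd]
    ring

lemma pencil_count (y1 y2 : ZMod p) :
    p ≤ ∑ α : ZMod p, ∑ β : ZMod p, (if α * y1 + β * y2 = 0 then 1 else 0) := by
  classical
  by_cases h2 : y2 = 0
  · have h1 : ∑ β : ZMod p, (if (0 : ZMod p) * y1 + β * y2 = 0 then 1 else 0) = p := by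
      rw [h2]
      simp [ZMod.card]
    calc p = ∑ β : ZMod p, (if (0 : ZMod p) * y1 + β * y2 = 0 then 1 else 0) := h1.symm
      _ ≤ _ := Finset.single_le_sum (f := fun α : ZMod p => ∑ β : ZMod p, (if α * y1 + β * y2 = 0 then 1 else 0))
        (fun α _ => Nat.zero_le _) (Finset.mem_univ 0)
  · have h1 : ∀ α : ZMod p, 1 ≤ ∑ β : ZMod p, (if α * y1 + β * y2 = 0 then 1 else 0) := by
      intro α
      have h3 : α * y1 + (-(α * y1) / y2) * y2 = 0 := by field_simp; ring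
      calc 1 = (if α * y1 + (-(α * y1) / y2) * y2 = 0 then 1 else 0) := by rw [if_pos h3]
        _ ≤ _ := Finset.single_le_sum (f := fun β : ZMod p => (if α * y1 + β * y2 = 0 then 1 else 0))
          (fun β _ => Nat.zero_le _) (Finset.mem_univ _)
    calc p = ∑ _α : ZMod p, 1 := by simp [ZMod.card]
      _ ≤ _ := Finset.sum_le_sum (fun α _ => h1 α)

lemma pencil_sum_ge (B : Finset (Vec p)) (u w x : Vec p) :
    B.card * p ≤ ∑ α : ZMod p, ∑ β : ZMod p, (Fib B (α • u + β • w) ((α • u + β • w) ⬝ᵥ x)).card := by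
  classical
  have h1 : ∀ α β : ZMod p, (Fib B (α • u + β • w) ((α • u + β • w) ⬝ᵥ x)).card =
      ∑ b ∈ B, (if α * (u ⬝ᵥ (b - x)) + β * (w ⬝ᵥ (b - x)) = 0 then 1 else 0) := by
    intro α β
    rw [Fib, Finset.card_filter]
    apply Finset.sum_congr rfl
    intro b _
    have h2 : ((α • u + β • w) ⬝ᵥ b = (α • u + β • w) ⬝ᵥ x) ↔
        (α * (u ⬝ᵥ (b - x)) + β * (w ⬝ᵥ (b - x)) = 0) := by
      rw [add_dotProduct, add_dotProduct, smul_dotProduct, smul_dotProduct, smul_dotProduct,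
        smul_dotProduct, dotProduct_sub, dotProduct_sub, smul_eq_mul, smul_eq_mul, smul_eq_mul,
        smul_eq_mul]
      constructor
      · intro h; linear_combination h
      · intro h; linear_combination h
    simp only [h2]
  simp only [h1]
  have h3 : ∑ α : ZMod p, ∑ β : ZMod p, ∑ b ∈ B,
      (if α * (u ⬝ᵥ (b - x)) + β * (w ⬝ᵥ (b - x)) = 0 then 1 else 0) =
      ∑ b ∈ B, ∑ α : ZMod p, ∑ β : ZMod p,
        (if α * (u ⬝ᵥ (b - x)) + β * (w ⬝ᵥ (b - x)) = 0 then 1 else 0) := by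
    rw [Finset.sum_congr rfl (fun α _ => Finset.sum_comm), Finset.sum_comm]
  rw [h3]
  calc B.card * p = ∑ _b ∈ B, p := by rw [Finset.sum_const, smul_eq_mul]
    _ ≤ _ := Finset.sum_le_sum (fun b _ => pencil_count _ _)

lemma Fib_smul (B : Finset (Vec p)) (u : Vec p) {α : ZMod p} (hα : α ≠ 0) (z : ZMod p) :
    Fib B (α • u) (α * z) = Fib B u z := by
  ext b
  rw [mem_Fib, mem_Fib, smul_dotProduct, smul_eq_mul, mul_right_inj' hα]

/-- no pencil contains exactly two functionals that are not equidistributed -/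
theorem third {A B D : Finset (Vec p)} (hD : Dirs A D) (hS : Sep A B) (hB : B.card = p * p)
    (hDn : ∀ d ∈ D, ∀ d' ∈ D, ∀ s : ZMod p, d' = s • d → d = d') (hDc : p ≤ D.card)
    {u w : Vec p} (hu : u ≠ 0) (hw : ∀ s : ZMod p, s • u + w ≠ 0)
    (hEu : ∃ c, (Fib B u c).card ≠ p) (hEw : ∃ c, (Fib B w c).card ≠ p) :
    ∃ α β : ZMod p, α ≠ 0 ∧ β ≠ 0 ∧ ∃ c, (Fib B (α • u + β • w) c).card ≠ p := by
  classical
  have hp2 := (Fact.out : p.Prime).two_le
  by_contra hcon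
  push Not at hcon
  obtain ⟨z1, hz1⟩ := exists_empty hD hS hB hDn hDc u hEu
  obtain ⟨z2, hz2⟩ := exists_empty hD hS hB hDn hDc w hEw
  obtain ⟨x, hx1, hx2⟩ := exists_point hu hw z1 z2
  have hge := pencil_sum_ge B u w x
  obtain ⟨f, hf⟩ : ∃ f : ZMod p → ZMod p → ℕ, ∀ α β, f α β =
      (Fib B (α • u + β • w) ((α • u + β • w) ⬝ᵥ x)).card := ⟨_, fun α β => rfl⟩
  have hf00 : f 0 0 = p * p := by
    rw [hf, ← hB]
    congr 1
    ext b
    rw [mem_Fib]
    simp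
  have hf0 : ∀ β, β ≠ 0 → f 0 β = 0 := by
    intro β hβ
    rw [hf, zero_smul, zero_add, smul_dotProduct, hx2, smul_eq_mul, Fib_smul B w hβ, hz2]
  have hf1 : ∀ α, α ≠ 0 → f α 0 = 0 := by
    intro α hα
    rw [hf, zero_smul, add_zero, smul_dotProduct, hx1, smul_eq_mul, Fib_smul B u hα, hz1]
  have hf2 : ∀ α β, α ≠ 0 → β ≠ 0 → f α β = p := by
    intro α β hα hβ
    rw [hf]
    exact hcon α β hα hβ _
  have hsum0 : ∑ β, f 0 β = p * p := by
    rw [← Finset.add_sum_erase Finset.univ (f 0) (Finset.mem_univ 0), hf00,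
      Finset.sum_eq_zero (fun β hβ => hf0 β (Finset.ne_of_mem_erase hβ)), add_zero]
  have hcard : ((Finset.univ : Finset (ZMod p)).erase 0).card = p - 1 := by
    rw [Finset.card_erase_of_mem (Finset.mem_univ _), Finset.card_univ, ZMod.card]
  have hsum1 : ∀ α, α ≠ 0 → ∑ β, f α β = (p - 1) * p := by
    intro α hα
    rw [← Finset.add_sum_erase Finset.univ (f α) (Finset.mem_univ 0), hf1 α hα, zero_add,
      Finset.sum_congr rfl (fun β hβ => hf2 α β hα (Finset.ne_of_mem_erase hβ)), Finset.sum_const,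
      hcard, smul_eq_mul]
  have htot : ∑ α, ∑ β, f α β = p * p + (p - 1) * ((p - 1) * p) := by
    rw [← Finset.add_sum_erase Finset.univ (fun α => ∑ β, f α β) (Finset.mem_univ 0), hsum0,
      Finset.sum_congr rfl (fun α hα => hsum1 α (Finset.ne_of_mem_erase hα)), Finset.sum_const,
      hcard, smul_eq_mul]
  have hge' : p * p * p ≤ ∑ α, ∑ β, f α β := by
    rw [← hB]
    refine hge.trans (le_of_eq ?_)
    apply Finset.sum_congr rfl
    intro α _
    apply Finset.sum_congr rfl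
    intro β _
    rw [hf]
  rw [htot] at hge'
  obtain ⟨q, hq⟩ : ∃ q, p = q + 1 := ⟨p - 1, by omega⟩
  rw [hq, Nat.add_sub_cancel] at hge'
  have hq1 : 1 ≤ q := by omega
  nlinarith

/-- functionals which are not equidistributed on the second factor are injective on the first -/
lemma inj_of_nonequi {A B D : Finset (Vec p)} (hD : Dirs A D) (hS : Sep A B) (hB : B.card = p * p)
    {u : Vec p} (hu : u ≠ 0) (hE : ∃ c, (Fib B u c).card ≠ p) :
    Set.InjOn (fun a => u ⬝ᵥ a) A := by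
  apply injOn_of_kill hD
  by_contra hne
  obtain ⟨d, hd⟩ := Finset.nonempty_iff_ne_empty.mpr hne
  rw [mem_kill] at hd
  obtain ⟨c, hc⟩ := hE
  exact hc (fiber_card hD hS hB hu hd.1 hd.2 c)

/-- the first two moments of the first factor vanish -/
theorem two_moments {A B D : Finset (Vec p)} (hD : Dirs A D) (hA : A.card = p) (hnp : NonPlanar A)
    (hS : Sep A B) (hB : B.card = p * p) (hnpB : NonPlanar B)
    (hDn : ∀ d ∈ D, ∀ d' ∈ D, ∀ s : ZMod p, d' = s • d → d = d') (hDc : p ≤ D.card) (hp5 : 5 ≤ p) :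
    (∀ i, ∑ a ∈ A, a i = 0) ∧ ∀ i j, ∑ a ∈ A, a i * a j = 0 := by
  classical
  have hpp := (Fact.out : p.Prime)
  obtain ⟨h, hp⟩ : ∃ h, p = 2 * h + 1 := by
    rcases hpp.eq_two_or_odd with h1 | h1
    · omega
    · exact ⟨p / 2, by omega⟩
  have hh : 1 ≤ h := by omega
  have hspan : ∀ v : Vec p, (∀ ξ : Vec p, ξ ≠ 0 → (∃ c, (Fib B ξ c).card ≠ p) → ξ ⬝ᵥ v = 0) → v = 0 := by
    intro v hv
    by_contra hv0
    obtain ⟨ξ, h1, h2⟩ := spans hD hA hnp hS hB hnpB h hh hp hv0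
    exact h1 (hv ξ (by rintro rfl; exact h1 (zero_dotProduct _)) h2)
  have h20 : (2 : ZMod p) ≠ 0 := by
    intro h2
    have h3 : ((2 : ℕ) : ZMod p) = 0 := by exact_mod_cast h2
    rw [ZMod.natCast_eq_zero_iff] at h3
    have := Nat.le_of_dvd (by norm_num) h3
    omega
  have hM1 : ∀ ξ : Vec p, ξ ≠ 0 → (∃ c, (Fib B ξ c).card ≠ p) → ∑ a ∈ A, ξ ⬝ᵥ a = 0 := by
    intro ξ hξ hE
    have := M_of_inj hA (inj_of_nonequi hD hS hB hξ hE) (k := 1) (by omega)
    simpa [M] using this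
  have hM2 : ∀ ξ : Vec p, ξ ≠ 0 → (∃ c, (Fib B ξ c).card ≠ p) → ∑ a ∈ A, (ξ ⬝ᵥ a) * (ξ ⬝ᵥ a) = 0 := by
    intro ξ hξ hE
    have := M_of_inj hA (inj_of_nonequi hD hS hB hξ hE) (k := 2) (by omega)
    simpa [M, pow_two] using this
  -- the bilinear form vanishes on pairs
  have hb : ∀ ξ : Vec p, ξ ≠ 0 → (∃ c, (Fib B ξ c).card ≠ p) → ∀ η : Vec p, η ≠ 0 →
      (∃ c, (Fib B η c).card ≠ p) → ∑ a ∈ A, (ξ ⬝ᵥ a) * (η ⬝ᵥ a) = 0 := by
    intro ξ hξ hEξ η hη hEη
    by_cases hpar : ∀ s : ZMod p, s • ξ + η ≠ 0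
    · obtain ⟨α, β, hα, hβ, hE⟩ := third hD hS hB hDn hDc hξ hpar hEξ hEη
      have hne : α • ξ + β • η ≠ 0 := by
        intro h0
        apply hpar (β⁻¹ * α)
        rw [mul_smul, ← smul_right_injective _ hβ |>.eq_iff]
        simp only [smul_add, smul_zero, smul_smul, mul_inv_cancel_left₀ hβ]
        exact h0
      have h1 := hM2 _ hne hE
      have h2 : ∑ a ∈ A, ((α • ξ + β • η) ⬝ᵥ a) * ((α • ξ + β • η) ⬝ᵥ a) =
          α * α * ∑ a ∈ A, (ξ ⬝ᵥ a) * (ξ ⬝ᵥ a) + 2 * α * β * ∑ a ∈ A, (ξ ⬝ᵥ a) * (η ⬝ᵥ a) +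
          β * β * ∑ a ∈ A, (η ⬝ᵥ a) * (η ⬝ᵥ a) := by
        rw [Finset.mul_sum, Finset.mul_sum, Finset.mul_sum, ← Finset.sum_add_distrib,
          ← Finset.sum_add_distrib]
        apply Finset.sum_congr rfl
        intro a _
        rw [add_dotProduct, smul_dotProduct, smul_dotProduct, smul_eq_mul, smul_eq_mul]
        ring
      rw [h2, hM2 ξ hξ hEξ, hM2 η hη hEη, mul_zero, mul_zero, add_zero, zero_add] at h1
      exact (mul_eq_zero.mp h1).resolve_left (mul_ne_zero (mul_ne_zero h20 hα) hβ)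
    · push Not at hpar
      obtain ⟨s, hs⟩ := hpar
      have hη' : η = (-s) • ξ := by
        rw [neg_smul]; exact eq_neg_of_add_eq_zero_right hs
      rw [hη']
      have h3 : ∑ a ∈ A, (ξ ⬝ᵥ a) * (((-s) • ξ) ⬝ᵥ a) = (-s) * ∑ a ∈ A, (ξ ⬝ᵥ a) * (ξ ⬝ᵥ a) := by
        rw [Finset.mul_sum]
        apply Finset.sum_congr rfl
        intro a _
        rw [smul_dotProduct, smul_eq_mul]; ring
      rw [h3, hM2 ξ hξ hEξ, mul_zero]
  have hpair : ∀ (ξ η : Vec p), η ⬝ᵥ (∑ a ∈ A, (ξ ⬝ᵥ a) • a) = ∑ a ∈ A, (ξ ⬝ᵥ a) * (η ⬝ᵥ a) := by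
    intro ξ η
    rw [dotProduct_sum]
    apply Finset.sum_congr rfl
    intro a _
    rw [dotProduct_smul, smul_eq_mul]
  have hv1 : ∀ ξ : Vec p, ξ ≠ 0 → (∃ c, (Fib B ξ c).card ≠ p) → ∑ a ∈ A, (ξ ⬝ᵥ a) • a = 0 := by
    intro ξ hξ hE
    apply hspan
    intro η hη hEη
    rw [hpair]
    exact hb ξ hξ hE η hη hEη
  have hv2 : ∀ ζ : Vec p, ∑ a ∈ A, (ζ ⬝ᵥ a) • a = 0 := by
    intro ζ
    apply hspan
    intro ξ hξ hE
    rw [hpair]
    have h4 := hpair ξ ζ
    rw [hv1 ξ hξ hE, dotProduct_zero] at h4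
    rw [h4]
    apply Finset.sum_congr rfl
    intro a _
    ring
  constructor
  · intro i
    have h5 : ∑ a ∈ A, a = 0 := by
      apply hspan
      intro ξ hξ hE
      rw [dotProduct_sum]
      exact hM1 ξ hξ hE
    have h6 := congrArg (fun v : Vec p => v i) h5
    simpa [Finset.sum_apply] using h6
  · intro i j
    have h5 := congrArg (fun v : Vec p => v j) (hv2 (Pi.single i 1))
    simpa [Finset.sum_apply, single_dotProduct] using h5

end H758R3.Dir
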