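import Mathlib
import Pool.Agent.H758R3.Mom4

set_option autoImplicit false

open Finset

namespace H758R3.Dir

variable {p : ℕ} [Fact p.Prime]

/-- the functionals that are not equidistributed on the second factor do not lie on a conic -/
theorem no_conic {A B D : Finset (Vec p)} (hD : Dirs A D) (hA : A.card = p) (hnp : NonPlanar A)
    (hS : Sep A B) (hB : B.card = p * p) (hnpB : NonPlanar B)
    (hDn : ∀ d ∈ D, ∀ d' ∈ D, ∀ s : ZMod p, d' = s • d → d = d') (hDc : p ≤ D.card) (hp3 : 3 ≤ p)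
    (Q : Matrix (Fin 3) (Fin 3) (ZMod p)) (hQ : Q.transpose = Q)
    (hE : ∀ ξ : Vec p, ξ ≠ 0 → (∃ c, (Fib B ξ c).card ≠ p) → ξ ⬝ᵥ Q.mulVec ξ = 0) : Q = 0 := by
  classical
  have hpp := (Fact.out : p.Prime)
  obtain ⟨h, hp⟩ : ∃ h, p = 2 * h + 1 := by
    rcases hpp.eq_two_or_odd with h1 | h1
    · omega
    · exact ⟨p / 2, by omega⟩
  have hh : 1 ≤ h := by omega
  have hspan : ∀ v : Vec p, (∀ ξ : Vec p, ξ ≠ 0 → (∃ c, (Fib B ξ c).card ≠ p) → ξ ⬝ᵥ v = 0) → v = 0 := by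
    intro v hv
    by_contra hv0
    obtain ⟨ξ, h1, h2⟩ := spans hD hA hnp hS hB hnpB h hh hp hv0
    exact h1 (hv ξ (by rintro rfl; exact h1 (zero_dotProduct _)) h2)
  have h20 : (2 : ZMod p) ≠ 0 := by
    intro h2
    have h3 : ((2 : ℕ) : ZMod p) = 0 := by exact_mod_cast h2
    rw [ZMod.natCast_eq_zero_iff] at h3
    have := Nat.le_of_dvd (by norm_num) h3
    omega
  have hsymm : ∀ ξ η : Vec p, ξ ⬝ᵥ Q.mulVec η = η ⬝ᵥ Q.mulVec ξ := by
    intro ξ η
    rw [Matrix.dotProduct_mulVec, ← Matrix.mulVec_transpose, hQ, dotProduct_comm]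
  have hb : ∀ ξ : Vec p, ξ ≠ 0 → (∃ c, (Fib B ξ c).card ≠ p) → ∀ η : Vec p, η ≠ 0 →
      (∃ c, (Fib B η c).card ≠ p) → η ⬝ᵥ Q.mulVec ξ = 0 := by
    intro ξ hξ hEξ η hη hEη
    by_cases hpar : ∀ s : ZMod p, s • ξ + η ≠ 0
    · obtain ⟨α, β, hα, hβ, hE'⟩ := third hD hS hB hDn hDc hξ hpar hEξ hEη
      have hne : α • ξ + β • η ≠ 0 := by
        intro h0
        apply hpar (β⁻¹ * α)
        rw [mul_smul, ← smul_right_injective _ hβ |>.eq_iff]
        simp only [smul_add, smul_zero, smul_smul, mul_inv_cancel_left₀ hβ]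
        exact h0
      have h1 := hE _ hne hE'
      have h2 : (α • ξ + β • η) ⬝ᵥ Q.mulVec (α • ξ + β • η) =
          α * α * (ξ ⬝ᵥ Q.mulVec ξ) + 2 * α * β * (η ⬝ᵥ Q.mulVec ξ) +
          β * β * (η ⬝ᵥ Q.mulVec η) := by
        rw [Matrix.mulVec_add, Matrix.mulVec_smul, Matrix.mulVec_smul, dotProduct_add,
          dotProduct_smul, dotProduct_smul, add_dotProduct, add_dotProduct, smul_dotProduct,
          smul_dotProduct, smul_dotProduct, smul_dotProduct, hsymm ξ η]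
        simp only [smul_eq_mul]
        ring
      rw [h2, hE ξ hξ hEξ, hE η hη hEη, mul_zero, mul_zero, add_zero, zero_add] at h1
      exact (mul_eq_zero.mp h1).resolve_left (mul_ne_zero (mul_ne_zero h20 hα) hβ)
    · push Not at hpar
      obtain ⟨s, hs⟩ := hpar
      have hη' : η = (-s) • ξ := by
        rw [neg_smul]; exact eq_neg_of_add_eq_zero_right hs
      rw [hη', smul_dotProduct, hE ξ hξ hEξ, smul_zero]
  have hv1 : ∀ ξ : Vec p, ξ ≠ 0 → (∃ c, (Fib B ξ c).card ≠ p) → Q.mulVec ξ = 0 := by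
    intro ξ hξ hEξ
    apply hspan
    intro η hη hEη
    exact hb ξ hξ hEξ η hη hEη
  have hv2 : ∀ ζ : Vec p, Q.mulVec ζ = 0 := by
    intro ζ
    apply hspan
    intro ξ hξ hEξ
    rw [hsymm, hv1 ξ hξ hEξ, dotProduct_zero]
  ext i j
  have h5 := congrArg (fun v : Vec p => v i) (hv2 (Pi.single j 1))
  simpa using h5

/-- representatives of the directions -/
lemma exists_dirs (A : Finset (Vec p)) : ∃ D : Finset (Vec p), Dirs A D ∧
    ∀ d ∈ D, ∀ d' ∈ D, ∀ s : ZMod p, d' = s • d → d = d' := by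
  classical
  set DD : Finset (Submodule (ZMod p) (Vec p)) :=
    A.offDiag.image (fun q => Submodule.span (ZMod p) {q.1 - q.2}) with hDD
  have hrep : ∀ W ∈ DD, ∃ d : Vec p, (∃ a ∈ A, ∃ b ∈ A, a ≠ b ∧ d = a - b) ∧
      W = Submodule.span (ZMod p) {d} := by
    intro W hW
    rw [hDD, Finset.mem_image] at hW
    obtain ⟨⟨a, b⟩, hq, rfl⟩ := hW
    rw [Finset.mem_offDiag] at hq
    exact ⟨a - b, ⟨a, hq.1, b, hq.2.1, hq.2.2, rfl⟩, rfl⟩
  choose! r hr1 hr2 using hrep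
  set D : Finset (Vec p) := DD.image r with hD
  have hrinj : Set.InjOn r DD := by
    intro W hW W' hW' h
    rw [hr2 W hW, hr2 W' hW', h]
  have hDc : D.card = DD.card := Finset.card_image_of_injOn hrinj
  have hdirs : Dirs A D := by
    constructor
    · intro d hd
      rw [hD, Finset.mem_image] at hd
      obtain ⟨W, hW, rfl⟩ := hd
      exact hr1 W hW
    · intro a ha b hb hab
      obtain ⟨W0, hW0⟩ : ∃ W0 : Submodule (ZMod p) (Vec p),
        W0 = Submodule.span (ZMod p) {a - b} := ⟨_, rfl⟩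
      have hW : W0 ∈ DD := by
        rw [hDD, Finset.mem_image]
        exact ⟨(a, b), by rw [Finset.mem_offDiag]; exact ⟨ha, hb, hab⟩, hW0.symm⟩
      refine ⟨r W0, Finset.mem_image_of_mem r hW, ?_⟩
      have h3 := hr2 _ hW
      have h4 : r W0 ∈ Submodule.span (ZMod p) {r W0} := Submodule.mem_span_singleton_self _
      rw [← h3] at h4
      have h5 : ∀ x ∈ W0, ∃ c : ZMod p, c • (a - b) = x := by
        intro x hx
        rw [hW0] at hx
        exact Submodule.mem_span_singleton.mp hx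
      obtain ⟨c, hc⟩ := h5 _ h4
      refine ⟨c, ?_, hc.symm⟩
      intro hc0
      rw [hc0, zero_smul] at hc
      obtain ⟨a', _, b', _, hab', hr'⟩ := hr1 _ hW
      rw [← hc] at hr'
      exact hab' (sub_eq_zero.mp hr'.symm)
  have hD0 := D_ne_zero hdirs
  have hDn : ∀ d ∈ D, ∀ d' ∈ D, ∀ s : ZMod p, d' = s • d → d = d' := by
    intro d hd d' hd' s hs
    have hs0 : s ≠ 0 := by
      intro h0
      rw [h0, zero_smul] at hs
      exact hD0 d' hd' hs
    rw [hD, Finset.mem_image] at hd hd'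
    obtain ⟨W, hW, rfl⟩ := hd
    obtain ⟨W', hW', rfl⟩ := hd'
    have h1 : W = W' := by
      rw [hr2 W hW, hr2 W' hW', hs]
      exact (Submodule.span_singleton_smul_eq (IsUnit.mk0 s hs0) _).symm
    rw [h1]
  exact ⟨D, hdirs, hDn⟩

/-- conclusion for a factor of size `p` -/
theorem factor_conic (A B : Finset (Vec p)) (hA : A.card = p) (hB : B.card = p * p)
    (hS : Sep A B) (hnp : NonPlanar A) (hnpB : NonPlanar B) :
    (∀ i, ∑ a ∈ A, a i = 0) ∧ (∀ i j, ∑ a ∈ A, a i * a j = 0) ∧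
    ∀ Q : Matrix (Fin 3) (Fin 3) (ZMod p), Q.transpose = Q →
      (∀ ξ : Vec p, Set.InjOn (fun a => ξ ⬝ᵥ a) (A : Set (Vec p)) → ξ ⬝ᵥ Q.mulVec ξ = 0) → Q = 0 := by
  classical
  obtain ⟨D, hdirs, hDn⟩ := exists_dirs A
  have hD0 := D_ne_zero hdirs
  have hp2 := ne_two_of_nonPlanar hA hnp
  have hpp := (Fact.out : p.Prime)
  obtain ⟨h, hp⟩ : ∃ h, p = 2 * h + 1 := by
    rcases hpp.eq_two_or_odd with h1 | h1
    · exact absurd h1 hp2
    · exact ⟨p / 2, by omega⟩
  have hp2' := hpp.two_le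
  have hh : 1 ≤ h := by omega
  have hDc : p + 1 ≤ D.card := by
    by_contra hlt
    push Not at hlt
    exact main hdirs hA hnp (by omega) hD0
  have h1 := card_le hdirs hA hnp hS hB hnpB h hh hp hDn
  have hh2 : 2 ≤ h := by
    by_contra hlt
    have h2 : h = 1 := by omega
    rw [h2] at h1
    omega
  obtain ⟨m1, m2⟩ := two_moments hdirs hA hnp hS hB hnpB hDn (by omega) (by omega)
  refine ⟨m1, m2, ?_⟩
  intro Q hQ hE
  apply no_conic hdirs hA hnp hS hB hnpB hDn (by omega) (by omega) Q hQ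
  intro ξ hξ hEξ
  exact hE ξ (inj_of_nonequi hdirs hS hB hξ hEξ)

end H758R3.Dir
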